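import Pool.Agent.Q246.LN.Tor

/-!
# From bad points to near relations
-/

set_option autoImplicit false

open PowerSeries Module

namespace Pool.Agent.Q246.LN

open Pool.Agent.Y916.Af Pool.Agent.Y916.Al Pool.Agent.Y916.Sl Pool.Agent.Q246.NR Pool.Agent.Q246.NR2

variable {r : ℕ}

theorem hbad_fam {h : Fin r → ℚ⟦X⟧} (hsize : ∃ C : ℝ, ∀ i m, |((coeff m (h i) : ℚ) : ℝ)| ≤ C ^ (m + 1))
    (g k m d : ℕ) {ι : Finset (Fin r → Fin (d + 1))} {c : Polynomial ℤ}
    {cc : (Fin r → Fin (d + 1)) → ι → Polynomial ℤ} (hc0 : c ≠ 0)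
    (hrel : ∀ s, MvPolynomial.aeval h (MvPolynomial.C (c.map (Int.castRingHom ℚ)) * MvPolynomial.monomial (mb d s) 1 -
      ∑ i, MvPolynomial.C ((cc s i).map (Int.castRingHom ℚ)) * MvPolynomial.monomial (mb d i) (1 : Polynomial ℚ)) = 0) :
    ∃ D R₀ : ℕ, ∀ B₀ : ℕ, ∃ B : ℕ, ∀ T : ℕ, 1 ≤ T → ∃ H₀ : ℝ, ∀ (ζ : Fin g → ℂ) (x : Fin k → ℂ) (H : ℝ), H₀ ≤ H →
      (∀ j, AInt m T (x j)) → (∀ j, (R₀ : ℝ) < ‖x j‖) → ¬ GdL h d B ζ x H →
      RelT D (fun f : Fin (g + 1) → Fin (D + 1) =>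
        ∏ s, (Fin.cons (2 * Real.pi * Complex.I) ζ : Fin (g + 1) → ℂ) s ^ (f s : ℕ))
        (fun _ => Ym h Complex.log (fun l : ι => mb d l) d) x (H ^ (2 + k * d)) ((H ^ (2 + k * d)) ^ B₀)⁻¹ := by
  classical
  obtain ⟨R₁, hR₁1, hR₁⟩ := val_memC hsize
  obtain ⟨R₂, hR₂1, hR₂⟩ := large_ne (c := c.map (Int.castRingHom ℚ))
    ((Polynomial.map_ne_zero_iff (RingHom.injective_int _)).2 hc0)
  -- the degrees
  obtain ⟨N, hN, hN'⟩ : ∃ N : ℕ, c.natDegree ≤ N ∧ ∀ s i, (cc s i).natDegree ≤ N := by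
    refine ⟨c.natDegree + ∑ s, ∑ i, (cc s i).natDegree, by omega, fun s i => ?_⟩
    have h1 : (cc s i).natDegree ≤ ∑ i, (cc s i).natDegree :=
      Finset.single_le_sum (f := fun i => (cc s i).natDegree) (fun _ _ => Nat.zero_le _) (Finset.mem_univ i)
    have h2 : ∑ i, (cc s i).natDegree ≤ ∑ s, ∑ i, (cc s i).natDegree :=
      Finset.single_le_sum (f := fun s => ∑ i, (cc s i).natDegree) (fun _ _ => Nat.zero_le _) (Finset.mem_univ s)
    omega
  set μ : ι → Fin r → Fin (d + 1) := fun l => (l : Fin r → Fin (d + 1)) with hμ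
  -- the two expansions
  set F₁ : Fin k → (Fin r → Fin (d + 1)) → ι → MvPolynomial (Fin g ⊕ Fin k) ℤ := fun j s l =>
    Polynomial.aeval (MvPolynomial.X (Sum.inr j)) (Polynomial.reflect N (cc s l)) with hF₁
  set F₂ : Fin k → (Fin r → Fin (d + 1)) → ι → MvPolynomial (Fin k) ℤ := fun j s l =>
    Polynomial.aeval (MvPolynomial.X j) (Polynomial.reflect N (cc s l)) with hF₂
  obtain ⟨D₁, Λ₁, hΛ₁, hb₁⟩ := bound_AE (d := d) F₁
  obtain ⟨D₂, Λ₂, hΛ₂, hb₂⟩ := bound_AE (d := d) F₂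
  set D₃ : ℕ := max D₁ D₂ with hD₃
  set Λ : ℝ := max Λ₁ Λ₂ with hΛ
  have hΛ1 : 1 ≤ Λ := hΛ₁.trans (le_max_left _ _)
  set nE : ℕ := Fintype.card (Fin k → Fin (d + 1) × ι) with hnE
  refine ⟨D₃ + k * d, max R₁ R₂ + 1, fun B₀ => ⟨(2 + k * d) * B₀ + 2 * (k * (d * (r + 1))) + 2 * m ^ k + 2,
    fun T hT => ?_⟩⟩
  set e₀ : ℕ := 2 + k * d with he₀
  set B : ℕ := e₀ * B₀ + 2 * (k * (d * (r + 1))) + 2 * m ^ k + 2 with hB
  have hTR : (1 : ℝ) ≤ T := by exact_mod_cast hT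
  -- the bound of the denominators
  obtain ⟨Λc, hΛc⟩ : ∃ Λc : ℝ, ∀ z : ℂ, ‖z‖ ≤ T → ‖Polynomial.aeval z (Polynomial.reflect N c)‖ ≤ Λc := by
    have hcont : Continuous fun z : ℂ => ‖Polynomial.aeval z (Polynomial.reflect N c)‖ :=
      (Polynomial.continuous_aeval _).norm
    obtain ⟨Λc, hΛc⟩ := (isCompact_closedBall (0 : ℂ) T).bddAbove_image hcont.continuousOn
    refine ⟨Λc, fun z hz => hΛc ⟨z, ?_, rfl⟩⟩
    rw [mem_closedBall_zero_iff]
    exact hz
  set Λc' : ℝ := max 1 Λc with hΛc'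
  have hΛc1 : 1 ≤ Λc' := le_max_left _ _
  refine ⟨max (max 9 (Real.log T + 4)) (max (max (nE : ℝ) (nE * (Λ * (2 ^ d) ^ k))) (max (Λ * (T : ℝ) ^ D₃) (Λc' ^ k))),
    fun ζ α H hH hα hαR hbad => ?_⟩
  have hH8 : 9 ≤ H := (le_max_left _ _).trans ((le_max_left _ _).trans hH)
  have hHlog : Real.log T + 4 ≤ H := (le_max_right _ _).trans ((le_max_left _ _).trans hH)
  have hHn : (nE : ℝ) ≤ H := (le_max_left _ _).trans ((le_max_left _ _).trans ((le_max_right _ _).trans hH))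
  have hHn2 : nE * (Λ * (2 ^ d) ^ k) ≤ H := (le_max_right _ _).trans ((le_max_left _ _).trans ((le_max_right _ _).trans hH))
  have hHT : Λ * (T : ℝ) ^ D₃ ≤ H := (le_max_left _ _).trans ((le_max_right _ _).trans ((le_max_right _ _).trans hH))
  have hHc : Λc' ^ k ≤ H := (le_max_right _ _).trans ((le_max_right _ _).trans ((le_max_right _ _).trans hH))
  have hH1 : 1 ≤ H := by linarith
  have hHp : 0 < H := by linarith
  by_contra hrelT
  apply hbad
  clear hbad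
  -- the points
  have hαT : ∀ j, ‖α j‖ ≤ T := by
    intro j
    obtain ⟨f, -, -, h3, h4⟩ := hα j
    exact h4 _ h3
  have hα1 : ∀ j, 1 ≤ ‖α j‖ := by
    intro j
    have h1 := (hαR j).le
    push_cast at h1
    have h2 : (0 : ℝ) ≤ max (R₁ : ℝ) R₂ := (Nat.cast_nonneg R₁).trans (le_max_left _ _)
    linarith
  have hα0 : ∀ j, α j ≠ 0 := fun j => norm_pos_iff.1 (lt_of_lt_of_le one_pos (hα1 j))
  have hαR₁ : ∀ j, (R₁ : ℝ) < ‖α j‖ := by
    intro j
    have h1 := hαR j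
    push_cast at h1
    have h2 : (R₁ : ℝ) ≤ max (R₁ : ℝ) R₂ := le_max_left _ _
    linarith
  have hαR₂ : ∀ j, (R₂ : ℝ) < ‖α j‖ := by
    intro j
    have h1 := hαR j
    push_cast at h1
    have h2 : (R₂ : ℝ) ≤ max (R₁ : ℝ) R₂ := le_max_right _ _
    linarith
  -- the denominators
  set a : Fin k → ℂ := fun j => Polynomial.aeval (α j) (Polynomial.reflect N c) with ha
  have ha0 : ∀ j, a j ≠ 0 := by
    intro j
    have h1 := hR₂ (α j) (hαR₂ j)
    have h2 : Polynomial.aeval (1 / α j) (c.map (Int.castRingHom ℚ)) = Polynomial.aeval (1 / α j) c :=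
      Polynomial.aeval_map_algebraMap ℚ (1 / α j) c
    rw [h2] at h1
    rw [ha]
    beta_reduce
    rw [aeval_refl c N hN _ (hα0 j)]
    exact mul_ne_zero (pow_ne_zero _ (hα0 j)) h1
  have hpa0 : ∏ j, a j ≠ 0 := Finset.prod_ne_zero_iff.2 fun j _ => ha0 j
  have hpan : 0 < ‖∏ j, a j‖ := norm_pos_iff.2 hpa0
  have hpaH : ‖∏ j, a j‖ ≤ H := by
    refine le_trans ?_ hHc
    rw [norm_prod]
    calc ∏ j, ‖a j‖ ≤ ∏ _j : Fin k, Λc' :=
          Finset.prod_le_prod (fun _ _ => norm_nonneg _) fun j _ => (hΛc _ (hαT j)).trans (le_max_right _ _)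
      _ = Λc' ^ k := by rw [Finset.prod_const, Finset.card_univ, Fintype.card_fin]
  -- the relations on the fibres
  have hfib₁ : ∀ y ∈ Fib h (fun j => 1 / α j), ∀ (j : Fin k) (s : Fin r → Fin (d + 1)),
      a j * ∏ i, y (j, some i) ^ (s i : ℕ) =
        ∑ l, MvPolynomial.aeval (Sum.elim ζ α) (F₁ j s l) * ∏ i, y (j, some i) ^ (μ l i : ℕ) := by
    intro y hy j s
    have h1 := fib_rel hrel N hN hN' (α j) (hα0 j) _ (hy j) s
    rw [ha]
    refine h1.trans (Finset.sum_congr rfl fun l _ => ?_)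
    congr 1
    rw [hF₁]
    beta_reduce
    rw [← Polynomial.aeval_algHom_apply, MvPolynomial.aeval_X]
    rfl
  have hfib₂ : ∀ y ∈ Fib h (fun j => 1 / α j), ∀ (j : Fin k) (s : Fin r → Fin (d + 1)),
      a j * ∏ i, y (j, some i) ^ (s i : ℕ) =
        ∑ l, MvPolynomial.aeval α (F₂ j s l) * ∏ i, y (j, some i) ^ (μ l i : ℕ) := by
    intro y hy j s
    have h1 := fib_rel hrel N hN hN' (α j) (hα0 j) _ (hy j) s
    rw [ha]
    refine h1.trans (Finset.sum_congr rfl fun l _ => ?_)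
    congr 1
    rw [hF₂]
    beta_reduce
    rw [← Polynomial.aeval_algHom_apply, MvPolynomial.aeval_X]
  intro ℓ hℓ hℓH
  -- the determinations of the logarithms
  have hn : ∀ j, ∃ n : ℤ, ℓ j = Complex.log (α j) + n * (2 * Real.pi * Complex.I) := by
    intro j
    refine Complex.exp_eq_exp_iff_exists_int.1 ?_
    rw [hℓ j, Complex.exp_log (hα0 j)]
  choose n hn using hn
  set t : ℂ := 2 * Real.pi * Complex.I with ht
  have htn : ‖t‖ = 2 * Real.pi := by
    rw [ht]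
    simp [abs_of_pos Real.pi_pos]
  have hpi3 : 3 < Real.pi := Real.pi_gt_three
  have hpi4 : Real.pi < 4 := by linarith [Real.pi_lt_four]
  have hnH : ∀ j, |(n j : ℝ)| ≤ H := by
    intro j
    have h1 : (n j : ℂ) * t = ℓ j - Complex.log (α j) := by rw [hn j]; ring
    have h2 : |(n j : ℝ)| * (2 * Real.pi) = ‖ℓ j - Complex.log (α j)‖ := by
      rw [← h1, norm_mul, htn, Complex.norm_intCast]
    have h3 : ‖Complex.log (α j)‖ ≤ Real.log T + 4 := by
      refine (Complex.norm_le_abs_re_add_abs_im _).trans ?_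
      rw [Complex.log_re, Complex.log_im]
      have h4 : |Real.log ‖α j‖| ≤ Real.log T := by
        rw [abs_of_nonneg (Real.log_nonneg (hα1 j))]
        exact Real.log_le_log (by linarith [hα1 j]) (hαT j)
      have h5 := Complex.abs_arg_le_pi (α j)
      linarith
    have h4 : |(n j : ℝ)| * (2 * Real.pi) ≤ H + H := by
      rw [h2]
      refine (norm_sub_le _ _).trans (add_le_add (hℓH j) (h3.trans hHlog))
    have h5 : 0 ≤ |(n j : ℝ)| := abs_nonneg _
    nlinarith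
  set pt₀ : Fin k × Option (Fin r) → ℂ := ptc h α fun j => Complex.log (α j) with hpt₀
  have hpt : shp n t pt₀ = ptc h α ℓ := by
    funext s
    rcases s with ⟨j, i⟩
    cases i with
    | none =>
      show Complex.log (α j) + n j * t = ℓ j
      rw [hn j]
    | some i => rfl
  have hptF : ptc h α ℓ ∈ Fib h fun j => 1 / α j := fun j => hR₁ (α j) (hαR₁ j)
  -- the absence of near relations
  have key : ∀ A : (Fin k → Fin (d + 1) × ι) → MvPolynomial (Fin g ⊕ Fin k) ℤ,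
      (∀ E, (A E).totalDegree ≤ D₃ ∧ len (A E) ≤ Λ * H) → ∀ E₀,
      ‖MvPolynomial.aeval (Sum.elim (Fin.cons t ζ : Fin (g + 1) → ℂ) α) (Sh n A E₀)‖ ≤ H ^ (e₀ * B₀) *
        ‖∑ E, MvPolynomial.aeval (Sum.elim ζ α) (A E) * vE μ (ptc h α ℓ) E‖ := by
    intro A hA E₀
    have h1 := of_not_rel (D := D₃ + k * d) (one_le_pow₀ hH1) hrelT (fun E => Sh n A E) (fun E => by
      obtain ⟨h2, h3⟩ := bound_Sh n H hH1 hnH A D₃ (Λ * H) (by positivity) hA E
      refine ⟨h2, h3.trans ?_⟩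
      calc (nE : ℝ) * (Λ * H * (2 ^ d * H ^ d) ^ k) = (nE * (Λ * (2 ^ d) ^ k)) * (H * H ^ (k * d)) := by
            rw [mul_pow, ← pow_mul, mul_comm d k]
            ring
        _ ≤ H * (H * H ^ (k * d)) := mul_le_mul_of_nonneg_right hHn2 (by positivity)
        _ = H ^ e₀ := by
            rw [he₀]
            ring) E₀
    rw [← pow_mul] at h1
    refine h1.trans (mul_le_mul_of_nonneg_left (le_of_eq ?_) (by positivity))
    rw [← hpt, ← shift μ n A t ζ α pt₀]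
    congr 1
    refine Finset.sum_congr rfl fun E _ => ?_
    rw [hpt₀, hμ, vE_pt]
  refine ⟨fun P hPd hPH hex => ?_, fun P hPd hPH y hy => ?_⟩
  · -- the absolute inequality
    obtain ⟨y, hy, hPy⟩ := hex
    set A₂ := AE P F₂ with hA₂
    have hbA := fun E => hb₂ P H hPH E
    set A : (Fin k → Fin (d + 1) × ι) → MvPolynomial (Fin g ⊕ Fin k) ℤ := fun E =>
      MvPolynomial.rename Sum.inr (A₂ E) with hA
    have hev : ∀ E, MvPolynomial.aeval (Sum.elim ζ α) (A E) = MvPolynomial.aeval α (A₂ E) := by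
      intro E
      rw [hA]
      beta_reduce
      rw [MvPolynomial.aeval_rename]
      rfl
    have hlen : ∀ E, (A E).totalDegree ≤ D₃ ∧ len (A E) ≤ Λ * H := by
      intro E
      refine ⟨(MvPolynomial.totalDegree_rename_le _ _).trans ((hbA E).1.trans (le_max_right _ _)), ?_⟩
      have h1 : len (A E) ≤ len (A₂ E) := by
        rw [hA]
        beta_reduce
        conv_lhs => rw [(A₂ E).as_sum, map_sum]
        refine (len_sum _ _).trans ?_
        rw [len]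
        refine Finset.sum_le_sum fun e _ => ?_
        rw [MvPolynomial.rename_monomial, len_monomial]
      exact h1.trans ((hbA E).2.trans (mul_le_mul_of_nonneg_right (le_max_right _ _) hHp.le))
    have h1 := expand μ F₂ P hPd α a y (hfib₂ y hy)
    have hne : ∃ E, MvPolynomial.aeval (Sum.elim ζ α) (A E) ≠ 0 := by
      by_contra hcon
      push Not at hcon
      have h2 : (∏ j, a j) * MvPolynomial.aeval (Sum.elim y α) P = 0 := by
        rw [h1]
        refine Finset.sum_eq_zero fun E _ => ?_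
        rw [← hev, hcon E, zero_mul]
      exact hPy ((mul_eq_zero.1 h2).resolve_left hpa0)
    obtain ⟨E₀, hE₀, htop⟩ := top_Sh n A t ζ α hne
    have h2 := key A hlen E₀
    rw [htop] at h2
    have h3 := expand μ F₂ P hPd α a _ (hfib₂ _ hptF)
    have h4 : ∑ E, MvPolynomial.aeval (Sum.elim ζ α) (A E) * vE μ (ptc h α ℓ) E =
        (∏ j, a j) * MvPolynomial.aeval (Sum.elim (ptc h α ℓ) α) P := by
      rw [h3]
      exact Finset.sum_congr rfl fun E _ => by rw [hev]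
    rw [h4, norm_mul] at h2
    rw [hev] at h2 hE₀
    have h5 := liou m α T hTR hα (A₂ E₀) (D := D₃) ((hbA E₀).1.trans (le_max_right _ _)) (Λ * H) (by
      calc (1 : ℝ) = 1 * 1 := by norm_num
        _ ≤ Λ * H := mul_le_mul hΛ1 hH1 zero_le_one (by linarith))
      ((hbA E₀).2.trans (mul_le_mul_of_nonneg_right (le_max_right _ _) hHp.le)) hE₀
    have h6 : (Λ * H * (T : ℝ) ^ D₃) ^ m ^ k ≤ H ^ (2 * m ^ k) := by
      rw [pow_mul]
      refine pow_le_pow_left₀ (by positivity) ?_ _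
      calc Λ * H * (T : ℝ) ^ D₃ = (Λ * (T : ℝ) ^ D₃) * H := by ring
        _ ≤ H * H := mul_le_mul_of_nonneg_right hHT hHp.le
        _ = H ^ 2 := by ring
    calc (1 : ℝ) ≤ (Λ * H * (T : ℝ) ^ D₃) ^ m ^ k * ‖MvPolynomial.aeval α (A₂ E₀)‖ := h5
      _ ≤ H ^ (2 * m ^ k) * (H ^ (e₀ * B₀) * (‖∏ j, a j‖ * ‖MvPolynomial.aeval (Sum.elim (ptc h α ℓ) α) P‖)) :=
          mul_le_mul h6 h2 (norm_nonneg _) (by positivity)
      _ ≤ H ^ (2 * m ^ k) * (H ^ (e₀ * B₀) * (H * ‖MvPolynomial.aeval (Sum.elim (ptc h α ℓ) α) P‖)) :=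
          mul_le_mul_of_nonneg_left (mul_le_mul_of_nonneg_left (mul_le_mul_of_nonneg_right hpaH (norm_nonneg _))
            (by positivity)) (by positivity)
      _ = H ^ (2 * m ^ k + e₀ * B₀ + 1) * ‖MvPolynomial.aeval (Sum.elim (ptc h α ℓ) α) P‖ := by
          rw [pow_succ, pow_add]
          ring
      _ ≤ H ^ B * ‖MvPolynomial.aeval (Sum.elim (ptc h α ℓ) α) P‖ :=
          mul_le_mul_of_nonneg_right (pow_le_pow_right₀ hH1 (by omega)) (norm_nonneg _)
  · -- the relative inequality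
    set A := AE P F₁ with hA
    have hlen : ∀ E, (A E).totalDegree ≤ D₃ ∧ len (A E) ≤ Λ * H := by
      intro E
      obtain ⟨h1, h2⟩ := hb₁ P H hPH E
      exact ⟨h1.trans (le_max_left _ _), h2.trans (mul_le_mul_of_nonneg_right (le_max_left _ _) hHp.le)⟩
    have hpt1 := expand μ F₁ P hPd (Sum.elim ζ α) a _ (hfib₁ _ hptF)
    have hy1 := expand μ F₁ P hPd (Sum.elim ζ α) a y (hfib₁ y hy)
    set Y : ℝ := max 1 ‖y‖ with hY
    have hY1 : 1 ≤ Y := le_max_left _ _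
    set y' : Fin k × Option (Fin r) → ℂ := shp (fun j => - n j) t y with hy'
    have hyy : shp n t y' = y := by
      funext s
      rcases s with ⟨j, i⟩
      cases i with
      | none =>
        show (y (j, none) + ((- n j : ℤ) : ℂ) * t) + n j * t = y (j, none)
        push_cast
        ring
      | some i => rfl
    have hy'n : ∀ s, ‖y' s‖ ≤ (H * Y) ^ 2 := by
      intro s
      have hbig : Y + H * 8 ≤ (H * Y) ^ 2 := by
        have h1 : Y ≤ H * Y := le_mul_of_one_le_left (by linarith) hH1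
        have h2 : H ≤ H * Y := le_mul_of_one_le_right hHp.le hY1
        have h3 : 9 ≤ H * Y := hH8.trans h2
        nlinarith
      rcases s with ⟨j, i⟩
      cases i with
      | none =>
        show ‖y (j, none) + ((- n j : ℤ) : ℂ) * t‖ ≤ _
        refine le_trans ?_ hbig
        refine (norm_add_le _ _).trans (add_le_add ((norm_le_pi_norm y _).trans (le_max_right _ _)) ?_)
        rw [norm_mul, htn, Complex.norm_intCast]
        push_cast
        rw [abs_neg]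
        exact mul_le_mul (hnH j) (by linarith) (by positivity) hHp.le
      | some i =>
        show ‖y (j, some i)‖ ≤ _
        refine le_trans ?_ hbig
        have h5 : ‖y (j, some i)‖ ≤ Y := (norm_le_pi_norm y _).trans (le_max_right _ _)
        linarith
    have hHY1 : 1 ≤ H * Y := by
      calc (1 : ℝ) = 1 * 1 := by norm_num
        _ ≤ H * Y := mul_le_mul hH1 hY1 zero_le_one hHp.le
    have h1 : ‖∏ j, a j‖ * ‖MvPolynomial.aeval (Sum.elim y (Sum.elim ζ α)) P‖ ≤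
        nE * ((H ^ (e₀ * B₀) * (‖∏ j, a j‖ * ‖MvPolynomial.aeval (Sum.elim (ptc h α ℓ) (Sum.elim ζ α)) P‖)) *
          ((H * Y) ^ 2) ^ (k * (d * (r + 1)))) := by
      rw [← norm_mul, ← norm_mul, hy1, hpt1]
      have h2 := shift μ n A t ζ α y'
      rw [hyy] at h2
      rw [← h2]
      refine (norm_sum_le _ _).trans ?_
      calc _ ≤ ∑ _E : Fin k → Fin (d + 1) × ι, (H ^ (e₀ * B₀) *
            ‖∑ E, MvPolynomial.aeval (Sum.elim ζ α) (A E) * vE μ (ptc h α ℓ) E‖) * ((H * Y) ^ 2) ^ (k * (d * (r + 1))) := by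
            refine Finset.sum_le_sum fun E _ => ?_
            rw [norm_mul]
            exact mul_le_mul (key A hlen E) (norm_vE μ y' _ (one_le_pow₀ hHY1) hy'n E) (norm_nonneg _) (by positivity)
        _ = _ := by rw [Finset.sum_const, Finset.card_univ, nsmul_eq_mul]
    have h2 : ‖MvPolynomial.aeval (Sum.elim y (Sum.elim ζ α)) P‖ ≤
        nE * ((H ^ (e₀ * B₀) * ‖MvPolynomial.aeval (Sum.elim (ptc h α ℓ) (Sum.elim ζ α)) P‖) *
          ((H * Y) ^ 2) ^ (k * (d * (r + 1)))) := by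
      refine le_of_mul_le_mul_left (h1.trans (le_of_eq ?_)) hpan
      ring
    refine h2.trans ?_
    have h3 : (nE : ℝ) ≤ H * Y := hHn.trans (le_mul_of_one_le_right hHp.le hY1)
    have h4 : H ^ (e₀ * B₀) ≤ (H * Y) ^ (e₀ * B₀) :=
      pow_le_pow_left₀ hHp.le (le_mul_of_one_le_right hHp.le hY1) _
    calc nE * ((H ^ (e₀ * B₀) * ‖MvPolynomial.aeval (Sum.elim (ptc h α ℓ) (Sum.elim ζ α)) P‖) *
          ((H * Y) ^ 2) ^ (k * (d * (r + 1))))
        ≤ (H * Y) * (((H * Y) ^ (e₀ * B₀) * ‖MvPolynomial.aeval (Sum.elim (ptc h α ℓ) (Sum.elim ζ α)) P‖) *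
          ((H * Y) ^ 2) ^ (k * (d * (r + 1)))) := by
          refine mul_le_mul h3 ?_ (by positivity) (by positivity)
          exact mul_le_mul_of_nonneg_right (mul_le_mul_of_nonneg_right h4 (norm_nonneg _)) (by positivity)
      _ = (H * Y) ^ (e₀ * B₀ + 2 * (k * (d * (r + 1))) + 1) *
          ‖MvPolynomial.aeval (Sum.elim (ptc h α ℓ) (Sum.elim ζ α)) P‖ := by
          rw [← pow_mul, pow_succ, pow_add]
          ring
      _ ≤ (H * Y) ^ B * ‖MvPolynomial.aeval (Sum.elim (ptc h α ℓ) (Sum.elim ζ α)) P‖ :=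
          mul_le_mul_of_nonneg_right (pow_le_pow_right₀ hHY1 (by omega)) (norm_nonneg _)

/-- **Near relations between the values of a connected family of G-functions at almost all tuples** -/
theorem torL {h : Fin r → ℚ⟦X⟧} (hfam : Pool.Agent.Q246.AF.FAMN h)
    (hsize : ∃ C : ℝ, ∀ i m, |((coeff m (h i) : ℚ) : ℝ)| ≤ C ^ (m + 1)) (hc : Pool.Agent.Y118.UL.Conn h)
    {I : Finset (Fin r)} (hFree : Free h I) (g k m d : ℕ) (hm : 1 ≤ m) :
    ∃ (B : ℕ) (C c : ℝ), 0 < c ∧ ∀ T : ℕ, 1 ≤ T →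
    (∃ H₀ : ℝ, ∀ H₁ : ℝ, H₀ ≤ H₁ → ∀ ζ : Fin g → ℂ,
      (({x : Fin k → ℂ | (∀ j, SInt m T (x j)) ∧ ¬ ∀ H : ℝ, H₁ ≤ H → H ≤ H₁ ^ Real.exp ((T : ℝ) ^ c) →
        GdL h d B ζ x H}.ncard : ℕ) : ℝ) ≤ C * (T : ℝ) ^ (-c) * (({ξ : ℂ | SInt m T ξ}.ncard : ℕ) : ℝ) ^ k) ∧
    ∀ ζ : Fin g → ℂ, (({x : Fin k → ℂ | (∀ j, SInt m T (x j)) ∧ ¬ ∀ N₀ : ℕ, ∃ N, N₀ ≤ N ∧
      (({j : ℕ | j < N ∧ ¬ ∀ H : ℝ, 2 ^ (2 ^ j) ≤ H → H ≤ 2 ^ (2 ^ (j + 1)) → GdL h d B ζ x H}.ncard : ℕ) : ℝ) ≤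
          (T : ℝ) ^ (-c) * N}.ncard : ℕ) : ℝ) ≤ C * (T : ℝ) ^ (-c) * (({ξ : ℂ | SInt m T ξ}.ncard : ℕ) : ℝ) ^ k := by
  classical
  obtain ⟨ι, c, cc, hc0, hLI, hrel⟩ := basis h d
  obtain ⟨G, hG, hwin⟩ := win_fam hfam hsize hc hFree Complex.log (fun z hz => Complex.exp_log hz)
    (fun l : ι => mb d l) hLI d m
  obtain ⟨D, R₀, hbad⟩ := hbad_fam hsize g k m d hc0 hrel
  exact masterL m hm _ (fun z => (R₀ : ℝ) < ‖z‖) R₀ (fun z hz => not_lt.1 hz) G hG (hwin.mono fun _ _ => trivial) k D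
    (2 + k * d) (by omega) (fun (ζ : Fin g → ℂ) (f : Fin (g + 1) → Fin (D + 1)) =>
      ∏ s, (Fin.cons (2 * Real.pi * Complex.I) ζ : Fin (g + 1) → ℂ) s ^ (f s : ℕ))
    (fun B ζ x H => GdL h d B ζ x H) hbad (fun B ζ x H H' h1 h2 h3 hg => hg.mono h1 h2 h3)

end Pool.Agent.Q246.LN
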