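import Mathlib

/-!
# A basis of the functions of bounded degree
-/

set_option autoImplicit false

open PowerSeries

namespace Pool.Agent.Q246.LN

/-- the exponents in a box -/
noncomputable def mb {r : ℕ} (d : ℕ) (s : Fin r → Fin (d + 1)) : Fin r →₀ ℕ :=
  Finsupp.equivFunOnFinite.symm (fun j => (s j : ℕ))

/-- integral multiples of finitely many rational polynomials -/
lemma int_multiples {κ : Type} [Fintype κ] (p : κ → Polynomial ℚ) : ∃ (N : ℤ) (P : κ → Polynomial ℤ), N ≠ 0 ∧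
    ∀ i, (P i).map (Int.castRingHom ℚ) = Polynomial.C (N : ℚ) * p i := by
  classical
  have h1 : ∀ i, ∃ (b : ℤ) (P : Polynomial ℤ), b ≠ 0 ∧ P.map (Int.castRingHom ℚ) = Polynomial.C (b : ℚ) * p i := by
    intro i
    obtain ⟨b, hb⟩ := IsLocalization.integerNormalization_map_to_map (nonZeroDivisors ℤ) (p i)
    refine ⟨b, IsLocalization.integerNormalization (nonZeroDivisors ℤ) (p i), nonZeroDivisors.coe_ne_zero b, ?_⟩
    have h2 : (algebraMap ℤ ℚ) = Int.castRingHom ℚ := rfl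
    rw [h2] at hb
    rw [hb]
    ext n
    rw [Polynomial.coeff_smul, Polynomial.coeff_C_mul, zsmul_eq_mul]
  choose b P hb hP using h1
  refine ⟨∏ i, b i, fun i => Polynomial.C (∏ j ∈ Finset.univ.erase i, b j) * P i, Finset.prod_ne_zero_iff.2 fun i _ => hb i,
    fun i => ?_⟩
  rw [Polynomial.map_mul, Polynomial.map_C, hP, ← mul_assoc, ← map_mul, ← Finset.prod_erase_mul Finset.univ b (Finset.mem_univ i)]
  congr 2
  push_cast
  simp

theorem basis {r : ℕ} (h : Fin r → ℚ⟦X⟧) (d : ℕ) : ∃ (ι : Finset (Fin r → Fin (d + 1))) (c : Polynomial ℤ)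
    (cc : (Fin r → Fin (d + 1)) → ι → Polynomial ℤ), c ≠ 0 ∧
    (∀ (s : Finset ι) (q : ι → Polynomial ℚ), ∑ l ∈ s, algebraMap _ ℚ⟦X⟧ (q l) *
      MvPolynomial.aeval h (MvPolynomial.monomial (mb d l) (1 : Polynomial ℚ)) = 0 → ∀ l ∈ s, q l = 0) ∧
    ∀ s, MvPolynomial.aeval h (MvPolynomial.C (c.map (Int.castRingHom ℚ)) * MvPolynomial.monomial (mb d s) 1 -
      ∑ i, MvPolynomial.C ((cc s i).map (Int.castRingHom ℚ)) * MvPolynomial.monomial (mb d i) (1 : Polynomial ℚ)) = 0 := by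
  classical
  set Hm : (Fin r → Fin (d + 1)) → ℚ⟦X⟧ := fun l => MvPolynomial.aeval h (MvPolynomial.monomial (mb d l) (1 : Polynomial ℚ))
    with hHm
  set P : Finset (Fin r → Fin (d + 1)) → Prop := fun ι => ∀ q : (Fin r → Fin (d + 1)) → Polynomial ℚ,
    ∑ l ∈ ι, algebraMap (Polynomial ℚ) ℚ⟦X⟧ (q l) * Hm l = 0 → ∀ l ∈ ι, q l = 0 with hP
  obtain ⟨ι, hι, hmax⟩ := Finset.exists_max_image (Finset.univ.filter P) Finset.card
    ⟨∅, Finset.mem_filter.2 ⟨Finset.mem_univ _, fun q _ l hl => absurd hl (Finset.notMem_empty l)⟩⟩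
  have hιP := (Finset.mem_filter.1 hι).2
  have h1 : ∀ s, ∃ (cs : Polynomial ℚ) (qs : (Fin r → Fin (d + 1)) → Polynomial ℚ), cs ≠ 0 ∧
      algebraMap (Polynomial ℚ) ℚ⟦X⟧ cs * Hm s = ∑ l ∈ ι, algebraMap (Polynomial ℚ) ℚ⟦X⟧ (qs l) * Hm l := by
    intro s
    by_cases hs : s ∈ ι
    · refine ⟨1, fun l => if l = s then 1 else 0, one_ne_zero, ?_⟩
      rw [Finset.sum_eq_single s]
      · beta_reduce
        rw [if_pos rfl]
      · intro b _ hb
        beta_reduce
        rw [if_neg hb, map_zero, zero_mul]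
      · intro hs'
        exact absurd hs hs'
    · have hnot : ¬ P (insert s ι) := by
        intro hcon
        have h2 := hmax (insert s ι) (Finset.mem_filter.2 ⟨Finset.mem_univ _, hcon⟩)
        rw [Finset.card_insert_of_notMem hs] at h2
        omega
      simp only [hP] at hnot
      push Not at hnot
      obtain ⟨q, hq, l, hl, hql⟩ := hnot
      rw [Finset.sum_insert hs] at hq
      have hqs : q s ≠ 0 := by
        intro h0
        rw [h0, map_zero, zero_mul, zero_add] at hq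
        have h3 := hιP q hq
        rcases Finset.mem_insert.1 hl with rfl | hl
        · exact hql h0
        · exact hql (h3 l hl)
      refine ⟨q s, fun l => -q l, hqs, ?_⟩
      simp only [map_neg, neg_mul, Finset.sum_neg_distrib]
      linear_combination hq
  choose cs qs hcs hqs using h1
  set c₀ : Polynomial ℚ := ∏ s, cs s with hc₀
  have hc₀0 : c₀ ≠ 0 := Finset.prod_ne_zero_iff.2 fun s _ => hcs s
  set q₀ : (Fin r → Fin (d + 1)) → (Fin r → Fin (d + 1)) → Polynomial ℚ := fun s l =>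
    (∏ s' ∈ Finset.univ.erase s, cs s') * qs s l with hq₀
  have h2 : ∀ s, algebraMap (Polynomial ℚ) ℚ⟦X⟧ c₀ * Hm s = ∑ l ∈ ι, algebraMap (Polynomial ℚ) ℚ⟦X⟧ (q₀ s l) * Hm l := by
    intro s
    rw [hc₀, ← Finset.prod_erase_mul Finset.univ cs (Finset.mem_univ s), map_mul, mul_assoc, hqs, Finset.mul_sum]
    refine Finset.sum_congr rfl fun l _ => ?_
    rw [hq₀, map_mul]
    ring
  obtain ⟨N, Pz, hN, hPz⟩ := int_multiples (fun o : Option ((Fin r → Fin (d + 1)) × (Fin r → Fin (d + 1))) =>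
    o.elim c₀ fun p => q₀ p.1 p.2)
  have hNQ : (N : ℚ) ≠ 0 := by exact_mod_cast hN
  refine ⟨ι, Pz none, fun s i => Pz (some (s, i)), ?_, ?_, ?_⟩
  · intro h0
    have h3 := hPz none
    rw [h0, Polynomial.map_zero] at h3
    have h4 : Polynomial.C (N : ℚ) * c₀ ≠ 0 := mul_ne_zero (Polynomial.C_ne_zero.2 hNQ) hc₀0
    exact h4 h3.symm
  · intro s q hsum l hl
    have h3 := hιP (fun l => if hl : l ∈ ι then (if (⟨l, hl⟩ : ι) ∈ s then q ⟨l, hl⟩ else 0) else 0) (by
      rw [← Finset.sum_coe_sort, ← hsum]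
      rw [← Finset.sum_subset (Finset.subset_univ s) (f := fun l : ι => algebraMap (Polynomial ℚ) ℚ⟦X⟧
        (if hl : (l : Fin r → Fin (d + 1)) ∈ ι then (if (⟨l, hl⟩ : ι) ∈ s then q ⟨l, hl⟩ else 0) else 0) * Hm l)]
      · refine Finset.sum_congr rfl fun l hl => ?_
        rw [dif_pos l.2, if_pos (by simpa using hl)]
      · intro l _ hl
        rw [dif_pos l.2, if_neg (by simpa using hl), map_zero, zero_mul]) l l.2
    simp only [dif_pos l.2] at h3
    rw [if_pos (by simpa using hl)] at h3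
    exact h3
  · intro s
    rw [map_sub, map_sum, map_mul, MvPolynomial.aeval_C]
    have h3 : ∀ i : ι, MvPolynomial.aeval h (MvPolynomial.C ((Pz (some (s, (i : Fin r → Fin (d + 1))))).map (Int.castRingHom ℚ)) *
        MvPolynomial.monomial (mb d i) (1 : Polynomial ℚ)) =
        algebraMap (Polynomial ℚ) ℚ⟦X⟧ (Polynomial.C (N : ℚ)) * (algebraMap (Polynomial ℚ) ℚ⟦X⟧ (q₀ s i) * Hm i) := by
      intro i
      rw [map_mul, MvPolynomial.aeval_C, hPz]
      show algebraMap (Polynomial ℚ) ℚ⟦X⟧ (Polynomial.C (N : ℚ) * q₀ s i) * _ = _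
      rw [map_mul]
      ring
    simp only [h3]
    rw [← Finset.mul_sum, hPz]
    show algebraMap (Polynomial ℚ) ℚ⟦X⟧ (Polynomial.C (N : ℚ) * c₀) * Hm s - _ = 0
    rw [map_mul, mul_assoc, h2, ← Finset.sum_coe_sort ι]
    ring

end Pool.Agent.Q246.LN
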