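import Pool.Agent.Q246.LN.Inp
import Pool.Agent.Q246.LN.Basis

/-!
# The link for logarithms and values of G-functions
-/

set_option autoImplicit false

open PowerSeries Module

namespace Pool.Agent.Q246.LN

open Pool.Agent.Y916.Af Pool.Agent.Y916.Al Pool.Agent.Q246.NR Pool.Agent.Q246.NR2

variable {r : ℕ}

/-- the values at `z`: powers of the logarithm and monomials in the functions -/
noncomputable def Ym {ι : Type} (h : Fin r → ℚ⟦X⟧) (l : ℂ → ℂ) (mm : ι → Fin r →₀ ℕ) (δ : ℕ) (z : ℂ)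
    (p : Fin (δ + 1) × ι) : ℂ :=
  l z ^ (p.1 : ℕ) * (mm p.2).prod fun j e => evc (1 / z) (h j) ^ e

/-- triangular matrices -/
lemma tri_inj {ι : Type} [Fintype ι] [DecidableEq ι] (δ : ℕ) (t : ℂ) (A : Fin (δ + 1) × ι → ℂ)
    (h : ∀ p : Fin (δ + 1) × ι, ∑ q : Fin (δ + 1) × ι, A q *
      (if q.2 = p.2 then (((q.1 : ℕ).choose p.1 : ℕ) : ℂ) * t ^ ((q.1 : ℕ) - p.1) else 0) = 0) : A = 0 := by
  have h1 : ∀ (i : ι) (n : ℕ) (a : Fin (δ + 1)), δ - (a : ℕ) = n → A (a, i) = 0 := by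
    intro i n
    induction n using Nat.strong_induction_on with
    | _ n ih =>
      intro a ha
      have h2 := h (a, i)
      rw [Fintype.sum_prod_type, Finset.sum_comm, Finset.sum_eq_single i] at h2
      · rw [Finset.sum_eq_single a] at h2
        · simpa using h2
        · intro b _ hb
          by_cases hlt : (b : ℕ) < a
          · simp [Nat.choose_eq_zero_of_lt hlt]
          · have h3 : (b : ℕ) ≠ a := fun h3 => hb (Fin.ext h3)
            have := b.2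
            have := a.2
            rw [ih (δ - b) (by omega) b rfl, zero_mul]
        · intro h3
          exact absurd (Finset.mem_univ _) h3
      · intro j _ hj
        refine Finset.sum_eq_zero fun b _ => ?_
        simp [hj]
      · intro h3
        exact absurd (Finset.mem_univ _) h3
  funext p
  exact h1 p.2 _ p.1 rfl

lemma anti_sum {δ n : ℕ} (hn : n ≤ δ) (f : ℕ → ℕ → ℂ) :
    ∑ q : Fin (δ + 1) × Fin (δ + 1), (if (q.1 : ℕ) + q.2 = n then f q.1 q.2 else 0) =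
      ∑ p ∈ Finset.HasAntidiagonal.antidiagonal n, f p.1 p.2 := by
  rw [← Finset.sum_filter]
  refine Finset.sum_nbij (fun q => ((q.1 : ℕ), (q.2 : ℕ))) ?_ ?_ ?_ ?_
  · intro q hq
    rw [Finset.HasAntidiagonal.mem_antidiagonal]
    exact (Finset.mem_filter.1 hq).2
  · intro q _ q' _ h
    simp only [Prod.mk.injEq] at h
    exact Prod.ext (Fin.ext h.1) (Fin.ext h.2)
  · intro p hp
    rw [Finset.mem_coe, Finset.HasAntidiagonal.mem_antidiagonal] at hp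
    refine ⟨(⟨p.1, by omega⟩, ⟨p.2, by omega⟩), ?_, rfl⟩
    rw [Finset.mem_coe, Finset.mem_filter]
    exact ⟨Finset.mem_univ _, hp⟩
  · intro q _
    rfl

theorem link_fam {ι : Type} [Fintype ι] (h : Fin r → ℚ⟦X⟧) (l : ℂ → ℂ) (hl : ∀ z, z ≠ 0 → Complex.exp (l z) = z)
    (mm : ι → Fin r →₀ ℕ) (δ G m : ℕ) : LinkL (vm G h mm δ) (Ym h l mm δ) (fun _ => True) (-(G : ℤ))
      (Fin (δ + 1) × Fin (δ + 1)) m (G + 4) := by
  classical
  intro K ξ _ _
  refine ⟨fun q => Complex.log (ξ : ℂ) ^ (q.1 : ℕ) * (2 * Real.pi * Complex.I) ^ (q.2 : ℕ), fun g hg hgξ _ => ?_⟩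
  have hz : (ξ : ℂ) + ((-(G : ℤ) : ℤ) : ℂ) * g = (ξ : ℂ) - ((G * g : ℕ) : ℂ) := by push_cast; ring
  rw [hz]
  have hbig : ((G * g : ℕ) : ℝ) + 9 ≤ ‖(ξ : ℂ)‖ := by
    refine le_trans ?_ hgξ
    have h3 : G * g + 9 ≤ (g + 2) ^ (G + 4) := by
      have h1 : G + 1 ≤ 3 ^ G := by
        have : G < 3 ^ G := Nat.lt_pow_self (by norm_num)
        omega
      have h3 : 3 ^ G ≤ (g + 2) ^ G := Nat.pow_le_pow_left (by omega) _
      have h4 : (G + 1) * (g + 2) ^ 4 ≤ (g + 2) ^ G * (g + 2) ^ 4 := Nat.mul_le_mul_right _ (h1.trans h3)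
      have h5 : (g + 2) ^ (G + 4) = (g + 2) ^ G * (g + 2) ^ 4 := by ring
      rw [h5]
      refine le_trans ?_ h4
      have h6 : (g + 2) * 27 ≤ (g + 2) ^ 4 := by
        have : 3 ^ 3 ≤ (g + 2) ^ 3 := Nat.pow_le_pow_left (by omega) _
        calc (g + 2) * 27 ≤ (g + 2) * (g + 2) ^ 3 := Nat.mul_le_mul_left _ this
          _ = (g + 2) ^ 4 := by ring
      refine le_trans ?_ (Nat.mul_le_mul_left _ h6)
      nlinarith [Nat.zero_le (G * g)]
    exact_mod_cast h3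
  have hGg0 : (0 : ℝ) ≤ ((G * g : ℕ) : ℝ) := Nat.cast_nonneg _
  have hξp : 0 < ‖(ξ : ℂ)‖ := by linarith
  have hξ0 : (ξ : ℂ) ≠ 0 := norm_pos_iff.1 hξp
  have hz0 : (ξ : ℂ) - ((G * g : ℕ) : ℂ) ≠ 0 := by
    intro h0
    have h1 : (ξ : ℂ) = ((G * g : ℕ) : ℂ) := by linear_combination h0
    rw [h1, Complex.norm_natCast] at hbig
    linarith
  have hq0 : 1 - ((G * g : ℕ) : ℂ) / ξ ≠ 0 := by
    intro h0
    apply hz0
    field_simp at h0
    rw [h0, mul_zero]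
  obtain ⟨k, hk⟩ := log_mul_mem hξ0 hq0 (l := l ((ξ : ℂ) - ((G * g : ℕ) : ℂ))) (by
    rw [hl _ hz0]
    field_simp)
  set a : ℂ := Complex.log (ξ : ℂ) with ha
  set b : ℂ := 2 * Real.pi * Complex.I with hb
  set t : ℂ := a + k * b with ht
  have hU : ∀ (e' e : Fin (δ + 1) × ι), ∑ q : Fin (δ + 1) × Fin (δ + 1),
      (((if (q.1 : ℕ) + q.2 = (e'.1 : ℕ) - e.1 then (if e'.2 = e.2 then
        ((e'.1 : ℕ).choose e.1 : ℤ) * (((e'.1 : ℕ) - e.1).choose q.1 : ℤ) * k ^ (q.2 : ℕ) else 0) else 0 : ℤ)) : ℂ) *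
        (a ^ (q.1 : ℕ) * b ^ (q.2 : ℕ)) =
      if e'.2 = e.2 then (((e'.1 : ℕ).choose e.1 : ℕ) : ℂ) * t ^ ((e'.1 : ℕ) - e.1) else 0 := by
    intro e' e
    by_cases h2 : e'.2 = e.2
    · simp only [if_pos h2]
      have h3 : ∀ q : Fin (δ + 1) × Fin (δ + 1),
          (((if (q.1 : ℕ) + q.2 = (e'.1 : ℕ) - e.1 then
            ((e'.1 : ℕ).choose e.1 : ℤ) * (((e'.1 : ℕ) - e.1).choose q.1 : ℤ) * k ^ (q.2 : ℕ) else 0 : ℤ)) : ℂ) *
            (a ^ (q.1 : ℕ) * b ^ (q.2 : ℕ)) = if (q.1 : ℕ) + q.2 = (e'.1 : ℕ) - e.1 then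
            (fun q₁ q₂ : ℕ => (((e'.1 : ℕ).choose e.1 : ℕ) : ℂ) * ((((e'.1 : ℕ) - e.1).choose q₁ : ℕ) : ℂ) *
              (a ^ q₁ * ((k : ℂ) * b) ^ q₂)) q.1 q.2 else 0 := by
        intro q
        split_ifs
        · push_cast
          rw [mul_pow]
          ring
        · simp
      simp only [h3]
      rw [anti_sum (by have := e'.1.2; omega) (fun q₁ q₂ : ℕ => (((e'.1 : ℕ).choose e.1 : ℕ) : ℂ) *
        ((((e'.1 : ℕ) - e.1).choose q₁ : ℕ) : ℂ) * (a ^ q₁ * ((k : ℂ) * b) ^ q₂)), ht,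
        (Commute.all a ((k : ℂ) * b)).add_pow', Finset.mul_sum]
      refine Finset.sum_congr rfl fun p _ => ?_
      rw [nsmul_eq_mul, mul_assoc]
    · simp only [if_neg h2]
      refine Finset.sum_eq_zero fun q _ => ?_
      split_ifs <;> simp
  refine ⟨fun e' e q => if (q.1 : ℕ) + q.2 = (e'.1 : ℕ) - e.1 then (if e'.2 = e.2 then
        ((e'.1 : ℕ).choose e.1 : ℤ) * (((e'.1 : ℕ) - e.1).choose q.1 : ℤ) * k ^ (q.2 : ℕ) else 0) else 0, ?_, ?_⟩
  · intro A hA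
    refine tri_inj δ t A fun p => ?_
    have h3 := hA p
    simp only [hU] at h3
    exact h3
  · intro e'
    simp only [hU]
    have h3 : l ((ξ : ℂ) - ((G * g : ℕ) : ℂ)) = t + Complex.log (1 - ((G * g : ℕ) : ℂ) / ξ) := by
      rw [ht]
      linear_combination hk
    rw [Ym, h3, Fintype.sum_prod_type, Finset.sum_comm, Finset.sum_eq_single e'.2]
    · simp only [if_true]
      rw [add_comm t, add_pow, Finset.sum_mul]
      have h4 : ∑ x : Fin (δ + 1), ((((e'.1 : ℕ).choose x : ℕ) : ℂ) * t ^ ((e'.1 : ℕ) - x)) *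
          vm G h mm δ (ξ : ℂ) g (x, e'.2) = ∑ x ∈ Finset.range (δ + 1), ((((e'.1 : ℕ).choose x : ℕ) : ℂ) * t ^ ((e'.1 : ℕ) - x)) *
          (vc G h (ξ : ℂ) g none ^ x * (mm e'.2).prod fun j e => vc G h (ξ : ℂ) g (some j) ^ e) := by
        rw [← Fin.sum_univ_eq_sum_range (fun x => ((((e'.1 : ℕ).choose x : ℕ) : ℂ) * t ^ ((e'.1 : ℕ) - x)) *
          (vc G h (ξ : ℂ) g none ^ x * (mm e'.2).prod fun j e => vc G h (ξ : ℂ) g (some j) ^ e)) (δ + 1)]
        rfl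
      rw [h4]
      have h5 : Finset.range ((e'.1 : ℕ) + 1) ⊆ Finset.range (δ + 1) :=
        Finset.range_subset_range.2 (by have := e'.1.2; omega)
      rw [← Finset.sum_subset h5]
      · refine Finset.sum_congr rfl fun x _ => ?_
        show Complex.log (1 - ((G * g : ℕ) : ℂ) / ξ) ^ x * t ^ ((e'.1 : ℕ) - x) * (((e'.1 : ℕ).choose x : ℕ) : ℂ) *
          ((mm e'.2).prod fun j e => evc (1 / ((ξ : ℂ) - ((G * g : ℕ) : ℂ))) (h j) ^ e) =
          (((e'.1 : ℕ).choose x : ℕ) : ℂ) * t ^ ((e'.1 : ℕ) - x) * (Complex.log (1 - ((G * g : ℕ) : ℂ) / ξ) ^ x *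
          ((mm e'.2).prod fun j e => evc (1 / ((ξ : ℂ) - ((G * g : ℕ) : ℂ))) (h j) ^ e))
        ring
      · intro x _ hx
        rw [Finset.mem_range, not_lt] at hx
        rw [Nat.choose_eq_zero_of_lt (by omega)]
        simp
    · intro i _ hi
      refine Finset.sum_eq_zero fun x _ => ?_
      rw [if_neg (Ne.symm hi), zero_mul]
    · intro h3
      exact absurd (Finset.mem_univ _) h3

/-- few near relations in windows -/
theorem win_fam {h : Fin r → ℚ⟦X⟧} (hfam : Pool.Agent.Q246.AF.FAMN h)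
    (hsize : ∃ C : ℝ, ∀ i m, |((coeff m (h i) : ℚ) : ℝ)| ≤ C ^ (m + 1)) (hc : Pool.Agent.Y118.UL.Conn h) {I : Finset (Fin r)}
    (hFree : Free h I) (l : ℂ → ℂ) (hl : ∀ z, z ≠ 0 → Complex.exp (l z) = z) {ι : Type} [Fintype ι]
    (mm : ι → Fin r →₀ ℕ) (hQ : ∀ (s : Finset ι) (c : ι → Polynomial ℚ), ∑ l ∈ s, algebraMap _ ℚ⟦X⟧ (c l) *
        MvPolynomial.aeval h (MvPolynomial.monomial (mm l) (1 : Polynomial ℚ)) = 0 → ∀ l ∈ s, c l = 0) (δ m : ℕ) :
    ∃ G : ℤ, G ≠ 0 ∧ WinL (Ym h l mm δ) (fun _ => True) G m := by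
  obtain ⟨G0, hG0, hG⟩ := nrsL hfam hsize hc
  refine ⟨-(G0 : ℤ), neg_ne_zero.2 (by exact_mod_cast (by omega : G0 ≠ 0)), ?_⟩
  exact winL (hG G0 le_rfl I hFree ι mm hQ δ) (link_fam h l hl mm δ G0 m)

end Pool.Agent.Q246.LN
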