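import Pool.Agent.Q246.NR.Len
import Pool.Agent.Y916.Sl.Deg

/-!
# The inequality of Liouville for polynomials in algebraic integers of bounded degree
-/

set_option autoImplicit false

open Module

namespace Pool.Agent.Q246.LN

open Pool.Agent.Q246.NR Pool.Agent.Y916.Sl Pool.Agent.Y916.Al

/-- the trivial upper bound -/
lemma norm_aeval_le {σ : Type} [Fintype σ] (P : MvPolynomial σ ℤ) {D : ℕ} (hD : P.totalDegree ≤ D) (y : σ → ℂ)
    (T : ℝ) (hT : 1 ≤ T) (hy : ∀ s, ‖y s‖ ≤ T) :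
    ‖MvPolynomial.aeval y P‖ ≤ len P * T ^ D := by
  rw [MvPolynomial.aeval_def, MvPolynomial.eval₂_eq', len, Finset.sum_mul]
  refine (norm_sum_le _ _).trans (Finset.sum_le_sum fun e he => ?_)
  rw [norm_mul, norm_prod]
  have h1 : ‖(algebraMap ℤ ℂ) (P.coeff e)‖ = ‖P.coeff e‖ := by
    rw [eq_intCast, Complex.norm_intCast, Int.norm_eq_abs]
  rw [h1]
  refine mul_le_mul_of_nonneg_left ?_ (norm_nonneg _)
  have h2 : (e.sum fun _ k => k) ≤ D := (MvPolynomial.le_totalDegree he).trans hD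
  rw [Finsupp.sum_fintype _ _ (fun _ => rfl)] at h2
  calc ∏ s, ‖y s ^ e s‖ ≤ ∏ s, T ^ e s := by
        refine Finset.prod_le_prod (fun _ _ => norm_nonneg _) fun s _ => ?_
        rw [norm_pow]
        exact pow_le_pow_left₀ (norm_nonneg _) (hy s) _
    _ = T ^ ∑ s, e s := by rw [Finset.prod_pow_eq_pow_sum]
    _ ≤ T ^ D := pow_le_pow_right₀ hT h2

/-- the compositum of `k` fields of degree at most `m` -/
lemma comp_deg (m : ℕ) {k : ℕ} (x : Fin k → ℂ) (T : ℝ) (hx : ∀ j, AInt m T (x j)) :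
    ∃ K : IntermediateField ℚ ℂ, FiniteDimensional ℚ K ∧ finrank ℚ K ≤ m ^ k ∧ ∀ j, x j ∈ K := by
  classical
  have h1 : ∀ j, FiniteDimensional ℚ (IntermediateField.adjoin ℚ {x j}) ∧
      finrank ℚ (IntermediateField.adjoin ℚ {x j}) ≤ m := by
    intro j
    obtain ⟨f, h1, h2, h3, h4⟩ := hx j
    have hint : IsIntegral ℤ (x j) := ⟨f, h1, h3⟩
    have hintQ : IsIntegral ℚ (x j) := hint.tower_top
    have hfQ : Polynomial.aeval (x j) (f.map (Int.castRingHom ℚ)) = 0 :=
      (Polynomial.aeval_map_algebraMap ℚ (x j) f).trans h3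
    refine ⟨IntermediateField.adjoin.finiteDimensional hintQ, ?_⟩
    rw [IntermediateField.adjoin.finrank hintQ]
    refine (Polynomial.natDegree_le_of_dvd (minpoly.dvd ℚ (x j) hfQ) (h1.map _).ne_zero).trans ?_
    rw [h1.natDegree_map, h2]
  have h2 : ∀ s : Finset (Fin k), FiniteDimensional ℚ (s.sup fun j => IntermediateField.adjoin ℚ {x j} : IntermediateField ℚ ℂ) ∧
      finrank ℚ (s.sup fun j => IntermediateField.adjoin ℚ {x j} : IntermediateField ℚ ℂ) ≤ m ^ s.card := by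
    intro s
    induction s using Finset.induction_on with
    | empty =>
      rw [Finset.sup_empty, Finset.card_empty, pow_zero]
      exact ⟨inferInstance, by rw [IntermediateField.finrank_bot]⟩
    | insert a s ha ih =>
      rw [Finset.sup_insert, Finset.card_insert_of_notMem ha]
      haveI := ih.1
      haveI := (h1 a).1
      refine ⟨IntermediateField.finiteDimensional_sup _ _, (IntermediateField.finrank_sup_le _ _).trans ?_⟩
      rw [pow_succ, mul_comm]
      exact Nat.mul_le_mul ih.2 (h1 a).2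
  refine ⟨_, (h2 Finset.univ).1, (h2 Finset.univ).2.trans (by rw [Finset.card_univ, Fintype.card_fin]), fun j => ?_⟩
  exact (Finset.le_sup (f := fun j => IntermediateField.adjoin ℚ {x j}) (Finset.mem_univ j))
    (IntermediateField.mem_adjoin_simple_self ℚ (x j))

/-- the inequality of Liouville -/
theorem liou (m : ℕ) {k : ℕ} (x : Fin k → ℂ) (T : ℝ) (hT : 1 ≤ T) (hx : ∀ j, AInt m T (x j))
    (P : MvPolynomial (Fin k) ℤ) {D : ℕ} (hD : P.totalDegree ≤ D) (Λ : ℝ) (hΛ1 : 1 ≤ Λ) (hΛ : len P ≤ Λ)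
    (h0 : MvPolynomial.aeval x P ≠ 0) :
    1 ≤ (Λ * T ^ D) ^ m ^ k * ‖MvPolynomial.aeval x P‖ := by
  classical
  obtain ⟨K, hfd, hdeg, hmem⟩ := comp_deg m x T hx
  haveI : NumberField K := { to_charZero := inferInstance, to_finiteDimensional := hfd }
  have hint : ∀ j, IsIntegral ℤ (⟨x j, hmem j⟩ : K) := by
    intro j
    obtain ⟨f, h1, h2, h3, h4⟩ := hx j
    refine ⟨f, h1, ?_⟩
    apply (algebraMap K ℂ).injective
    have h5 := Polynomial.aeval_algebraMap_apply ℂ (⟨x j, hmem j⟩ : K) f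
    rw [map_zero]
    have h6 : (algebraMap K ℂ) (Polynomial.eval₂ (algebraMap ℤ K) (⟨x j, hmem j⟩ : K) f) =
        Polynomial.aeval (x j) f := h5.symm
    rw [h6, h3]
  set x' : Fin k → NumberField.RingOfIntegers K := fun j => ⟨⟨x j, hmem j⟩, hint j⟩ with hx'
  set γ : NumberField.RingOfIntegers K := MvPolynomial.aeval x' P with hγ
  have hval : ∀ σ : K →+* ℂ, σ (γ : K) = MvPolynomial.aeval (fun j => σ (x' j : K)) P := by
    intro σ
    have h1 : ((σ.comp (algebraMap (NumberField.RingOfIntegers K) K)) γ) = σ (γ : K) := rfl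
    rw [← h1, hγ, MvPolynomial.aeval_def, MvPolynomial.hom_eval₂, MvPolynomial.aeval_def]
    congr 1
    exact RingHom.ext_int _ _
  have hγ0 : γ ≠ 0 := by
    intro h
    apply h0
    have h1 := hval (algebraMap K ℂ)
    rw [h] at h1
    have h2 : (algebraMap K ℂ) (((0 : NumberField.RingOfIntegers K) : K)) = 0 := by simp
    rw [h2] at h1
    exact h1.symm
  have hconj : ∀ (σ : K →+* ℂ) j, ‖σ (x' j : K)‖ ≤ T := by
    intro σ j
    obtain ⟨f, h1, h2, h3, h4⟩ := hx j
    apply h4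
    have h5 : Polynomial.aeval (⟨x j, hmem j⟩ : K) f = 0 := by
      apply (algebraMap K ℂ).injective
      rw [← Polynomial.aeval_algebraMap_apply, map_zero]
      exact h3
    have h6 := Polynomial.hom_eval₂ f (algebraMap ℤ K) σ (⟨x j, hmem j⟩ : K)
    rw [← Polynomial.aeval_def, h5, map_zero] at h6
    rw [Polynomial.aeval_def, h6]
    congr 1
    exact RingHom.ext_int _ _
  have hb : NumberField.house (γ : K) ≤ Λ * T ^ D := by
    have h7 : 0 ≤ Λ * T ^ D := by positivity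
    refine (pi_norm_le_iff_of_nonneg h7).2 fun σ => ?_
    show ‖σ (γ : K)‖ ≤ _
    rw [hval σ]
    exact (norm_aeval_le P hD _ T hT (hconj σ)).trans (mul_le_mul_of_nonneg_right hΛ (by positivity))
  have h1 : 1 ≤ ‖Algebra.norm ℚ (γ : K)‖ := by
    rw [← Algebra.coe_norm_int]
    have h : Algebra.norm ℤ γ ≠ 0 := by rwa [Algebra.norm_ne_zero_iff]
    have h2 : (1 : ℤ) ≤ |Algebra.norm ℤ γ| := Int.one_le_abs h
    rw [← Rat.norm_cast_real, Rat.cast_intCast, Real.norm_eq_abs]
    exact_mod_cast h2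
  have h2 := h1.trans (NumberField.norm_norm_le_norm_mul_house_pow (γ : K) (algebraMap K ℂ))
  have hΛT : 1 ≤ Λ * T ^ D := by
    have : 1 ≤ T ^ D := one_le_pow₀ hT
    nlinarith
  have h3 : (algebraMap K ℂ) (γ : K) = MvPolynomial.aeval x P := hval (algebraMap K ℂ)
  rw [h3] at h2
  refine h2.trans ?_
  rw [mul_comm]
  refine mul_le_mul_of_nonneg_right ?_ (norm_nonneg _)
  calc NumberField.house (γ : K) ^ (finrank ℚ K - 1) ≤ (Λ * T ^ D) ^ (finrank ℚ K - 1) :=
        pow_le_pow_left₀ (NumberField.house_nonneg _) hb _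
    _ ≤ _ := pow_le_pow_right₀ hΛT ((Nat.sub_le _ _).trans hdeg)

end Pool.Agent.Q246.LN
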