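import Pool.Agent.Q246.LN.Fin
import Pool.Agent.Q246.LN.Link
import Pool.Agent.Q246.LN.Exp
import Pool.Agent.Q246.LN.Liou
import Pool.Agent.Y916.Af.Fin2

/-!
# Near relations between values of families of G-functions, for almost all tuples
-/

set_option autoImplicit false

open PowerSeries Module

namespace Pool.Agent.Q246.LN

open Pool.Agent.Y916.Af Pool.Agent.Y916.Al Pool.Agent.Y916.Sl Pool.Agent.Q246.NR Pool.Agent.Q246.NR2

variable {r : ℕ}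

/-- near relations at the point are near relations on the whole product of the fibres, and there is no near relation with
algebraic coefficients which does not vanish on the product of the fibres -/
def GdL {k g : ℕ} (h : Fin r → ℚ⟦X⟧) (d B : ℕ) (ζ : Fin g → ℂ) (α : Fin k → ℂ) (H : ℝ) : Prop :=
  ∀ ℓ : Fin k → ℂ, (∀ j, Complex.exp (ℓ j) = α j) → (∀ j, ‖ℓ j‖ ≤ H) →
    (∀ P : MvPolynomial ((Fin k × Option (Fin r)) ⊕ Fin k) ℤ, P.totalDegree ≤ d → (∀ e, |((P.coeff e : ℤ) : ℝ)| ≤ H) →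
      (∃ y ∈ Fib h fun j => 1 / α j, MvPolynomial.aeval (Sum.elim y α) P ≠ 0) →
      1 ≤ H ^ B * ‖MvPolynomial.aeval (Sum.elim (ptc h α ℓ) α) P‖) ∧
    ∀ P : MvPolynomial ((Fin k × Option (Fin r)) ⊕ (Fin g ⊕ Fin k)) ℤ, P.totalDegree ≤ d →
      (∀ e, |((P.coeff e : ℤ) : ℝ)| ≤ H) → ∀ y ∈ Fib h fun j => 1 / α j,
      ‖MvPolynomial.aeval (Sum.elim y (Sum.elim ζ α)) P‖ ≤
        (H * max 1 ‖y‖) ^ B * ‖MvPolynomial.aeval (Sum.elim (ptc h α ℓ) (Sum.elim ζ α)) P‖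

lemma GdL.mono {k g : ℕ} {h : Fin r → ℚ⟦X⟧} {d B : ℕ} {ζ : Fin g → ℂ} {α : Fin k → ℂ} {H H' : ℝ} (h1 : 1 ≤ H)
    (h2 : H ≤ H') (h3 : H' ≤ H ^ 2) (hg : GdL h d B ζ α H') : GdL h d (2 * B) ζ α H := by
  intro ℓ hℓ hℓH
  obtain ⟨g1, g2⟩ := hg ℓ hℓ fun j => (hℓH j).trans h2
  refine ⟨fun P hd hH hy => ?_, fun P hd hH y hy => ?_⟩
  · refine (g1 P hd (fun e => (hH e).trans h2) hy).trans ?_
    refine mul_le_mul_of_nonneg_right ?_ (norm_nonneg _)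
    rw [pow_mul]
    exact pow_le_pow_left₀ (by linarith) h3 _
  · refine (g2 P hd (fun e => (hH e).trans h2) y hy).trans ?_
    refine mul_le_mul_of_nonneg_right ?_ (norm_nonneg _)
    rw [pow_mul]
    have h4 : 1 ≤ max 1 ‖y‖ := le_max_left _ _
    refine pow_le_pow_left₀ (mul_nonneg (by linarith) (by positivity)) ?_ _
    calc H' * max 1 ‖y‖ ≤ H ^ 2 * max 1 ‖y‖ := mul_le_mul_of_nonneg_right h3 (by positivity)
      _ ≤ H ^ 2 * max 1 ‖y‖ ^ 2 := mul_le_mul_of_nonneg_left (le_self_pow₀ h4 (by norm_num)) (by positivity)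
      _ = _ := by ring

/-- no near relations, for polynomials -/
lemma of_not_rel {E : Type} [Fintype E] {g k D : ℕ} {Y : ℂ → E → ℂ} {ζ : Fin g → ℂ} {α : Fin k → ℂ} {H : ℝ} {B₀ : ℕ} (hH : 1 ≤ H)
    (hn : ¬ RelT D (fun f : Fin g → Fin (D + 1) => ∏ s, ζ s ^ (f s : ℕ)) (fun _ => Y) α H (H ^ B₀)⁻¹)
    (A : (Fin k → E) → MvPolynomial (Fin g ⊕ Fin k) ℤ) (hA : ∀ e, (A e).totalDegree ≤ D ∧ len (A e) ≤ H) (e₀ : Fin k → E) :
    ‖MvPolynomial.aeval (Sum.elim ζ α) (A e₀)‖ ≤ H ^ B₀ *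
      ‖∑ e, MvPolynomial.aeval (Sum.elim ζ α) (A e) * ∏ j, Y (α j) (e j)‖ := by
  classical
  by_contra hcon
  rw [not_le] at hcon
  apply hn
  have hHB : 0 < H ^ B₀ := by positivity
  have h1 : ∀ e, ∑ p : (Fin g → Fin (D + 1)) × (Fin k → Fin (D + 1)), ((∏ s, ζ s ^ (p.1 s : ℕ)) *
      ∏ j, α j ^ (p.2 j : ℕ)) * (((A e).coeff (tB (Sum.elim p.1 p.2)) : ℤ) : ℂ) = MvPolynomial.aeval (Sum.elim ζ α) (A e) := by
    intro e
    rw [eval_two (A e) (hA e).1, Fintype.sum_prod_type]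
    refine Finset.sum_congr rfl fun f _ => Finset.sum_congr rfl fun w _ => ?_
    ring
  refine ⟨fun e p => (A e).coeff (tB (Sum.elim p.1 p.2)), fun e p => ?_, e₀, ?_, ?_⟩
  · have h2 := norm_coeff_le_len (A e) (tB (Sum.elim p.1 p.2))
    rw [Int.norm_eq_abs] at h2
    exact h2.trans (hA e).2
  · rw [h1]
    intro h0
    rw [h0, norm_zero] at hcon
    have : 0 ≤ H ^ B₀ * ‖∑ e, MvPolynomial.aeval (Sum.elim ζ α) (A e) * ∏ j, Y (α j) (e j)‖ := by positivity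
    linarith
  · simp only [h1]
    rw [inv_mul_eq_div, le_div_iff₀ hHB, mul_comm]
    exact hcon.le

/-- the reflected polynomial -/
lemma aeval_refl (p : Polynomial ℤ) (N : ℕ) (hN : p.natDegree ≤ N) (z : ℂ) (hz : z ≠ 0) :
    Polynomial.aeval z (Polynomial.reflect N p) = z ^ N * Polynomial.aeval (1 / z) p := by
  have hz' : z⁻¹ ≠ 0 := inv_ne_zero hz
  letI : Invertible (z⁻¹) := invertibleOfNonzero hz'
  have h1 := Polynomial.eval₂_reflect_mul_pow (algebraMap ℤ ℂ) (z⁻¹) N p hN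
  have h2 : ⅟(z⁻¹) = z := by rw [invOf_eq_inv, inv_inv]
  rw [h2] at h1
  rw [Polynomial.aeval_def, Polynomial.aeval_def, one_div, ← h1, mul_comm (z ^ N), mul_assoc, ← mul_pow,
    inv_mul_cancel₀ hz, one_pow, mul_one]

lemma ev_mono (φ : Polynomial ℚ →+* ℂ) (y : Fin r → ℂ) {d : ℕ} (s : Fin r → Fin (d + 1)) (p : Polynomial ℚ) :
    MvPolynomial.eval₂ φ y (MvPolynomial.C p * MvPolynomial.monomial (mb d s) 1) = φ p * ∏ i, y i ^ (s i : ℕ) := by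
  rw [MvPolynomial.eval₂_mul, MvPolynomial.eval₂_C, MvPolynomial.eval₂_monomial, map_one, one_mul,
    Finsupp.prod_fintype _ _ (fun _ => pow_zero _)]
  rfl

/-- the functional relations on the fibres -/
lemma fib_rel {h : Fin r → ℚ⟦X⟧} {d : ℕ} {ι : Finset (Fin r → Fin (d + 1))} {c : Polynomial ℤ}
    {cc : (Fin r → Fin (d + 1)) → ι → Polynomial ℤ}
    (hrel : ∀ s, MvPolynomial.aeval h (MvPolynomial.C (c.map (Int.castRingHom ℚ)) * MvPolynomial.monomial (mb d s) 1 -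
      ∑ i, MvPolynomial.C ((cc s i).map (Int.castRingHom ℚ)) * MvPolynomial.monomial (mb d i) (1 : Polynomial ℚ)) = 0)
    (N : ℕ) (hN : c.natDegree ≤ N) (hN' : ∀ s i, (cc s i).natDegree ≤ N) (z : ℂ) (hz : z ≠ 0) (y : Fin r → ℂ)
    (hy : y ∈ Vc h (1 / z)) (s : Fin r → Fin (d + 1)) :
    Polynomial.aeval z (Polynomial.reflect N c) * ∏ i, y i ^ (s i : ℕ) =
      ∑ l : ι, Polynomial.aeval z (Polynomial.reflect N (cc s l)) * ∏ i, y i ^ ((l : Fin r → Fin (d + 1)) i : ℕ) := by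
  have h1 := hy _ (hrel s)
  have hφ : ∀ p : Polynomial ℤ, (Polynomial.aeval (1 / z) : Polynomial ℚ →ₐ[ℚ] ℂ).toRingHom (p.map (Int.castRingHom ℚ)) =
      Polynomial.aeval (1 / z) p := fun p => Polynomial.aeval_map_algebraMap ℚ (1 / z) p
  rw [MvPolynomial.eval₂_sub, MvPolynomial.eval₂_sum, ev_mono, hφ, sub_eq_zero] at h1
  simp only [ev_mono, hφ] at h1
  rw [aeval_refl c N hN z hz, mul_assoc, h1, Finset.mul_sum]
  refine Finset.sum_congr rfl fun l _ => ?_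
  rw [aeval_refl (cc s l) N (hN' s l) z hz, mul_assoc]

lemma WinL.mono {E : Type} [Fintype E] {Y : ℂ → E → ℂ} {Dm Dm' : ℂ → Prop} {G : ℤ} {m : ℕ} (h : WinL Y Dm G m)
    (hD : ∀ z, Dm' z → Dm z) : WinL Y Dm' G m := by
  intro D n A
  obtain ⟨M, E₁, B, h1⟩ := h D n A
  refine ⟨M, E₁, B, fun J K ξ X a1 a2 a3 a4 a5 => ?_⟩
  obtain ⟨H₀, h2⟩ := h1 J K ξ X a1 a2 a3 a4 a5
  exact ⟨H₀, fun H hH h _ hn ζ S hS => h2 H hH h hn ζ S fun g hg =>
    ⟨(hS g hg).1, (hS g hg).2.1, hD _ (hS g hg).2.2.1, (hS g hg).2.2.2⟩⟩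

lemma norm_vE {k d : ℕ} {ι : Type} (μ : ι → Fin r → Fin (d + 1)) (y : Fin k × Option (Fin r) → ℂ) (M : ℝ) (hM : 1 ≤ M)
    (hy : ∀ s, ‖y s‖ ≤ M) (E : Fin k → Fin (d + 1) × ι) : ‖vE μ y E‖ ≤ M ^ (k * (d * (r + 1))) := by
  rw [vE, norm_prod]
  have h1 : ∀ j, ‖y (j, none) ^ ((E j).1 : ℕ) * ∏ i, y (j, some i) ^ (μ (E j).2 i : ℕ)‖ ≤ M ^ (d * (r + 1)) := by
    intro j
    rw [norm_mul, norm_pow, norm_prod]
    have h2 : ‖y (j, none)‖ ^ ((E j).1 : ℕ) ≤ M ^ d :=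
      (pow_le_pow_left₀ (norm_nonneg _) (hy _) _).trans (pow_le_pow_right₀ hM (by
        have := (E j).1.2
        omega))
    have h3 : ∏ i, ‖y (j, some i) ^ (μ (E j).2 i : ℕ)‖ ≤ (M ^ d) ^ r := by
      calc _ ≤ ∏ _i : Fin r, M ^ d := by
            refine Finset.prod_le_prod (fun _ _ => norm_nonneg _) fun i _ => ?_
            rw [norm_pow]
            exact (pow_le_pow_left₀ (norm_nonneg _) (hy _) _).trans (pow_le_pow_right₀ hM (by
              have := (μ (E j).2 i).2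
              omega))
        _ = _ := by rw [Finset.prod_const, Finset.card_univ, Fintype.card_fin]
    calc _ ≤ M ^ d * (M ^ d) ^ r := mul_le_mul h2 h3 (Finset.prod_nonneg fun _ _ => norm_nonneg _) (by positivity)
      _ = M ^ (d * (r + 1)) := by rw [← pow_succ', ← pow_mul]
  calc _ ≤ ∏ _j : Fin k, M ^ (d * (r + 1)) := Finset.prod_le_prod (fun _ _ => norm_nonneg _) fun j _ => h1 j
    _ = _ := by rw [Finset.prod_const, Finset.card_univ, Fintype.card_fin, ← pow_mul, mul_comm]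

lemma vE_pt {h : Fin r → ℚ⟦X⟧} {k d : ℕ} {ι : Finset (Fin r → Fin (d + 1))} (α : Fin k → ℂ) (E : Fin k → Fin (d + 1) × ι) :
    vE (fun (l : ι) => (l : Fin r → Fin (d + 1))) (ptc h α fun j => Complex.log (α j)) E =
      ∏ j, Ym h Complex.log (fun l : ι => mb d l) d (α j) (E j) := by
  rw [vE]
  refine Finset.prod_congr rfl fun j _ => ?_
  rw [Ym, Finsupp.prod_fintype _ _ (fun _ => pow_zero _)]
  rfl

end Pool.Agent.Q246.LN
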