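import Pool.Agent.Q246.AF.Nrs

/-!
# Families of G-functions at algebraic points: the free coordinates are independent asymptotic numbers
-/

set_option autoImplicit false

open PowerSeries Module Filter AlgebraicIndependent

namespace Pool.Agent.Q246.LN

open Pool.Agent.Y916 Pool.Agent.Y916.Af Pool.Agent.Y916.Al Pool.Agent.Y120.GH Pool.Agent.Y118.UL Pool.Agent.Y475.AF
  Pool.Agent.Q246.NR Pool.Agent.Q246.NR2 Pool.Agent.Q246.AF

variable {r : ℕ}

theorem indep {h : Fin r → ℚ⟦X⟧} (hfam : FAMN h)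
    (hsize : ∃ C : ℝ, ∀ i m, |((coeff m (h i) : ℚ) : ℝ)| ≤ C ^ (m + 1)) :
    ∃ G0 : ℕ, 1 ≤ G0 ∧ ∀ G : ℕ, G0 ≤ G → ∀ I : Finset (Fin r), Free h I → ∀ (N d A' : ℕ) (H : ℕ → ℕ)
      (K : ℕ → IntermediateField ℚ ℂ) (ξ : ∀ n, K n) (X : ℕ → ℝ) (g : ℕ → Fin N → ℕ),
      (∀ n, FiniteDimensional ℚ (K n)) → (∀ n, finrank ℚ (K n) ≤ d) → (∀ n, Pt (K n) (ξ n) (X n)) →
      (∀ n, ((H n : ℝ) + 2) ^ n ≤ ‖(ξ n : ℂ)‖) → (∀ n, X n ≤ ‖(ξ n : ℂ)‖ ^ A') → (∀ n, Function.Injective (g n)) →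
      (∀ n l, 1 ≤ g n l ∧ g n l ≤ H n) → ∃ M : ℕ → ℝ, ∀ (w : ℕ → ℝ) (hw : Sc w), (∀ n, M n ≤ w n) →
      ∃ (x : Fin N → SB w hw) (z : Fin N → Option (Fin r) → SB w hw),
        (∀ l n, (x l).1 n = 1 / ((ξ n : ℂ) - ((G * g n l : ℕ) : ℂ))) ∧
        (∀ l o n, (z l o).1 n = vc G h (ξ n) (g n l) o) ∧
        (∀ l, IsAlgebraic (FZ w hw) (cl w hw (x l))) ∧
        (∀ l, ∀ c : Polynomial ℚ, c ≠ 0 → Polynomial.aeval (cl w hw (x l)) c ≠ 0) ∧
        (∀ l, ∀ R : MvPolynomial (Fin r) (Polynomial ℚ), MvPolynomial.aeval h R = 0 →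
          MvPolynomial.eval₂ (Polynomial.aeval (cl w hw (x l)) : Polynomial ℚ →ₐ[ℚ] Om w hw).toRingHom
            (fun j => cl w hw (z l (some j))) R = 0) ∧
        AlgebraicIndependent (FZ w hw) (fun p : Fin N × Option I => cl w hw (z p.1 (p.2.map Subtype.val))) := by
  classical
  have hhf := Pool.Agent.Y185.AF.t_hf
  have hrk := Pool.Agent.Y356.AF.t_rk
  obtain ⟨G0, hG0, hG⟩ := hfam
  refine ⟨G0, hG0, fun G hGG I hFree N d A' H K ξ X g hfd hrank hPt hbig hX hginj hgb => ?_⟩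
  -- the points
  obtain ⟨xs, hxs⟩ : ∃ xs : Fin N → ℕ → ℂ, xs = fun l n =>
    1 / ((ξ n : ℂ) - ((G * g n l : ℕ) : ℂ)) := ⟨_, rfl⟩
  obtain ⟨zq, hzq⟩ : ∃ zq : Fin N → Option (Fin r) → ℕ → ℂ, zq = fun l o n =>
    vc G h (ξ n) (g n l) o := ⟨_, rfl⟩
  have hxK : ∀ l n, xs l n ∈ K n := by
    intro l n
    rw [hxs]
    exact (K n).div_mem (K n).one_mem ((K n).sub_mem (ξ n).2 (natCast_mem (K n) _))
  choose p hp0 hpd hpz using fun l n => int_poly (K n) (hfd n) (hrank n) (xs l n) (hxK l n)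
  -- the constants of the family
  choose B hBcard hB using fun δ => hG G hGG I hFree.1 δ
  choose E Bx hE using fun δ => hB δ N d A'
  have hc : ∀ n δ, ∃ c : ℝ, 0 < c ∧ (E δ ≤ n → ∀ (m : ℕ) (a : Fin m → (Fin N → B δ × Fin (δ + 1)) → ℤ) (A₁ δ₁ : ℝ),
      LinearIndependent ℚ (fun i b => (a i b : ℚ)) → 1 ≤ A₁ → 0 ≤ δ₁ → (∀ i b, |((a i b : ℤ) : ℝ)| ≤ A₁) →
      (∀ i, ‖∑ b, ((a i b : ℤ) : ℂ) * ∏ l, (yw (fun j => vc G h (ξ n) (g n l) (some j)) (b l).1.1 *
        vc G h (ξ n) (g n l) none ^ ((b l).2 : ℕ))‖ ≤ δ₁) →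
      2 * A' * d * (Fintype.card (Fin N → B δ × Fin (δ + 1)) - m) ≤ Fintype.card (Fin N → B δ × Fin (δ + 1)) →
      c ≤ δ₁ * A₁ ^ Bx δ) := by
    intro n δ
    by_cases hn : E δ ≤ n
    · obtain ⟨c, hc0, hc⟩ := hE δ (H n) (K n) (ξ n) (X n) (hfd n) (hrank n) (hPt n)
        (le_trans (pow_le_pow_right₀ (by linarith [show (0 : ℝ) ≤ H n by positivity]) hn) (hbig n)) (hX n) (g n)
        (hginj n) (hgb n)
      exact ⟨c, hc0, fun _ => hc⟩
    · exact ⟨1, one_pos, fun h => absurd h hn⟩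
  choose c hc0 hc using hc
  -- the scale
  obtain ⟨M, hM⟩ : ∃ M : ℕ → ℝ, M = fun n : ℕ => (n : ℝ) + 2 + ∑ l, ∑ o, ‖zq l o n‖ + ∑ l, ‖xs l n‖ + ∑ l, 1 / ‖xs l n‖ +
    ∑ l, ∑ j ∈ Finset.range (d + 1), |(((p l n).coeff j : ℤ) : ℝ)| + ∑ δ ∈ Finset.range (n + 1), 1 / c n δ := ⟨_, rfl⟩
  refine ⟨M, fun w hw hwM => ?_⟩
  -- the parts of the scale
  have hn1 : ∀ n, 0 ≤ ∑ l, ∑ o, ‖zq l o n‖ := fun n => Finset.sum_nonneg fun _ _ => Finset.sum_nonneg fun _ _ => norm_nonneg _
  have hn2 : ∀ n, 0 ≤ ∑ l, ‖xs l n‖ := fun n => Finset.sum_nonneg fun _ _ => norm_nonneg _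
  have hn3 : ∀ n, 0 ≤ ∑ l, 1 / ‖xs l n‖ := fun n => Finset.sum_nonneg fun _ _ => by positivity
  have hn4 : ∀ n, 0 ≤ ∑ l, ∑ j ∈ Finset.range (d + 1), |(((p l n).coeff j : ℤ) : ℝ)| :=
    fun n => Finset.sum_nonneg fun _ _ => Finset.sum_nonneg fun _ _ => abs_nonneg _
  have hn5 : ∀ n, 0 ≤ ∑ δ ∈ Finset.range (n + 1), 1 / c n δ :=
    fun n => Finset.sum_nonneg fun _ _ => by have := hc0 n; exact (one_div_pos.2 (this _)).le
  have hwz : ∀ l o n, ‖zq l o n‖ ≤ w n := by
    intro l o n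
    have h0 := hwM n
    have h1 : ‖zq l o n‖ ≤ ∑ l, ∑ o, ‖zq l o n‖ :=
      (Finset.single_le_sum (f := fun o => ‖zq l o n‖) (fun _ _ => norm_nonneg _) (Finset.mem_univ o)).trans
        (Finset.single_le_sum (f := fun l => ∑ o, ‖zq l o n‖) (fun _ _ => Finset.sum_nonneg fun _ _ => norm_nonneg _)
          (Finset.mem_univ l))
    have h2 := hn2 n
    have h3 := hn3 n
    have h4 := hn4 n
    have h5 := hn5 n
    rw [hM] at h0
    simp only at h0
    have h6 : (0 : ℝ) ≤ n := by positivity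
    linarith
  have hwx : ∀ l n, ‖xs l n‖ ≤ w n := by
    intro l n
    have h0 := hwM n
    have h1 := hn1 n
    have h2 : ‖xs l n‖ ≤ ∑ l, ‖xs l n‖ :=
      Finset.single_le_sum (f := fun l => ‖xs l n‖) (fun _ _ => norm_nonneg _) (Finset.mem_univ l)
    have h3 := hn3 n
    have h4 := hn4 n
    have h5 := hn5 n
    rw [hM] at h0
    simp only at h0
    have h6 : (0 : ℝ) ≤ n := by positivity
    linarith
  have hwx' : ∀ l n, 1 / ‖xs l n‖ ≤ w n := by
    intro l n
    have h0 := hwM n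
    have h1 := hn1 n
    have h2 := hn2 n
    have h3 : 1 / ‖xs l n‖ ≤ ∑ l, 1 / ‖xs l n‖ :=
      Finset.single_le_sum (f := fun l => 1 / ‖xs l n‖) (fun _ _ => by positivity) (Finset.mem_univ l)
    have h4 := hn4 n
    have h5 := hn5 n
    rw [hM] at h0
    simp only at h0
    have h6 : (0 : ℝ) ≤ n := by positivity
    linarith
  have hwp : ∀ l n j, |(((p l n).coeff j : ℤ) : ℝ)| ≤ w n := by
    intro l n j
    by_cases hj : j ∈ Finset.range (d + 1)
    · have h0 := hwM n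
      have h1 := hn1 n
      have h2 := hn2 n
      have h3 := hn3 n
      have h4 : |(((p l n).coeff j : ℤ) : ℝ)| ≤ ∑ l, ∑ j ∈ Finset.range (d + 1), |(((p l n).coeff j : ℤ) : ℝ)| :=
        (Finset.single_le_sum (f := fun j => |(((p l n).coeff j : ℤ) : ℝ)|) (fun _ _ => abs_nonneg _) hj).trans
          (Finset.single_le_sum (f := fun l => ∑ j ∈ Finset.range (d + 1), |(((p l n).coeff j : ℤ) : ℝ)|)
            (fun _ _ => Finset.sum_nonneg fun _ _ => abs_nonneg _) (Finset.mem_univ l))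
      have h5 := hn5 n
      rw [hM] at h0
      simp only at h0
      have h6 : (0 : ℝ) ≤ n := by positivity
      linarith
    · rw [Finset.mem_range, not_lt] at hj
      rw [Polynomial.coeff_eq_zero_of_natDegree_lt (by have := hpd l n; omega), Int.cast_zero, abs_zero]
      exact (hw.pos n).le
  have hwc : ∀ n δ, δ ≤ n → 1 / c n δ ≤ w n := by
    intro n δ hδ
    have h0 := hwM n
    have h1 := hn1 n
    have h2 := hn2 n
    have h3 := hn3 n
    have h4 := hn4 n
    have h5 : 1 / c n δ ≤ ∑ δ ∈ Finset.range (n + 1), 1 / c n δ :=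
      Finset.single_le_sum (f := fun δ => 1 / c n δ) (fun δ _ => (one_div_pos.2 (hc0 n δ)).le)
        (Finset.mem_range.2 (Nat.lt_succ_of_le hδ))
    rw [hM] at h0
    simp only at h0
    have h6 : (0 : ℝ) ≤ n := by positivity
    linarith
  -- the classes
  let x : Fin N → SB w hw := fun l => ⟨xs l, bd_of_le (hwx l)⟩
  let z : Fin N → Option (Fin r) → SB w hw := fun l o => ⟨zq l o, bd_of_le (hwz l o)⟩
  have hxsmall : ∀ ε : ℝ, 0 < ε → ∀ᶠ n in (hyperfilter ℕ : Filter ℕ), ∀ l,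
      xs l n ≠ 0 ∧ ‖xs l n‖ < ε := by
    intro ε hε
    obtain ⟨n₀, hn₀⟩ := small_x G ε hε
    filter_upwards [ev_ge n₀] with n hn l
    rw [hxs]
    exact hn₀ n (H n) (g n l) (ξ n) hn (hbig n) (hgb n l).2
  -- (2)
  have halg : ∀ l, IsAlgebraic (FZ w hw) (cl w hw (x l)) := fun l =>
    alg_of (x l) d (p l) (hpd l) (hp0 l) (hwp l) (hpz l)
  have hroot : ∀ l, ∀ c : Polynomial ℚ, c ≠ 0 → Polynomial.aeval (cl w hw (x l)) c ≠ 0 := fun l c hc =>
    root_of (x l) (fun ε hε => (hxsmall ε hε).mono fun n hn => hn l) (fun n _ => hwx' l n) c hc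
  -- (3)
  have hrel : ∀ l, ∀ R : MvPolynomial (Fin r) (Polynomial ℚ), MvPolynomial.aeval h R = 0 →
      MvPolynomial.eval₂ (Polynomial.aeval (cl w hw (x l)) : Polynomial ℚ →ₐ[ℚ] Om w hw).toRingHom
        (fun j => cl w hw (z l (some j))) R = 0 := by
    intro l R hR
    refine rel_of (x l) (fun j => z l (some j)) R ?_
    obtain ⟨ε, hε, hεc⟩ := small_cvc h hsize
    filter_upwards [hxsmall ε hε] with n hn
    have h1 := (ev_aeval h (xs l n) (hεc _ (hn l).2) R).2
    rw [hR, ev_zero] at h1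
    have h2 : (fun j => (z l (some j)).1 n) = fun j => evc (xs l n) (h j) := by
      funext j
      show zq l (some j) n = _
      rw [hzq, hxs]
      rfl
    rw [h2]
    exact h1.symm
  refine ⟨x, z, fun l n => congrFun (congrFun hxs l) n, fun l o n => congrFun (congrFun (congrFun hzq l) o) n, halg, hroot, hrel, ?_⟩
  by_contra hdep
  -- (4)
  have hrank2 := hrk r h I hFree (FZ w hw) (Om w hw) N (fun l => cl w hw (x l)) (fun l o => cl w hw (z l o))
    halg hroot hrel hdep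
  obtain ⟨n1, hn1'⟩ : ∃ n1, N * (I.card + 1) = n1 + 1 := by
    refine ⟨N * (I.card + 1) - 1, ?_⟩
    have : N * (I.card + 1) ≠ 0 := by
      intro h0
      rw [h0] at hrank2
      exact absurd hrank2 (by simp)
    omega
  have hrank3 : (matroid (FZ w hw) (Om w hw)).eRk (Set.range fun p : Fin N × Option (Fin r) =>
      cl w hw (z p.1 p.2)) ≤ (n1 : ℕ∞) := by
    rw [hn1'] at hrank2
    have h1 : ((n1 + 1 : ℕ) : ℕ∞) = (n1 : ℕ∞) + 1 := by push_cast; rfl
    rw [h1] at hrank2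
    exact Order.le_of_lt_add_one hrank2
  obtain ⟨C, hC⟩ := hhf (FZ w hw) (Om w hw) (Fin N × Option (Fin r)) (fun p => cl w hw (z p.1 p.2)) n1 hrank3
  -- (5)
  obtain ⟨s, hs⟩ : ∃ s : ℕ, 2 * A' * d * (C * (2 * N * (I.card + 1) + 1) ^ n1) ≤ s + 1 :=
    ⟨2 * A' * d * (C * (2 * N * (I.card + 1) + 1) ^ n1), Nat.le_succ _⟩
  obtain ⟨δ, hδ⟩ : ∃ δ, δ = (I.card + 1) * s := ⟨_, rfl⟩
  have hMon : (s + 1) ^ I.card ≤ (B δ).card := by
    refine le_trans ?_ (hBcard δ)
    rw [hδ]
    exact card_Mon I s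
  have hcard : (s + 1) ^ (n1 + 1) ≤ Fintype.card (Fin N → B δ × Fin (δ + 1)) := by
    rw [Fintype.card_fun, Fintype.card_prod, Fintype.card_coe, Fintype.card_fin, Fintype.card_fin,
      ← hn1', mul_comm N, pow_mul, pow_succ]
    refine Nat.pow_le_pow_left (Nat.mul_le_mul hMon ?_) N
    have : s ≤ δ := by
      rw [hδ]
      exact Nat.le_mul_of_pos_left s (Nat.succ_pos _)
    omega
  have hdim : 2 * A' * d * (C * (2 * N * δ + 1) ^ n1) ≤
      Fintype.card (Fin N → B δ × Fin (δ + 1)) := by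
    refine le_trans ?_ hcard
    have h1 : 2 * N * δ + 1 ≤ (2 * N * (I.card + 1) + 1) * (s + 1) := by
      rw [hδ]
      nlinarith [Nat.zero_le (2 * N * (I.card + 1)), Nat.zero_le s]
    calc 2 * A' * d * (C * (2 * N * δ + 1) ^ n1)
        ≤ 2 * A' * d * (C * ((2 * N * (I.card + 1) + 1) * (s + 1)) ^ n1) := by
          gcongr
      _ = (2 * A' * d * (C * (2 * N * (I.card + 1) + 1) ^ n1)) * (s + 1) ^ n1 := by
          rw [mul_pow]; ring
      _ ≤ (s + 1) * (s + 1) ^ n1 := Nat.mul_le_mul_right _ hs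
      _ = (s + 1) ^ (n1 + 1) := (pow_succ' _ _).symm
  -- (6) the products
  obtain ⟨ws, hws⟩ : ∃ ws : (Fin N → B δ × Fin (δ + 1)) → SB w hw, ws = fun b =>
    ∏ l, (yw (fun j => z l (some j)) (b l).1.1 * z l none ^ ((b l).2 : ℕ)) := ⟨_, rfl⟩
  have hyw : ∀ {R S : Type} [CommRing R] [CommRing S] (φ : R →+* S) (y : Fin r → R) (b : Fin δ → Option (Fin r)),
      φ (yw y b) = yw (fun j => φ (y j)) b := by
    intro R S _ _ φ y b
    unfold yw
    rw [map_prod]
    refine Finset.prod_congr rfl fun j _ => ?_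
    rcases b j with _ | i
    · exact map_one φ
    · rfl
  have hwsn : ∀ b n, ev w hw n (ws b) = ∏ l, (yw (fun j => vc G h (ξ n) (g n l) (some j)) (b l).1.1 *
      vc G h (ξ n) (g n l) none ^ ((b l).2 : ℕ)) := by
    intro b n
    rw [hws, map_prod]
    refine Finset.prod_congr rfl fun l _ => ?_
    rw [map_mul, map_pow, hyw]
    have h1 : ∀ o, ev w hw n (z l o) = vc G h (ξ n) (g n l) o := by
      intro o
      show zq l o n = _
      rw [hzq]
    simp only [h1]
  obtain ⟨W, hW⟩ : ∃ W : (Fin N → B δ × Fin (δ + 1)) → Om w hw, W = fun b => cl w hw (ws b) := ⟨_, rfl⟩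
  have hWmem : ∀ b, W b ∈ mons (fun p : Fin N × Option (Fin r) => cl w hw (z p.1 p.2))
      (2 * N * δ) := by
    intro b
    have e : W b = ∏ l, (yw (fun j => cl w hw (z l (some j))) (b l).1.1 *
        cl w hw (z l none) ^ ((b l).2 : ℕ)) := by
      rw [hW, hws]
      show cl w hw _ = _
      rw [map_prod]
      refine Finset.prod_congr rfl fun l _ => ?_
      rw [map_mul, map_pow, hyw]
    rw [e]
    have h1 := mons_prod (fun p : Fin N × Option (Fin r) => cl w hw (z p.1 p.2)) Finset.univ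
      (fun l => yw (fun j => cl w hw (z l (some j))) (b l).1.1 *
        cl w hw (z l none) ^ ((b l).2 : ℕ)) (δ + δ) (by
      intro l _
      refine mons_mul _ ?_ ?_
      · unfold yw
        have h2 := mons_prod (fun p : Fin N × Option (Fin r) => cl w hw (z p.1 p.2)) Finset.univ
          (fun i => ((b l).1.1 i).elim (1 : Om w hw) (fun j => cl w hw (z l (some j)))) 1 (by
            intro i _
            cases (b l).1.1 i with
            | none => exact mons_mono _ (Nat.zero_le 1) (mons_one _)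
            | some j => exact mons_var (fun p : Fin N × Option (Fin r) => cl w hw (z p.1 p.2)) (l, some j))
        rw [Finset.card_univ, Fintype.card_fin, mul_one] at h2
        exact h2
      · refine mons_mono _ (Nat.lt_succ_iff.1 (b l).2.2) (mons_pow _ ?_ _)
        exact mons_var (fun p : Fin N × Option (Fin r) => cl w hw (z p.1 p.2)) (l, none))
    rw [Finset.card_univ, Fintype.card_fin] at h1
    refine mons_mono _ ?_ h1
    nlinarith
  -- (7) a maximal independent set of products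
  have hfinm := mons_finite (fun p : Fin N × Option (Fin r) => cl w hw (z p.1 p.2)) (2 * N * δ)
  have hfdm : FiniteDimensional (FZ w hw) (Submodule.span (FZ w hw)
      (mons (fun p : Fin N × Option (Fin r) => cl w hw (z p.1 p.2)) (2 * N * δ))) :=
    FiniteDimensional.span_of_finite _ hfinm
  obtain ⟨κ, e₀, he₀, hspan, hli⟩ := exists_linearIndependent' (FZ w hw) W
  have hκ : Finite κ := Finite.of_injective e₀ he₀
  have : Fintype κ := Fintype.ofFinite κ
  have hκcard : Fintype.card κ ≤ C * (2 * N * δ + 1) ^ n1 := by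
    have h1 := finrank_span_eq_card hli
    rw [← h1]
    refine le_trans ?_ (hC (2 * N * δ))
    apply Submodule.finrank_mono
    apply Submodule.span_mono
    rintro _ ⟨k, rfl⟩
    exact hWmem _
  -- (8) the relations
  obtain ⟨S, hS⟩ : ∃ S : Finset (Fin N → B δ × Fin (δ + 1)), S = Finset.univ.filter (· ∉ Set.range e₀) := ⟨_, rfl⟩
  have hScard : Fintype.card (Fin N → B δ × Fin (δ + 1)) - S.card ≤ Fintype.card κ := by
    have h1 : (Finset.univ.filter (· ∉ Set.range e₀)).card + (Finset.univ.image e₀).card =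
        Fintype.card (Fin N → B δ × Fin (δ + 1)) := by
      have h0 := Finset.card_filter_add_card_filter_not (s := (Finset.univ : Finset (Fin N → B δ × Fin (δ + 1))))
        (fun b => b ∉ Set.range e₀)
      rw [← Finset.card_univ, ← h0]
      refine congrArg₂ (· + ·) rfl (congrArg Finset.card ?_)
      ext b
      simp
    have h2 : (Finset.univ.image e₀).card ≤ Fintype.card κ := Finset.card_image_le
    rw [hS]
    omega
  have hrels : ∀ b : Fin N → B δ × Fin (δ + 1), ∃ (q : ZB w hw) (a : κ → ZB w hw), zc w hw q ≠ 0 ∧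
      zc w hw q * W b = ∑ k, zc w hw (a k) * W (e₀ k) := by
    intro b
    have h1 : W b ∈ Submodule.span (FZ w hw) (Set.range (W ∘ e₀)) := by
      rw [hspan]
      exact Submodule.subset_span ⟨b, rfl⟩
    rw [Submodule.mem_span_range_iff_exists_fun] at h1
    obtain ⟨t, ht⟩ := h1
    obtain ⟨q, a, hq, hqa⟩ := common (fun k => ((t k : FZ w hw) : Om w hw)) (fun k => (t k).2)
    refine ⟨q, a, hq, ?_⟩
    rw [← ht, Finset.mul_sum]
    refine Finset.sum_congr rfl fun k _ => ?_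
    rw [← hqa k, mul_assoc]
    rfl
  choose q a hq hqa using hrels
  let e : Fin S.card ≃ S := S.equivFin.symm
  have heS : ∀ i, ((e i : S) : Fin N → B δ × Fin (δ + 1)) ∉ Set.range e₀ := by
    intro i
    have h1 : ∀ b ∈ S, b ∉ Set.range e₀ := by
      intro b hb
      rw [hS, Finset.mem_filter] at hb
      exact hb.2
    exact h1 _ (e i).2
  obtain ⟨v, hv⟩ : ∃ v : Fin S.card → (Fin N → B δ × Fin (δ + 1)) → ZB w hw, v = fun i b =>
    (if b = (e i).1 then q (e i).1 else 0) - ∑ k, if b = e₀ k then a (e i).1 k else 0 := ⟨_, rfl⟩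
  -- (a) bounded
  obtain ⟨k₀, hk₀⟩ := bd_fin hw (fun p : Fin S.card × (Fin N → B δ × Fin (δ + 1)) => fun n => ((v p.1 p.2).1 n : ℂ))
    (fun p => (v p.1 p.2).2)
  -- (b) small values
  have hsmall : ∀ k : ℕ, ∀ᶠ n in (hyperfilter ℕ : Filter ℕ), ∀ i,
      ‖∑ b, (((v i b).1 n : ℤ) : ℂ) * ∏ l, (yw (fun j => vc G h (ξ n) (g n l) (some j)) (b l).1.1 *
        vc G h (ξ n) (g n l) none ^ ((b l).2 : ℕ))‖ ≤ (w n ^ k)⁻¹ := by
    intro k
    rw [eventually_all]
    intro i
    have h1 : cl w hw (∑ b, zs w hw (v i b) * ws b) = 0 := by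
      rw [map_sum]
      have h2 : ∀ b, cl w hw (zs w hw (v i b) * ws b) = zc w hw (v i b) * W b := by
        intro b
        rw [map_mul, hW]
        rfl
      simp only [h2]
      have h3 : ∀ b, zc w hw (v i b) * W b = (if b = (e i).1 then zc w hw (q (e i).1) * W b else 0) -
          ∑ k, if b = e₀ k then zc w hw (a (e i).1 k) * W b else 0 := by
        intro b
        rw [hv]
        simp only [map_sub, map_sum]
        rw [sub_mul, Finset.sum_mul]
        congr 1
        · split_ifs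
          · rfl
          · rw [map_zero, zero_mul]
        · refine Finset.sum_congr rfl fun k _ => ?_
          split_ifs
          · rfl
          · rw [map_zero, zero_mul]
      simp only [h3]
      rw [Finset.sum_sub_distrib, Finset.sum_ite_eq' Finset.univ, if_pos (Finset.mem_univ _), hqa, Finset.sum_comm]
      rw [sub_eq_zero]
      refine Finset.sum_congr rfl fun k _ => ?_
      rw [Finset.sum_ite_eq' Finset.univ, if_pos (Finset.mem_univ _)]
    rw [cl_eq_zero'] at h1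
    filter_upwards [h1 k] with n hn
    refine le_trans (le_of_eq ?_) hn
    congr 1
    rw [map_sum]
    refine Finset.sum_congr rfl fun b _ => ?_
    rw [map_mul, hwsn, ev_zs]
  -- (c) independence
  have hq0 : ∀ᶠ n in (hyperfilter ℕ : Filter ℕ), ∀ b, (q b).1 n ≠ 0 := by
    rw [eventually_all]
    intro b
    rw [Ultrafilter.eventually_not]
    exact fun h => hq b (zc_eq_zero.2 h)
  obtain ⟨n, h1, h2, h3, h4, h5⟩ := (hk₀.and ((hsmall (k₀ * Bx δ + 2)).and (hq0.and ((ev_ge (E δ)).and (ev_ge δ))))).exists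
  have hfinal := hc n δ h4 S.card (fun i b => (v i b).1 n) (w n ^ k₀) ((w n ^ (k₀ * Bx δ + 2))⁻¹) ?_
    (one_le_pow₀ (hw.one n)) (inv_nonneg.2 (pow_nonneg (hw.pos n).le _)) (fun i b => ?_) h2 ?_
  · have h6 := hwc n δ h5
    have h7 := hw.pos n
    have h8 := hc0 n δ
    rw [← pow_mul, pow_add] at hfinal
    have h9 : (w n ^ (k₀ * Bx δ) * w n ^ 2)⁻¹ * w n ^ (k₀ * Bx δ) = (w n ^ 2)⁻¹ := by
      field_simp
    rw [h9] at hfinal
    rw [div_le_iff₀ h8] at h6
    have h10 : 1 ≤ w n * (w n ^ 2)⁻¹ := h6.trans (mul_le_mul_of_nonneg_left hfinal h7.le)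
    have h11 : w n * (w n ^ 2)⁻¹ = (w n)⁻¹ := by field_simp
    rw [h11] at h10
    have h12 : (w n)⁻¹ < 1 := inv_lt_one_of_one_lt₀ (by linarith [hw.two n])
    linarith
  · rw [Fintype.linearIndependent_iff]
    intro t ht i
    have h6 := congrFun ht (e i).1
    rw [Finset.sum_apply, Pi.zero_apply, Finset.sum_eq_single i] at h6
    · rw [Pi.smul_apply, smul_eq_mul] at h6
      have h7 : (v i (e i).1).1 n = (q (e i).1).1 n := by
        rw [hv]
        simp only [if_true]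
        rw [Finset.sum_eq_zero, sub_zero]
        intro k _
        rw [if_neg]
        intro h8
        exact heS i ⟨k, h8.symm⟩
      rw [h7] at h6
      refine (mul_eq_zero.1 h6).resolve_right ?_
      exact_mod_cast h3 _
    · intro i' _ hi'
      rw [Pi.smul_apply, smul_eq_mul]
      have h7 : (v i' (e i).1).1 n = 0 := by
        rw [hv]
        simp only
        rw [if_neg, Finset.sum_eq_zero, sub_zero]
        · rfl
        · intro k _
          rw [if_neg]
          intro h8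
          exact heS i ⟨k, h8.symm⟩
        · intro h8
          exact hi' (e.injective (Subtype.ext h8)).symm
      rw [h7, Int.cast_zero, mul_zero]
    · intro h7
      exact absurd (Finset.mem_univ i) h7
  · have h6 := h1 (i, b)
    simp only [Complex.norm_intCast] at h6
    exact h6
  · refine le_trans (Nat.mul_le_mul_left _ ?_) hdim
    exact hScard.trans hκcard

end Pool.Agent.Q246.LN
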