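import Mathlib

/-!
# Elimination of constants from near relations: only multilinear forms in the values at distinct points are needed
-/

set_option autoImplicit false

open Matrix

namespace Pool.Agent.Q246.LN

/-- expansion of the determinant of a matrix whose rows are linear combinations -/
lemma det_expand {N : ℕ} {E : Type} [Fintype E] (a : Fin N → E → ℂ) (r : Fin N → E → Fin N → ℂ) :
    (Matrix.of fun j l => ∑ e, a j e * r j e l).det =
      ∑ e' : Fin N → E, (∏ j, a j (e' j)) * (Matrix.of fun j l => r j (e' j) l).det := by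
  classical
  have h1 := (Matrix.detRowAlternating (R := ℂ) (n := Fin N)).toMultilinearMap.map_sum (fun (j : Fin N) (e : E) => a j e • r j e)
  have h2 : (Matrix.of fun j l => ∑ e, a j e * r j e l).det =
      (Matrix.detRowAlternating (R := ℂ) (n := Fin N)).toMultilinearMap fun j => ∑ e, a j e • r j e := by
    show Matrix.det _ = Matrix.det _
    congr 1
    ext j l
    simp
  rw [h2, h1]
  refine Finset.sum_congr rfl fun e' _ => ?_
  have h3 := (Matrix.detRowAlternating (R := ℂ) (n := Fin N)).toMultilinearMap.map_smul_univ (fun j => a j (e' j))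
    (fun j => r j (e' j))
  rw [h3]
  rfl

theorem elimL {E h : Type} [Fintype E] [Fintype h] (n : ℕ) (hn : Fintype.card h = n) (H Y δ L : ℝ) (hH : 1 ≤ H)
    (hY : 1 ≤ Y) (hδ : 0 ≤ δ) (y : ℕ → E → ℂ) (hy : ∀ i ≤ n, ∀ e, ‖y i e‖ ≤ Y) (c : ℕ → E → h → ℤ)
    (hc : ∀ i ≤ n, ∀ e s, |((c i e s : ℤ) : ℝ)| ≤ H)
    (hlow : ∀ N ≤ n, ∀ b : (Fin N → E) → ℤ, b ≠ 0 → (∀ e, |((b e : ℤ) : ℝ)| ≤ N.factorial * H ^ N) →
      L ≤ ‖∑ e, (b e : ℂ) * ∏ j : Fin N, y j (e j)‖)
    (ζ : h → ℂ) (K : ℕ → ℝ) (hK0 : ∀ i ≤ n, 0 < K i) (hKm : ∀ i j, i ≤ j → j ≤ n → K i ≤ K j)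
    (hK : ∀ i ≤ n, ∃ e, K i ≤ ‖∑ s, ζ s * (c i e s : ℂ)‖)
    (hs : ∀ i ≤ n, ‖∑ e, (∑ s, ζ s * (c i e s : ℂ)) * y i e‖ ≤ δ * K i) :
    L ≤ n * (n.factorial * (Fintype.card E * H * Y) ^ n) * δ := by
  classical
  set D : ℕ → Prop := fun N => ∀ (s : Fin N → h) (e : Fin N → E),
    (Matrix.of fun j l : Fin N => c j (e j) (s l)).det = 0 with hD
  have hDn : D (n + 1) := by
    intro s e
    obtain ⟨l, l', hne, hll⟩ := Fintype.exists_ne_map_eq_of_card_lt s (by rw [hn, Fintype.card_fin]; omega)
    exact Matrix.det_zero_of_column_eq hne (fun j => by simp only [Matrix.of_apply]; rw [hll])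
  have hex : ∃ N, D N := ⟨n + 1, hDn⟩
  have hfind := Nat.find_spec hex
  have hle : Nat.find hex ≤ n + 1 := Nat.find_min' hex hDn
  obtain ⟨N, hN⟩ : ∃ N, Nat.find hex = N + 1 := by
    refine ⟨Nat.find hex - 1, ?_⟩
    have : Nat.find hex ≠ 0 := by
      intro h0
      rw [h0] at hfind
      have h1 := hfind (fun i => i.elim0) (fun i => i.elim0)
      rw [Matrix.det_fin_zero] at h1
      exact one_ne_zero h1
    omega
  rw [hN] at hfind hle
  have hNn : N ≤ n := by omega
  have hnot : ¬ D N := Nat.find_min hex (by omega)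
  simp only [hD] at hnot
  push Not at hnot
  obtain ⟨s, e, hse⟩ := hnot
  -- the rows
  set V : ℕ → h → ℂ := fun j t => ∑ e, y j e * (c j e t : ℂ) with hV
  set Δ : ℂ := (Matrix.of fun j l : Fin N => V j (s l)).det with hΔ
  have hΔe : Δ = ∑ e' : Fin N → E, (((Matrix.of fun j l : Fin N => c j (e' j) (s l)).det : ℤ) : ℂ) *
      ∏ j : Fin N, y j (e' j) := by
    rw [hΔ]
    have h1 := det_expand (fun (j : Fin N) (e : E) => y j e) (fun (j : Fin N) (e : E) (l : Fin N) => ((c j e (s l) : ℤ) : ℂ))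
    refine h1.trans (Finset.sum_congr rfl fun e' _ => ?_)
    rw [mul_comm]
    congr 1
    exact ((Int.castRingHom ℂ).map_det (Matrix.of fun j l : Fin N => c j (e' j) (s l))).symm
  have hdetb : ∀ e' : Fin N → E, |(((Matrix.of fun j l : Fin N => c j (e' j) (s l)).det : ℤ) : ℝ)| ≤
      N.factorial * H ^ N := by
    intro e'
    have h1 : (((Matrix.of fun j l : Fin N => c j (e' j) (s l)).det : ℤ) : ℝ) =
        (Matrix.of fun j l : Fin N => ((c j (e' j) (s l) : ℤ) : ℝ)).det :=
      (Int.castRingHom ℝ).map_det (Matrix.of fun j l : Fin N => c j (e' j) (s l))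
    rw [h1]
    have h2 := Matrix.det_le (A := Matrix.of fun j l : Fin N => ((c j (e' j) (s l) : ℤ) : ℝ))
      (abv := AbsoluteValue.abs) (x := H) (fun j l => hc j (by have := j.2; omega) _ _)
    rw [Fintype.card_fin, nsmul_eq_mul] at h2
    exact h2
  have hΔL : L ≤ ‖Δ‖ := by
    rw [hΔe]
    refine hlow N hNn (fun e' => (Matrix.of fun j l : Fin N => c j (e' j) (s l)).det) ?_ hdetb
    intro h0
    exact hse (congrFun h0 e)
  obtain ⟨e₀, he₀⟩ := hK N hNn
  -- the last row
  set R : Fin (N + 1) → h → ℂ := Fin.snoc (α := fun _ => h → ℂ) (fun j : Fin N => V j) (fun t => (c N e₀ t : ℂ)) with hR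
  have hRc : ∀ j : Fin N, R j.castSucc = V j := fun j => Fin.snoc_castSucc (α := fun _ => h → ℂ) _ _ _
  have hRl : R (Fin.last N) = fun t => (c N e₀ t : ℂ) := Fin.snoc_last (α := fun _ => h → ℂ) _ _
  have hzero : ∀ t : h, (Matrix.of fun j l : Fin (N + 1) => R j ((Fin.snoc s t : Fin (N + 1) → h) l)).det = 0 := by
    intro t
    set s' : Fin (N + 1) → h := Fin.snoc s t with hs'
    -- coefficients of the rows
    set a : Fin (N + 1) → E → ℂ := Fin.snoc (α := fun _ => E → ℂ) (fun (j : Fin N) e => y j e)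
      (fun e => if e = e₀ then 1 else 0) with ha
    have h1 := det_expand a (fun (j : Fin (N + 1)) (e : E) (l : Fin (N + 1)) => ((c j e (s' l) : ℤ) : ℂ))
    have h2 : (Matrix.of fun j l : Fin (N + 1) => R j (s' l)) =
        (Matrix.of fun j l : Fin (N + 1) => ∑ e, a j e * ((c j e (s' l) : ℤ) : ℂ)) := by
      ext j l
      simp only [Matrix.of_apply]
      refine Fin.lastCases ?_ (fun i => ?_) j
      · rw [hRl]
        have h3 : a (Fin.last N) = fun e => if e = e₀ then 1 else 0 := Fin.snoc_last (α := fun _ => E → ℂ) _ _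
        simp only [h3]
        rw [Finset.sum_eq_single e₀]
        · simp
        · intro b _ hb
          rw [if_neg hb, zero_mul]
        · intro hb
          exact absurd (Finset.mem_univ _) hb
      · rw [hRc]
        have h3 : a i.castSucc = fun e => y i e := Fin.snoc_castSucc (α := fun _ => E → ℂ) _ _ _
        simp only [h3, hV]
        rfl
    rw [h2, h1]
    refine Finset.sum_eq_zero fun e' _ => ?_
    have h3 : (Matrix.of fun j l : Fin (N + 1) => ((c j (e' j) (s' l) : ℤ) : ℂ)).det = 0 := by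
      have h4 := hfind s' e'
      have h5 := congrArg (Int.castRingHom ℂ) h4
      rw [RingHom.map_det, map_zero] at h5
      exact h5
    rw [h3, mul_zero]
  -- the bound of the entries
  set X : ℝ := Fintype.card E * H * Y with hX
  have hE1 : (1 : ℝ) ≤ Fintype.card E := by exact_mod_cast Fintype.card_pos_iff.2 ⟨e₀⟩
  have hEH : (1 : ℝ) ≤ Fintype.card E * H := one_le_mul_of_one_le_of_one_le hE1 hH
  have hX1 : 1 ≤ X := one_le_mul_of_one_le_of_one_le hEH hY
  have hHX : H ≤ X := by
    rw [hX]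
    nlinarith [mul_le_mul hE1 hY (by norm_num) (by positivity : (0:ℝ) ≤ Fintype.card E)]
  have hRX : ∀ (j : Fin (N + 1)) (t : h), ‖R j t‖ ≤ X := by
    intro j t
    refine Fin.lastCases ?_ (fun i => ?_) j
    · rw [hRl]
      simp only [Complex.norm_intCast]
      exact (hc N hNn _ _).trans hHX
    · rw [hRc]
      have hi : (i : ℕ) ≤ n := by have := i.2; omega
      calc ‖V i t‖ ≤ ∑ e, ‖y i e * (c i e t : ℂ)‖ := norm_sum_le _ _
        _ ≤ ∑ _e : E, Y * H := by
            refine Finset.sum_le_sum fun e _ => ?_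
            rw [norm_mul, Complex.norm_intCast]
            exact mul_le_mul (hy i hi e) (hc i hi e t) (abs_nonneg _) (by linarith)
        _ = X := by rw [Finset.sum_const, Finset.card_univ, nsmul_eq_mul, hX]; ring
  -- the minors
  set mi : Fin (N + 1) → ℂ := fun i => (Matrix.of fun (j : Fin N) (l : Fin N) => R (i.succAbove j) (s l)).det with hmi
  have hmib : ∀ i, ‖mi i‖ ≤ N.factorial * X ^ N := by
    intro i
    have h2 := Matrix.det_le (A := Matrix.of fun (j : Fin N) (l : Fin N) => R (i.succAbove j) (s l))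
      (abv := (IsAbsoluteValue.toAbsoluteValue (norm : ℂ → ℝ))) (x := X) (fun j l => hRX _ _)
    rw [Fintype.card_fin, nsmul_eq_mul] at h2
    exact h2
  have hsum : ∑ i : Fin (N + 1), (-1) ^ ((i : ℕ) + N) * (∑ t, ζ t * R i t) * mi i = 0 := by
    have h1 : ∀ t : h, ζ t * (∑ i : Fin (N + 1), (-1) ^ ((i : ℕ) + N) * R i t * mi i) = 0 := by
      intro t
      have h2 := hzero t
      rw [Matrix.det_succ_column _ (Fin.last N)] at h2
      have h3 : ∑ i : Fin (N + 1), (-1) ^ ((i : ℕ) + N) * R i t * mi i = 0 := by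
        rw [← h2]
        refine Finset.sum_congr rfl fun i _ => ?_
        have h4 : (Matrix.of fun j l : Fin (N + 1) => R j ((Fin.snoc s t : Fin (N + 1) → h) l)) i (Fin.last N) = R i t := by
          simp only [Matrix.of_apply]
          rw [Fin.snoc_last]
        have h5 : ((Matrix.of fun j l : Fin (N + 1) => R j ((Fin.snoc s t : Fin (N + 1) → h) l)).submatrix i.succAbove
            (Fin.last N).succAbove).det = mi i := by
          rw [hmi]
          congr 1
          ext j l
          simp only [Matrix.submatrix_apply, Matrix.of_apply, Fin.succAbove_last]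
          rw [Fin.snoc_castSucc]
        rw [h4, h5, Fin.val_last]
      rw [h3, mul_zero]
    have h2 : ∑ t, ζ t * (∑ i : Fin (N + 1), (-1) ^ ((i : ℕ) + N) * R i t * mi i) = 0 :=
      Finset.sum_eq_zero fun t _ => h1 t
    rw [← h2]
    simp only [Finset.mul_sum, Finset.sum_mul]
    rw [Finset.sum_comm]
    refine Finset.sum_congr rfl fun t _ => Finset.sum_congr rfl fun i _ => ?_
    ring
  rw [Fin.sum_univ_castSucc] at hsum
  have hlast : mi (Fin.last N) = Δ := by
    have h1 : (Matrix.of fun (j : Fin N) (l : Fin N) => R ((Fin.last N).succAbove j) (s l)) =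
        Matrix.of fun j l : Fin N => V j (s l) := by
      ext j l
      simp only [Matrix.of_apply, Fin.succAbove_last]
      rw [hRc]
    exact congrArg Matrix.det h1
  have hA : ∑ t, ζ t * R (Fin.last N) t = ∑ t, ζ t * (c N e₀ t : ℂ) := by rw [hRl]
  have hσ : ∀ j : Fin N, ∑ t, ζ t * R j.castSucc t = ∑ e, (∑ t, ζ t * (c j e t : ℂ)) * y j e := by
    intro j
    rw [hRc]
    simp only [hV, Finset.mul_sum, Finset.sum_mul]
    rw [Finset.sum_comm]
    refine Finset.sum_congr rfl fun e _ => Finset.sum_congr rfl fun t _ => ?_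
    ring
  have hKN : 0 < K N := hK0 N hNn
  have hb1 : ‖∑ t, ζ t * (c N e₀ t : ℂ)‖ * ‖Δ‖ ≤ N * (δ * K N * (N.factorial * X ^ N)) := by
    have h1 : (-1 : ℂ) ^ (((Fin.last N : Fin (N + 1)) : ℕ) + N) * (∑ t, ζ t * R (Fin.last N) t) * mi (Fin.last N) =
        -∑ i : Fin N, (-1) ^ ((i.castSucc : ℕ) + N) * (∑ t, ζ t * R i.castSucc t) * mi i.castSucc := by
      linear_combination hsum
    have h2 := congrArg norm h1
    rw [norm_mul, norm_mul, norm_pow, norm_neg, norm_one, one_pow, one_mul, hlast, hA, norm_neg] at h2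
    rw [h2]
    refine (norm_sum_le _ _).trans ?_
    calc ∑ i : Fin N, ‖(-1) ^ ((i.castSucc : ℕ) + N) * (∑ t, ζ t * R i.castSucc t) * mi i.castSucc‖ ≤
          ∑ _i : Fin N, δ * K N * (N.factorial * X ^ N) := by
          refine Finset.sum_le_sum fun i _ => ?_
          rw [norm_mul, norm_mul, norm_pow, norm_neg, norm_one, one_pow, one_mul, hσ]
          have hi : (i : ℕ) ≤ n := by have := i.2; omega
          refine mul_le_mul ((hs i hi).trans (mul_le_mul_of_nonneg_left (hKm i N (by have := i.2; omega) hNn) hδ)) (hmib _)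
            (norm_nonneg _) (by positivity)
      _ = _ := by rw [Finset.sum_const, Finset.card_univ, Fintype.card_fin, nsmul_eq_mul]
  have hb2 : K N * L ≤ K N * (n * (n.factorial * X ^ n) * δ) := by
    calc K N * L ≤ K N * ‖Δ‖ := mul_le_mul_of_nonneg_left hΔL hKN.le
      _ ≤ ‖∑ t, ζ t * (c N e₀ t : ℂ)‖ * ‖Δ‖ := mul_le_mul_of_nonneg_right he₀ (norm_nonneg _)
      _ ≤ N * (δ * K N * (N.factorial * X ^ N)) := hb1
      _ = K N * (N * (N.factorial * X ^ N) * δ) := by ring
      _ ≤ K N * (n * (n.factorial * X ^ n) * δ) := by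
          refine mul_le_mul_of_nonneg_left ?_ hKN.le
          refine mul_le_mul_of_nonneg_right ?_ hδ
          have h1 : (N : ℝ) ≤ n := by exact_mod_cast hNn
          have h2 : (N.factorial : ℝ) ≤ n.factorial := by exact_mod_cast Nat.factorial_le hNn
          have h3 : X ^ N ≤ X ^ n := pow_le_pow_right₀ hX1 hNn
          exact mul_le_mul h1 (mul_le_mul h2 h3 (by positivity) (by positivity)) (by positivity) (by positivity)
  exact le_of_mul_le_mul_left hb2 hKN

end Pool.Agent.Q246.LN
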