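import Pool.Agent.Y118.UL.Vli
import Pool.Agent.Y356.AF.Rk

/-!
# Linear independence of products of values at several points
-/

set_option autoImplicit false

open AlgebraicIndependent

namespace Pool.Agent.Q246.LN

section
variable {Ω τ τ' : Type} [Field Ω] [Fintype τ] [Fintype τ']

/-- linear independence over a subfield -/
def LIs (L : Subfield Ω) (u : τ → Ω) : Prop := ∀ c : τ → Ω, (∀ t, c t ∈ L) → ∑ t, c t * u t = 0 → ∀ t, c t = 0

lemma LIs.prod {L L' : Subfield Ω} (h : L ≤ L') {u : τ → Ω} (hu : ∀ t, u t ∈ L') (hL : LIs L u) {v : τ' → Ω}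
    (hv : LIs L' v) : LIs L (fun p : τ × τ' => u p.1 * v p.2) := by
  intro c hc hsum p
  have h1 : ∑ t', (∑ t, c (t, t') * u t) * v t' = 0 := by
    rw [← hsum, Fintype.sum_prod_type, Finset.sum_comm]
    refine Finset.sum_congr rfl fun t' _ => ?_
    rw [Finset.sum_mul]
    refine Finset.sum_congr rfl fun t _ => ?_
    ring
  have h2 := hv (fun t' => ∑ t, c (t, t') * u t) (fun t' => L'.sum_mem fun t _ => L'.mul_mem (h (hc _)) (hu t)) h1 p.2
  exact hL (fun t => c (t, p.2)) (fun t => hc _) h2 p.1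

lemma LIs.equiv {L : Subfield Ω} {u : τ → Ω} (hL : LIs L u) (e : τ' ≃ τ) : LIs L (fun t => u (e t)) := by
  intro c hc hsum t
  have h1 := hL (fun s => c (e.symm s)) (fun s => hc _) (by
    rw [← hsum, ← e.sum_comp]
    refine Finset.sum_congr rfl fun t _ => ?_
    rw [e.symm_apply_apply]) (e t)
  simpa using h1

theorem tower (N : ℕ) : ∀ (L : Fin (N + 1) → Subfield Ω) (_ : Monotone L) (u : Fin N → τ → Ω)
    (_ : ∀ l t, u l t ∈ L l.succ) (_ : ∀ l, LIs (L l.castSucc) (u l)),
    LIs (L 0) (fun p : Fin N → τ => ∏ l, u l (p l)) := by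
  induction N with
  | zero =>
    intro L _ u _ _ c _ hsum p
    rw [Fintype.sum_subsingleton _ p] at hsum
    simpa using hsum
  | succ N ih =>
    intro L hL u hu hli
    have h1 := ih (fun l => L l.castSucc) (fun a b hab => hL (by simpa using hab)) (fun l => u l.castSucc)
      (fun l t => hu l.castSucc t) (fun l => hli l.castSucc)
    have h2 := h1.prod (L' := L (Fin.last N).castSucc) (hL (Fin.zero_le _)) (fun p => Subfield.prod_mem _ fun l _ => by
      have h3 := hu l.castSucc (p l)
      refine hL ?_ h3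
      rw [Fin.le_def]
      simp) (hli (Fin.last N))
    have h3 := h2.equiv ((Fin.snocEquiv (fun _ : Fin (N + 1) => τ)).symm.trans (Equiv.prodComm _ _))
    intro c hc hsum
    refine h3 c hc ?_
    rw [← hsum]
    refine Finset.sum_congr rfl fun t _ => ?_
    have h4 : ∏ l, u l (t l) = (∏ i : Fin N, u i.castSucc (t i.castSucc)) * u (Fin.last N) (t (Fin.last N)) :=
      Fin.prod_univ_castSucc _
    show _ = c t * ∏ l, u l (t l)
    rw [h4]
    rfl

end

section
variable {F Ω : Type} [Field F] [Field Ω] [Algebra F Ω]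

/-- the elements which are algebraic over the field generated by `S` -/
def LF (F : Type) {Ω : Type} [Field F] [Field Ω] [Algebra F Ω] (S : Set Ω) : Subfield Ω where
  carrier := {a | IsAlgebraic (Algebra.adjoin F S) a}
  mul_mem' := fun ha hb => IsAlgebraic.mul ha hb
  one_mem' := isAlgebraic_one
  add_mem' := fun ha hb => IsAlgebraic.add ha hb
  zero_mem' := isAlgebraic_zero
  neg_mem' := fun ha => IsAlgebraic.neg ha
  inv_mem' := fun _ ha => IsAlgebraic.inv ha

lemma mem_LF {S : Set Ω} {a : Ω} : a ∈ LF F S ↔ IsAlgebraic (Algebra.adjoin F S) a := Iff.rfl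

lemma subset_LF {S : Set Ω} {a : Ω} (ha : a ∈ S) : a ∈ LF F S :=
  isAlgebraic_algebraMap (⟨a, Algebra.subset_adjoin ha⟩ : Algebra.adjoin F S)

lemma alg_LF {S : Set Ω} {a : Ω} (ha : IsAlgebraic F a) : a ∈ LF F S := by
  have h1 : IsAlgebraic (Algebra.adjoin F S) a := ha.extendScalars (algebraMap F (Algebra.adjoin F S)).injective
  exact h1

lemma base_LF {S : Set Ω} (c : F) : algebraMap F Ω c ∈ LF F S := alg_LF (isAlgebraic_algebraMap c)

lemma LF_mono {S T : Set Ω} (h : S ⊆ T) : LF F S ≤ LF F T := by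
  intro a ha
  have h1 : IsAlgebraic (Algebra.adjoin F S) a := ha
  have hle : Algebra.adjoin F S ≤ Algebra.adjoin F T := Algebra.adjoin_mono h
  obtain ⟨p, hp, hpa⟩ := h1
  refine ⟨p.map (Subalgebra.inclusion hle).toRingHom, ?_, ?_⟩
  · exact (Polynomial.map_ne_zero_iff (Subalgebra.inclusion_injective hle)).2 hp
  · rw [Polynomial.aeval_def, Polynomial.eval₂_map]
    exact hpa

lemma mem_LF_closure {S : Set Ω} {a : Ω} : a ∈ LF F S ↔ a ∈ (matroid F Ω).closure S := by
  rw [matroid_closure_eq]
  exact Iff.rfl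

/-- independence over the algebraic closure of the field generated by other elements -/
lemma free_LF {κ τ : Type} {f : κ → Ω} (hf : AlgebraicIndependent F f) (s : Set κ) (g : τ → κ)
    (hg : Function.Injective g) (hs : ∀ a, g a ∉ s) (p : MvPolynomial τ (LF F (f '' s)))
    (hp : p.eval₂ (LF F (f '' s)).subtype (fun a => f (g a)) = 0) : p = 0 := by
  have hdis : Disjoint s (Set.range g) := by
    rw [Set.disjoint_right]
    rintro _ ⟨a, rfl⟩
    exact hs a
  have h1 := hf.adjoin_of_disjoint hdis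
  have h2 : AlgebraicIndependent (Algebra.adjoin F (f '' s)) (fun a => f (g a)) :=
    h1.comp (fun a : τ => (⟨g a, ⟨a, rfl⟩⟩ : Set.range g)) fun a b hab => hg (congrArg Subtype.val hab)
  let ι : Algebra.adjoin F (f '' s) →+* LF F (f '' s) :=
    { toFun := fun a => ⟨a, isAlgebraic_algebraMap a⟩
      map_one' := rfl
      map_mul' := fun _ _ => rfl
      map_zero' := rfl
      map_add' := fun _ _ => rfl }
  let _ : Algebra (Algebra.adjoin F (f '' s)) (LF F (f '' s)) := ι.toAlgebra
  have : IsScalarTower (Algebra.adjoin F (f '' s)) (LF F (f '' s)) Ω := .of_algebraMap_eq fun _ => rfl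
  have : Algebra.IsAlgebraic (Algebra.adjoin F (f '' s)) (LF F (f '' s)) := ⟨fun y => by
    have h3 : IsAlgebraic (Algebra.adjoin F (f '' s)) (y : Ω) := y.2
    rw [← isAlgebraic_algHom_iff (IsScalarTower.toAlgHom (Algebra.adjoin F (f '' s)) (LF F (f '' s)) Ω)
      Subtype.val_injective]
    exact h3⟩
  have h3 := h2.extendScalars (LF F (f '' s))
  exact algebraicIndependent_iff.1 h3 p hp

end

section
open Pool.Agent.Y118.UL Pool.Agent.Y916.Af

variable {F Ω : Type} [Field F] [Field Ω] [Algebra F Ω] [Algebra ℚ Ω]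

theorem li_points {r : ℕ} {h : Fin r → PowerSeries ℚ} {I : Finset (Fin r)} (hFree : Free h I) (hc : Conn h) (N : ℕ)
    (x : Fin N → Ω) (z : Fin N → Option (Fin r) → Ω) (hx : ∀ l, IsAlgebraic F (x l))
    (hx0 : ∀ l, ∀ c : Polynomial ℚ, c ≠ 0 → Polynomial.aeval (x l) c ≠ 0)
    (hrel : ∀ l, ∀ R : MvPolynomial (Fin r) (Polynomial ℚ), MvPolynomial.aeval h R = 0 →
      MvPolynomial.eval₂ (Polynomial.aeval (x l) : Polynomial ℚ →ₐ[ℚ] Ω).toRingHom (fun j => z l (some j)) R = 0)
    (hind : AlgebraicIndependent F (fun p : Fin N × Option I => z p.1 (p.2.map Subtype.val)))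
    {ι : Type} [Fintype ι] (Q : ι → MvPolynomial (Fin r) (Polynomial ℚ))
    (hQ : ∀ (s : Finset ι) (c : ι → Polynomial ℚ), ∑ l ∈ s, algebraMap _ (PowerSeries ℚ) (c l) * MvPolynomial.aeval h (Q l) = 0 →
      ∀ l ∈ s, c l = 0) (δ : ℕ) :
    LIs (LF F (∅ : Set Ω)) (fun p : Fin N → Fin (δ + 1) × ι => ∏ l, (z l none ^ ((p l).1 : ℕ) *
      MvPolynomial.eval₂ (Polynomial.aeval (x l) : Polynomial ℚ →ₐ[ℚ] Ω).toRingHom (fun j => z l (some j)) (Q (p l).2))) := by
  classical
  have hchar : CharZero Ω := algebraRat.charZero Ω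
  have hcharF : CharZero F := (algebraMap F Ω).charZero
  set f : Fin N × Option I → Ω := fun p => z p.1 (p.2.map Subtype.val) with hf
  have hxA : ∀ (l : Fin N) (c : Polynomial ℚ), IsAlgebraic F (Polynomial.aeval (x l) c) := by
    intro l c
    induction c using Polynomial.induction_on' with
    | add p q hp hq =>
      rw [map_add]
      exact hp.add hq
    | monomial n q =>
      rw [Polynomial.aeval_monomial]
      refine IsAlgebraic.mul ?_ ((hx l).pow n)
      have e : algebraMap ℚ Ω q = algebraMap F Ω (q : F) := by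
        rw [map_ratCast, eq_ratCast]
      rw [e]
      exact isAlgebraic_algebraMap _
  -- all coordinates of a point
  have hall : ∀ l s, z l (some s) ∈ LF F (f '' {p | p.1 = l ∧ p.2 ≠ none}) := by
    intro l
    let _ : Algebra (Polynomial ℚ) Ω := (Polynomial.aeval (x l) : Polynomial ℚ →ₐ[ℚ] Ω).toRingHom.toAlgebra
    have : FaithfulSMul (Polynomial ℚ) Ω := (faithfulSMul_iff_algebraMap_injective _ _).2
      ((injective_iff_map_eq_zero _).2 fun c hc => by_contra fun h0 => hx0 l c h0 hc)
    have : FaithfulSMul (Polynomial ℚ) (PowerSeries ℚ) :=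
      (faithfulSMul_iff_algebraMap_injective _ _).2 (Polynomial.coe_injective ℚ)
    have h1 := Pool.Agent.Y356.AF.one_point (R := Polynomial ℚ) (A := PowerSeries ℚ) (F := F) (Ω := Ω) (fun c => ?_) h I
      hFree.1 hFree.2 (fun j => z l (some j)) (fun P hP => hrel l P hP)
    · have hsub : AlgebraicIndependent F (fun i : I => z l (some (i : Fin r))) :=
        hind.comp (fun i : I => (l, some i)) fun a b hab => by
          simp only [Prod.mk.injEq, Option.some.injEq, true_and] at hab
          exact hab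
      have h2 : (matroid F Ω).Indep (Set.range fun i : I => z l (some (i : Fin r))) :=
        matroid_indep_iff.2 hsub.to_subtype_range
      have h3 : (Set.range fun i : I => z l (some (i : Fin r))).encard = I.card := by
        rw [← Set.image_univ, hsub.injective.injOn.encard_image, Set.encard_univ, ENat.card_eq_coe_fintype_card,
          Fintype.card_coe]
      have h4 : ((I.card : ℕ) : ℕ∞) ≤ (matroid F Ω).eRk (Set.range fun j => z l (some j)) := by
        rw [← h3]
        refine h2.encard_le_eRk_of_subset ?_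
        rintro _ ⟨i, rfl⟩
        exact ⟨i, rfl⟩
      intro s
      have h5 := h1.2 (le_antisymm h1.1 h4) s
      rw [mem_LF_closure]
      refine (matroid F Ω).closure_subset_closure ?_ h5
      rintro _ ⟨i, hi, rfl⟩
      exact ⟨(l, some ⟨i, hi⟩), ⟨rfl, by simp⟩, rfl⟩
    · exact hxA l c
  have hev : ∀ (L : Subfield Ω) (l : Fin N), (∀ c : Polynomial ℚ, Polynomial.aeval (x l) c ∈ L) → (∀ s, z l (some s) ∈ L) →
      ∀ P : MvPolynomial (Fin r) (Polynomial ℚ),
      MvPolynomial.eval₂ (Polynomial.aeval (x l) : Polynomial ℚ →ₐ[ℚ] Ω).toRingHom (fun j => z l (some j)) P ∈ L := by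
    intro L l hL1 hL2 P
    induction P using MvPolynomial.induction_on with
    | C c =>
      rw [MvPolynomial.eval₂_C]
      exact hL1 c
    | add p q hp hq =>
      rw [MvPolynomial.eval₂_add]
      exact L.add_mem hp hq
    | mul_X p j hp =>
      rw [MvPolynomial.eval₂_mul, MvPolynomial.eval₂_X]
      exact L.mul_mem hp (hL2 j)
  obtain ⟨L, hL⟩ : ∃ L : Fin (N + 1) → Subfield Ω, ∀ l, L l = LF F (f '' {p : Fin N × Option I | (p.1 : ℕ) < (l : ℕ)}) :=
    ⟨_, fun _ => rfl⟩
  have hmono : Monotone L := by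
    intro a b hab
    rw [hL, hL]
    refine LF_mono (Set.image_mono ?_)
    intro p hp
    have hp' : (p.1 : ℕ) < (a : ℕ) := hp
    have hab' : (a : ℕ) ≤ (b : ℕ) := hab
    exact lt_of_lt_of_le hp' hab'
  have hL0 : L 0 = LF F (∅ : Set Ω) := by
    have h0 : f '' {p : Fin N × Option I | (p.1 : ℕ) < ((0 : Fin (N + 1)) : ℕ)} = ∅ := by
      rw [Set.image_eq_empty, Set.eq_empty_iff_forall_notMem]
      intro p hp
      exact absurd hp (Nat.not_lt_zero _)
    rw [hL, h0]
  have hfin := tower N L hmono (fun l (t : Fin (δ + 1) × ι) => z l none ^ (t.1 : ℕ) *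
      MvPolynomial.eval₂ (Polynomial.aeval (x l) : Polynomial ℚ →ₐ[ℚ] Ω).toRingHom (fun j => z l (some j)) (Q t.2)) ?_ ?_
  · rw [← hL0]
    exact hfin
  · intro l t
    have h1 : z l none ∈ L l.succ := by
      rw [hL]
      refine subset_LF (F := F) ⟨(l, none), ?_, rfl⟩
      show (l : ℕ) < (l.succ : ℕ)
      rw [Fin.val_succ]
      omega
    have h2 : ∀ s, z l (some s) ∈ L l.succ := by
      intro s
      rw [hL]
      refine LF_mono (Set.image_mono ?_) (hall l s)
      rintro p ⟨hp, -⟩
      show (p.1 : ℕ) < (l.succ : ℕ)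
      rw [hp, Fin.val_succ]
      omega
    have h3 : ∀ c : Polynomial ℚ, Polynomial.aeval (x l) c ∈ L l.succ := by
      intro c
      rw [hL]
      exact alg_LF (hxA l c)
    exact (L l.succ).mul_mem ((L l.succ).pow_mem h1 _) (hev (L l.succ) l h3 h2 _)
  · intro l
    obtain ⟨S, hS⟩ : ∃ S : Set (Fin N × Option I), S = {p | (p.1 : ℕ) < (l : ℕ)} := ⟨_, rfl⟩
    obtain ⟨S', hS'⟩ : ∃ S' : Set (Fin N × Option I), S' = {p | (p.1 : ℕ) < (l : ℕ) ∨ p = (l, none)} := ⟨_, rfl⟩
    have hLS : L l.castSucc = LF F (f '' S) := by rw [hL, hS, Fin.val_castSucc]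
    have hSS' : S ⊆ S' := by
      rw [hS, hS']
      exact fun p hp => Or.inl hp
    have hnS : (l, none) ∉ S := by
      rw [hS]
      intro h0
      have h1 : (l : ℕ) < (l : ℕ) := h0
      exact lt_irrefl _ h1
    have hnS' : (l, none) ∈ S' := by
      rw [hS']
      exact Or.inr rfl
    have hsS' : ∀ i : I, (l, some i) ∉ S' := by
      rw [hS']
      rintro i (h0 | h0)
      · have h1 : (l : ℕ) < (l : ℕ) := h0
        exact lt_irrefl _ h1
      · simp at h0
    clear hS hS'
    rw [hLS]
    have hpow : LIs (LF F (f '' S)) (fun a : Fin (δ + 1) => z l none ^ (a : ℕ)) := by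
      intro c hcL hsum a
      have h1 := free_LF hind S (fun _ : Unit => (l, none)) (fun _ _ _ => rfl) (fun _ => hnS)
        (∑ a : Fin (δ + 1), MvPolynomial.monomial (Finsupp.single () (a : ℕ)) ⟨c a, hcL a⟩) (by
        rw [MvPolynomial.eval₂_sum, ← hsum]
        refine Finset.sum_congr rfl fun a _ => ?_
        rw [MvPolynomial.eval₂_monomial]
        have h7 : ((Finsupp.single () (a : ℕ)).prod fun (n : Unit) (e : ℕ) => f ((fun _ : Unit => (l, none)) n) ^ e) =
            f (l, none) ^ (a : ℕ) := Finsupp.prod_single_index (pow_zero _)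
        rw [h7]
        rfl)
      have h2 := congrArg (MvPolynomial.coeff (Finsupp.single () (a : ℕ))) h1
      rw [MvPolynomial.coeff_sum, MvPolynomial.coeff_zero, Finset.sum_eq_single a] at h2
      · rw [MvPolynomial.coeff_monomial, if_pos rfl] at h2
        exact congrArg Subtype.val h2
      · intro b _ hb
        rw [MvPolynomial.coeff_monomial, if_neg]
        intro h3
        exact hb (Fin.ext (Finsupp.single_injective () h3))
      · intro h3
        exact absurd (Finset.mem_univ _) h3
    have hfun : LIs (LF F (f '' S')) (fun i : ι =>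
        MvPolynomial.eval₂ (Polynomial.aeval (x l) : Polynomial ℚ →ₐ[ℚ] Ω).toRingHom (fun j => z l (some j)) (Q i)) := by
      intro c hcL hsum i
      exact val_li hc hFree.1 hFree.2 (Polynomial.aeval (x l) : Polynomial ℚ →ₐ[ℚ] Ω).toRingHom
        ((injective_iff_map_eq_zero _).2 fun c hc => by_contra fun h0 => hx0 l c h0 hc) (fun j => z l (some j)) (hrel l)
        (LF F (f '' S')) (fun c => alg_LF (hxA l c)) (fun p hp => free_LF hind S' (fun i : I => (l, some i)) (fun a b hab => by
          simp only [Prod.mk.injEq, Option.some.injEq, true_and] at hab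
          exact hab) hsS' p hp) Q hQ Finset.univ c hcL hsum i (Finset.mem_univ _)
    have hlam : z l none ∈ LF F (f '' S') := subset_LF (F := F) ⟨(l, none), hnS', rfl⟩
    exact LIs.prod (LF_mono (Set.image_mono hSS')) (fun a => Subfield.pow_mem _ hlam _) hpow hfun

end

end Pool.Agent.Q246.LN
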