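import Pool.Agent.Q246.LN.Elim
import Pool.Agent.Q246.NR2.Win

/-!
# Windows: few near relations, linear version
-/

set_option autoImplicit false

open Module

namespace Pool.Agent.Q246.LN

open Pool.Agent.Q246.NR Pool.Agent.Q246.NR2 Pool.Agent.Y916.Al

/-- a measure of linear independence -/
def LowL {ε : Type} [Fintype ε] (v : ε → ℂ) (B : ℕ) : Prop :=
  ∃ H₀ : ℝ, ∀ H : ℝ, H₀ ≤ H → ∀ a : ε → ℤ, a ≠ 0 → (∀ e, |((a e : ℤ) : ℝ)| ≤ H) → 1 ≤ H ^ B * ‖∑ e, (a e : ℂ) * v e‖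

/-- the input: measures of linear independence for the products of the numbers `val ξ g e`, for several small shifts `g`
of a point `ξ` of a number field -/
def InpL {E : Type} [Fintype E] (val : ℂ → ℕ → E → ℂ) : Prop :=
  ∀ N d A : ℕ, ∃ E₁ B : ℕ, ∀ (J : ℕ) (K : IntermediateField ℚ ℂ) (ξ : K) (X : ℝ), FiniteDimensional ℚ K →
    finrank ℚ K ≤ d → Pt K ξ X → ((J : ℝ) + 2) ^ E₁ ≤ ‖(ξ : ℂ)‖ → X ≤ ‖(ξ : ℂ)‖ ^ A →
    ∀ g : Fin N → ℕ, Function.Injective g → (∀ l, 1 ≤ g l ∧ g l ≤ J) →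
    LowL (fun e : Fin N → E => ∏ l, val ξ (g l) (e l)) B

/-- the link: the numbers `Y` at the point `ξ + G g` are combinations of the numbers `val ξ g`, with coefficients in the
span of constants `u` -/
def LinkL {E E' : Type} [Fintype E] [Fintype E'] (val : ℂ → ℕ → E → ℂ) (Y : ℂ → E' → ℂ) (Dm : ℂ → Prop) (G : ℤ)
    (υ : Type) [Fintype υ] (m E₀ : ℕ) : Prop :=
  ∀ (K : IntermediateField ℚ ℂ) (ξ : K), FiniteDimensional ℚ K → finrank ℚ K ≤ m → ∃ u : υ → ℂ,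
    ∀ g : ℕ, 1 ≤ g → ((g : ℝ) + 2) ^ E₀ ≤ ‖(ξ : ℂ)‖ → Dm ((ξ : ℂ) + G * g) →
    ∃ F : E' → E → υ → ℤ, (∀ A : E' → ℂ, (∀ e, ∑ e', A e' * ∑ j, (F e' e j : ℂ) * u j = 0) → A = 0) ∧
      ∀ e', Y ((ξ : ℂ) + G * g) e' = ∑ e, (∑ j, (F e' e j : ℂ) * u j) * val ξ g e

/-- near relations whose coefficients are polynomials in the point, with constants `ζ` -/
def RelP {h E : Type} [Fintype h] [Fintype E] (D : ℕ) (ζ : h → ℂ) (Y : ℂ → E → ℂ) (z : ℂ) (H δ : ℝ) : Prop :=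
  RelA (fun p : h × Fin (D + 1) => ζ p.1 * z ^ (p.2 : ℕ)) (Y z) H δ

/-- few points of a progression satisfy near relations -/
def WinL {E : Type} [Fintype E] (Y : ℂ → E → ℂ) (Dm : ℂ → Prop) (G : ℤ) (m : ℕ) : Prop :=
  ∀ D n A : ℕ, ∃ M E₁ B : ℕ, ∀ (J : ℕ) (K : IntermediateField ℚ ℂ) (ξ : K) (X : ℝ), FiniteDimensional ℚ K →
    finrank ℚ K ≤ m → Pt K ξ X → ((J : ℝ) + 2) ^ E₁ ≤ ‖(ξ : ℂ)‖ → X ≤ ‖(ξ : ℂ)‖ ^ A → ∃ H₀ : ℝ, ∀ H : ℝ, H₀ ≤ H →
    ∀ (h : Type) [Fintype h], Fintype.card h = n → ∀ ζ : h → ℂ, ∀ S : Finset ℕ,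
      (∀ g ∈ S, 1 ≤ g ∧ g ≤ J ∧ Dm ((ξ : ℂ) + G * g) ∧ RelP D ζ Y ((ξ : ℂ) + G * g) H (H ^ B)⁻¹) → S.card ≤ M

/-- substitution in the constants -/
lemma rel_subst {h h' ι : Type} [Fintype h] [Fintype h'] [Fintype ι] {ξ : h → ℂ} {ξ' : h' → ℂ} (Nm : h' → h → ℤ)
    (hN : ∀ s', ξ' s' = ∑ s, (Nm s' s : ℂ) * ξ s) (Λ : ℝ) (hΛ : ∀ s, ∑ s', |((Nm s' s : ℤ) : ℝ)| ≤ Λ) {g : ι → ℂ}
    {H δ : ℝ} (hH : 0 ≤ H) (hr : RelA ξ' g H δ) : RelA ξ g (Λ * H) δ := by
  obtain ⟨c, hc, l₀, hl₀, hs⟩ := hr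
  have hA : ∀ l, ∑ s, ξ s * ((∑ s', c l s' * Nm s' s : ℤ) : ℂ) = ∑ s', ξ' s' * (c l s' : ℂ) := by
    intro l
    simp only [hN, Finset.sum_mul]
    rw [Finset.sum_comm]
    refine Finset.sum_congr rfl fun s _ => ?_
    push_cast
    rw [Finset.mul_sum]
    refine Finset.sum_congr rfl fun s' _ => ?_
    ring
  refine ⟨fun l s => ∑ s', c l s' * Nm s' s, fun l s => ?_, l₀, ?_, ?_⟩
  · push_cast
    refine (Finset.abs_sum_le_sum_abs _ _).trans ?_
    calc ∑ s', |((c l s' : ℤ) : ℝ) * ((Nm s' s : ℤ) : ℝ)| ≤ ∑ s', |((Nm s' s : ℤ) : ℝ)| * H := by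
          refine Finset.sum_le_sum fun s' _ => ?_
          rw [abs_mul, mul_comm]
          exact mul_le_mul_of_nonneg_left (hc l s') (abs_nonneg _)
      _ = (∑ s', |((Nm s' s : ℤ) : ℝ)|) * H := by rw [Finset.sum_mul]
      _ ≤ Λ * H := mul_le_mul_of_nonneg_right (hΛ s) hH
  · rw [hA]
    exact hl₀
  · simp only [hA]
    exact hs

/-- change of the functions -/
lemma rel_link {E E' υ : Type} [Fintype E] [Fintype E'] [Fintype υ] (F : E' → E → υ → ℤ) (u : υ → ℂ)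
    (hinj : ∀ A : E' → ℂ, (∀ e, ∑ e', A e' * ∑ j, (F e' e j : ℂ) * u j = 0) → A = 0) : ∃ Λ : ℝ, 1 ≤ Λ ∧
    ∀ (h : Type) [Fintype h] (ζ : h → ℂ) (Yv : E' → ℂ) (v : E → ℂ),
      (∀ e', Yv e' = ∑ e, (∑ j, (F e' e j : ℂ) * u j) * v e) → ∀ H δ : ℝ, 0 ≤ H → 0 ≤ δ →
      RelA ζ Yv H δ → RelA (fun p : h × υ => ζ p.1 * u p.2) v (Λ * H) (δ * Λ) := by
  classical
  -- the left inverse
  let f : (E' → ℂ) →ₗ[ℂ] (E → ℂ) :=
    { toFun := fun A e => ∑ e', A e' * ∑ j, (F e' e j : ℂ) * u j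
      map_add' := fun A B => by
        funext e
        simp only [Pi.add_apply, add_mul, Finset.sum_add_distrib]
      map_smul' := fun t A => by
        funext e
        simp only [Pi.smul_apply, smul_eq_mul, RingHom.id_apply, Finset.mul_sum]
        refine Finset.sum_congr rfl fun e' _ => ?_
        refine Finset.sum_congr rfl fun j _ => ?_
        ring }
  have hf : LinearMap.ker f = ⊥ := by
    rw [LinearMap.ker_eq_bot']
    intro A hA
    exact hinj A fun e => congrFun hA e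
  obtain ⟨g, hg⟩ := LinearMap.exists_leftInverse_of_injective f hf
  set Λ : ℝ := 1 + ∑ e : E, ∑ e' : E', ‖g (Pi.single e 1) e'‖ + ∑ e' : E', ∑ e : E, ∑ j : υ, |((F e' e j : ℤ) : ℝ)|
    with hΛ
  have hΛ1 : 0 ≤ ∑ e : E, ∑ e' : E', ‖g (Pi.single e 1) e'‖ :=
    Finset.sum_nonneg fun _ _ => Finset.sum_nonneg fun _ _ => norm_nonneg _
  have hΛ2 : 0 ≤ ∑ e' : E', ∑ e : E, ∑ j : υ, |((F e' e j : ℤ) : ℝ)| :=
    Finset.sum_nonneg fun _ _ => Finset.sum_nonneg fun _ _ => Finset.sum_nonneg fun _ _ => abs_nonneg _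
  refine ⟨Λ, by rw [hΛ]; linarith, fun h _ ζ Yv v hYv H δ hH hδ hr => ?_⟩
  obtain ⟨c, hc, e₀, he₀, hs⟩ := hr
  set A : E' → ℂ := fun e' => ∑ s, ζ s * (c e' s : ℂ) with hA
  set c' : E → h × υ → ℤ := fun e p => ∑ e', c e' p.1 * F e' e p.2 with hc'
  have hA' : ∀ e, ∑ p : h × υ, (ζ p.1 * u p.2) * (c' e p : ℂ) = f A e := by
    intro e
    show _ = ∑ e', A e' * ∑ j, (F e' e j : ℂ) * u j
    simp only [hc', hA]
    push_cast
    simp only [Finset.mul_sum, Finset.sum_mul]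
    rw [Finset.sum_comm]
    refine Finset.sum_congr rfl fun e' _ => ?_
    rw [Fintype.sum_prod_type, Finset.sum_comm]
    refine Finset.sum_congr rfl fun j _ => ?_
    refine Finset.sum_congr rfl fun s _ => ?_
    ring
  have hgA : g (f A) = A := LinearMap.congr_fun hg A
  have hexp : ∀ e', A e' = ∑ e, f A e * g (Pi.single e 1) e' := by
    intro e'
    conv_lhs => rw [← hgA]
    have h1 : f A = ∑ e, f A e • (Pi.single e (1 : ℂ) : E → ℂ) := by
      funext e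
      rw [Finset.sum_apply, Finset.sum_eq_single e]
      · simp
      · intro b _ hb
        simp [Pi.single_eq_of_ne hb.symm]
      · intro hb
        exact absurd (Finset.mem_univ _) hb
    conv_lhs => rw [h1]
    rw [map_sum, Finset.sum_apply]
    refine Finset.sum_congr rfl fun e _ => ?_
    rw [map_smul]
    rfl
  have hne : Nonempty E := by
    by_contra hemp
    rw [not_nonempty_iff] at hemp
    apply he₀
    have := hexp e₀
    rw [Fintype.sum_empty] at this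
    exact this
  obtain ⟨e₁, -, he₁⟩ := Finset.exists_max_image (Finset.univ : Finset E) (fun e => ‖f A e‖) Finset.univ_nonempty
  have hbig : ‖A e₀‖ ≤ Λ * ‖f A e₁‖ := by
    rw [hexp e₀]
    refine (norm_sum_le _ _).trans ?_
    calc ∑ e, ‖f A e * g (Pi.single e 1) e₀‖ ≤ ∑ e, ‖f A e₁‖ * ∑ e', ‖g (Pi.single e 1) e'‖ := by
          refine Finset.sum_le_sum fun e _ => ?_
          rw [norm_mul]
          refine mul_le_mul (he₁ e (Finset.mem_univ _)) ?_ (norm_nonneg _) (norm_nonneg _)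
          exact Finset.single_le_sum (f := fun e' => ‖g (Pi.single e 1) e'‖) (fun _ _ => norm_nonneg _) (Finset.mem_univ e₀)
      _ = (∑ e, ∑ e', ‖g (Pi.single e 1) e'‖) * ‖f A e₁‖ := by rw [← Finset.mul_sum, mul_comm]
      _ ≤ Λ * ‖f A e₁‖ := mul_le_mul_of_nonneg_right (by rw [hΛ]; linarith) (norm_nonneg _)
  have hA0 : 0 < ‖A e₀‖ := norm_pos_iff.2 he₀
  refine ⟨c', fun e p => ?_, e₁, ?_, ?_⟩
  · simp only [hc']
    push_cast
    refine (Finset.abs_sum_le_sum_abs _ _).trans ?_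
    calc ∑ e', |((c e' p.1 : ℤ) : ℝ) * ((F e' e p.2 : ℤ) : ℝ)| ≤ ∑ e' : E', (∑ e : E, ∑ j : υ, |((F e' e j : ℤ) : ℝ)|) * H := by
          refine Finset.sum_le_sum fun e' _ => ?_
          rw [abs_mul, mul_comm]
          refine mul_le_mul ?_ (hc e' p.1) (abs_nonneg _)
            (Finset.sum_nonneg fun _ _ => Finset.sum_nonneg fun _ _ => abs_nonneg _)
          exact (Finset.single_le_sum (f := fun j => |((F e' e j : ℤ) : ℝ)|) (fun _ _ => abs_nonneg _)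
            (Finset.mem_univ p.2)).trans (Finset.single_le_sum (f := fun e => ∑ j : υ, |((F e' e j : ℤ) : ℝ)|)
            (fun _ _ => Finset.sum_nonneg fun _ _ => abs_nonneg _) (Finset.mem_univ e))
      _ = (∑ e' : E', ∑ e : E, ∑ j : υ, |((F e' e j : ℤ) : ℝ)|) * H := by rw [Finset.sum_mul]
      _ ≤ Λ * H := mul_le_mul_of_nonneg_right (by rw [hΛ]; linarith) hH
  · rw [hA']
    intro h0
    rw [h0, norm_zero, mul_zero] at hbig
    linarith
  · simp only [hA']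
    have h1 : ∑ e, f A e * v e = ∑ e', A e' * Yv e' := by
      simp only [hYv]
      show ∑ e, (∑ e', A e' * ∑ j, (F e' e j : ℂ) * u j) * v e = _
      simp only [Finset.mul_sum (s := (Finset.univ : Finset E)), Finset.sum_mul (s := (Finset.univ : Finset E'))]
      rw [Finset.sum_comm]
      refine Finset.sum_congr rfl fun e' _ => Finset.sum_congr rfl fun e _ => ?_
      ring
    rw [h1]
    refine hs.trans ?_
    rw [mul_assoc]
    exact mul_le_mul_of_nonneg_left hbig hδ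

theorem winL {E E' υ : Type} [Fintype E] [Fintype E'] [Fintype υ] {val : ℂ → ℕ → E → ℂ} (hval : InpL val)
    {Y : ℂ → E' → ℂ} {Dm : ℂ → Prop} {G : ℤ} {m E₀ : ℕ} (hlink : LinkL val Y Dm G υ m E₀) : WinL Y Dm G m := by
  classical
  intro D n A
  set n' : ℕ := n * (D + 1) * Fintype.card υ with hn'
  choose Ef Bf hlow using fun N : ℕ => hval N m A
  set Bm : ℕ := ∑ N ∈ Finset.range (n' + 1), Bf N with hBm
  set B' : ℕ := (n' + 1) * Bm + n' + 2 with hB'
  refine ⟨n', E₀ + ∑ N ∈ Finset.range (n' + 1), Ef N, 2 * B' + 1, fun J K ξ X hK hm hPt hξ hX => ?_⟩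
  have hJ1 : (1 : ℝ) ≤ (J : ℝ) + 2 := by linarith [show (0 : ℝ) ≤ J by positivity]
  have hEf : ∀ N ≤ n', ((J : ℝ) + 2) ^ Ef N ≤ ‖(ξ : ℂ)‖ := by
    intro N hN
    refine (pow_le_pow_right₀ hJ1 ?_).trans hξ
    have h1 : Ef N ≤ ∑ N ∈ Finset.range (n' + 1), Ef N :=
      Finset.single_le_sum (f := fun N => Ef N) (fun _ _ => Nat.zero_le _) (Finset.mem_range.2 (Nat.lt_succ_of_le hN))
    omega
  have hE₀ : ((J : ℝ) + 2) ^ E₀ ≤ ‖(ξ : ℂ)‖ := (pow_le_pow_right₀ hJ1 (by omega)).trans hξ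
  obtain ⟨u, hu⟩ := hlink K ξ hK hm
  -- the thresholds
  have hth : ∀ (N : ℕ) (g : Fin N → Fin (J + 1)), ∃ H₀ : ℝ, (N ≤ n' ∧ Function.Injective g ∧ ∀ i, 1 ≤ (g i : ℕ)) →
      ∀ H : ℝ, H₀ ≤ H → ∀ a : (Fin N → E) → ℤ, a ≠ 0 → (∀ e, |((a e : ℤ) : ℝ)| ≤ H) →
        1 ≤ H ^ Bf N * ‖∑ e, (a e : ℂ) * ∏ l, val ξ (g l) (e l)‖ := by
    intro N g
    by_cases hg : N ≤ n' ∧ Function.Injective g ∧ ∀ i, 1 ≤ (g i : ℕ)
    · obtain ⟨hN, hinj, hg1⟩ := hg
      obtain ⟨H₀, hH₀⟩ := hlow N J K ξ X hK hm hPt (hEf N hN) hX (fun i => (g i : ℕ))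
        (fun i j hij => hinj (Fin.ext hij)) (fun i => ⟨hg1 i, by have := (g i).2; omega⟩)
      exact ⟨H₀, fun _ => hH₀⟩
    · exact ⟨0, fun h => absurd h hg⟩
  choose Hg hHg using hth
  -- the constants of the transfer
  have htr : ∀ g : ℕ, ∃ Λ : ℝ, 1 ≤ Λ ∧ ((1 ≤ g ∧ g ≤ J ∧ Dm ((ξ : ℂ) + G * g)) →
      ∀ (h : Type) [Fintype h] (ζ : h → ℂ) (H δ : ℝ), 0 ≤ H → 0 ≤ δ →
      RelP D ζ Y ((ξ : ℂ) + G * g) H δ →
      RelA (fun p : (h × Fin (D + 1)) × υ => (ζ p.1.1 * (ξ : ℂ) ^ (p.1.2 : ℕ)) * u p.2) (val ξ g) (Λ * H) (δ * Λ)) := by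
    intro g
    by_cases hg : 1 ≤ g ∧ g ≤ J ∧ Dm ((ξ : ℂ) + G * g)
    · obtain ⟨h1, h2, h3⟩ := hg
      obtain ⟨F, hF1, hF2⟩ := hu g h1 (by
        refine le_trans (pow_le_pow_left₀ (by positivity) ?_ _) hE₀
        have : (g : ℝ) ≤ J := by exact_mod_cast h2
        linarith) h3
      obtain ⟨Λ, hΛ1, hΛ⟩ := rel_link F u hF1
      -- the powers of the point
      set Nm : Fin (D + 1) → Fin (D + 1) → ℤ := fun a b => if (b : ℕ) ≤ a then
        ((a : ℕ).choose b : ℤ) * (G * g) ^ ((a : ℕ) - b) else 0 with hNm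
      have hpow : ∀ a : Fin (D + 1), ((ξ : ℂ) + G * g) ^ (a : ℕ) = ∑ b : Fin (D + 1), (Nm a b : ℂ) * (ξ : ℂ) ^ (b : ℕ) := by
        intro a
        rw [add_pow]
        have h4 : ∑ b : Fin (D + 1), (Nm a b : ℂ) * (ξ : ℂ) ^ (b : ℕ) =
            ∑ b ∈ Finset.range (D + 1), if b ≤ (a : ℕ) then
              (ξ : ℂ) ^ b * ((G : ℂ) * g) ^ ((a : ℕ) - b) * ((a : ℕ).choose b : ℂ) else 0 := by
          rw [← Fin.sum_univ_eq_sum_range (fun b => if b ≤ (a : ℕ) then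
              (ξ : ℂ) ^ b * ((G : ℂ) * g) ^ ((a : ℕ) - b) * ((a : ℕ).choose b : ℂ) else 0) (D + 1)]
          refine Finset.sum_congr rfl fun b _ => ?_
          simp only [hNm]
          split_ifs
          · push_cast
            ring
          · simp
        rw [h4, ← Finset.sum_filter]
        refine Finset.sum_congr ?_ fun _ _ => rfl
        ext b
        rw [Finset.mem_range, Finset.mem_filter, Finset.mem_range]
        have := a.2
        omega
      set Λ₂ : ℝ := ∑ a : Fin (D + 1), ∑ b : Fin (D + 1), |((Nm a b : ℤ) : ℝ)| with hΛ₂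
      have hΛ₂0 : 0 ≤ Λ₂ := Finset.sum_nonneg fun _ _ => Finset.sum_nonneg fun _ _ => abs_nonneg _
      have hΛp : 0 ≤ Λ := by linarith
      have hΛb : Λ ≤ Λ * (1 + Λ₂) := by nlinarith [mul_nonneg hΛp hΛ₂0]
      refine ⟨Λ * (1 + Λ₂), hΛ1.trans hΛb, fun _ h _ ζ H δ hH hδ hrel => ?_⟩
      have h5 : RelA (fun p : h × Fin (D + 1) => ζ p.1 * (ξ : ℂ) ^ (p.2 : ℕ)) (Y ((ξ : ℂ) + G * g)) (Λ₂ * H) δ := by
        refine rel_subst (fun p q : h × Fin (D + 1) => if p.1 = q.1 then Nm p.2 q.2 else 0) (fun p => ?_) Λ₂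
          (fun q => ?_) hH hrel
        · rw [hpow, Finset.mul_sum, Fintype.sum_prod_type, Finset.sum_eq_single p.1]
          · refine Finset.sum_congr rfl fun b _ => ?_
            rw [if_pos rfl]
            ring
          · intro s _ hs
            refine Finset.sum_eq_zero fun b _ => ?_
            rw [if_neg (Ne.symm hs)]
            simp
          · intro hs
            exact absurd (Finset.mem_univ _) hs
        · rw [Fintype.sum_prod_type, Finset.sum_eq_single q.1]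
          · refine Finset.sum_le_sum fun a _ => ?_
            rw [if_pos rfl]
            exact Finset.single_le_sum (f := fun b => |((Nm a b : ℤ) : ℝ)|) (fun _ _ => abs_nonneg _) (Finset.mem_univ q.2)
          · intro s _ hs
            refine Finset.sum_eq_zero fun b _ => ?_
            rw [if_neg hs]
            simp
          · intro hs
            exact absurd (Finset.mem_univ _) hs
      have h6 := hΛ _ _ (Y ((ξ : ℂ) + G * g)) (val ξ g) hF2 (Λ₂ * H) δ (mul_nonneg hΛ₂0 hH) hδ h5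
      refine h6.mono ?_ (mul_le_mul_of_nonneg_left hΛb hδ)
      calc Λ * (Λ₂ * H) = (Λ * Λ₂) * H := by ring
        _ ≤ Λ * (1 + Λ₂) * H := mul_le_mul_of_nonneg_right (by linarith) hH
    · exact ⟨1, le_rfl, fun h => absurd h hg⟩
  choose Λ hΛ1 hΛ using htr
  -- a bound for the values
  set Ym : ℝ := 1 + ∑ g ∈ Finset.range (J + 1), ∑ e, ‖val ξ g e‖ with hYm
  have hYm1 : 1 ≤ Ym := by
    rw [hYm]
    have : 0 ≤ ∑ g ∈ Finset.range (J + 1), ∑ e, ‖val ξ g e‖ :=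
      Finset.sum_nonneg fun _ _ => Finset.sum_nonneg fun _ _ => norm_nonneg _
    linarith
  have hval' : ∀ g ≤ J, ∀ e, ‖val ξ g e‖ ≤ Ym := by
    intro g hg e
    have h1 : ‖val ξ g e‖ ≤ ∑ g ∈ Finset.range (J + 1), ∑ e, ‖val ξ g e‖ :=
      (Finset.single_le_sum (f := fun e => ‖val ξ g e‖) (fun _ _ => norm_nonneg _) (Finset.mem_univ e)).trans
        (Finset.single_le_sum (f := fun g => ∑ e, ‖val ξ g e‖) (fun _ _ => Finset.sum_nonneg fun _ _ => norm_nonneg _)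
          (Finset.mem_range.2 (Nat.lt_succ_of_le hg)))
    rw [hYm]
    linarith
  set Hs : ℝ := ∑ N ∈ Finset.range (n' + 1), ∑ g : Fin N → Fin (J + 1), |Hg N g| with hHs
  have hHgs : ∀ N ≤ n', ∀ g : Fin N → Fin (J + 1), Hg N g ≤ Hs := by
    intro N hN g
    refine (le_abs_self _).trans ?_
    exact (Finset.single_le_sum (f := fun g => |Hg N g|) (fun _ _ => abs_nonneg _) (Finset.mem_univ g)).trans
      (Finset.single_le_sum (f := fun N => ∑ g : Fin N → Fin (J + 1), |Hg N g|)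
        (fun _ _ => Finset.sum_nonneg fun _ _ => abs_nonneg _) (Finset.mem_range.2 (Nat.lt_succ_of_le hN)))
  set Λ₀ : ℝ := ∑ g ∈ Finset.range (J + 1), |Λ g| with hΛ₀
  set Kc : ℝ := n' * (n'.factorial * (Fintype.card E * Ym) ^ n') with hKc
  have hKc0 : 0 ≤ Kc := by positivity
  refine ⟨max 2 (max Λ₀ (max Hs (max Kc n'.factorial))), fun H hH h _ hh ζ S hS => ?_⟩
  have hH2 : 2 ≤ H := (le_max_left _ _).trans hH
  have hHΛ : Λ₀ ≤ H := (le_max_left _ _).trans ((le_max_right _ _).trans hH)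
  have hHs' : Hs ≤ H := (le_max_left _ _).trans ((le_max_right _ _).trans ((le_max_right _ _).trans hH))
  have hHK : Kc ≤ H := (le_max_left _ _).trans ((le_max_right _ _).trans ((le_max_right _ _).trans ((le_max_right _ _).trans hH)))
  have hHf : (n'.factorial : ℝ) ≤ H :=
    (le_max_right _ _).trans ((le_max_right _ _).trans ((le_max_right _ _).trans ((le_max_right _ _).trans hH)))
  have hH1 : 1 ≤ H := by linarith
  have hHp : 0 < H := by linarith
  by_contra hcard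
  push Not at hcard
  obtain ⟨S', hS'S, hS'c⟩ := Finset.exists_subset_card_eq (show n' + 1 ≤ S.card by omega)
  set e := S'.orderEmbOfFin hS'c with he
  have heS : ∀ i, (e i) ∈ S := fun i => hS'S (Finset.orderEmbOfFin_mem S' hS'c i)
  -- the relations
  set T : ℝ := H ^ 2 with hT
  have hT1 : 1 ≤ T := one_le_pow₀ hH1
  have hTp : 0 < T := by positivity
  have hrel : ∀ i : Fin (n' + 1), RelA (fun p : (h × Fin (D + 1)) × υ => (ζ p.1.1 * (ξ : ℂ) ^ (p.1.2 : ℕ)) * u p.2)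
      (val ξ (e i)) T (T ^ B')⁻¹ := by
    intro i
    obtain ⟨h1, h2, h3, h4⟩ := hS (e i) (heS i)
    have hΛi : Λ (e i) ≤ H := by
      have h5 := Finset.single_le_sum (f := fun g : ℕ => |Λ g|) (fun _ _ => abs_nonneg _)
        (show e i ∈ Finset.range (J + 1) by rw [Finset.mem_range]; omega)
      exact (le_abs_self _).trans (h5.trans hHΛ)
    have h5 := hΛ (e i) ⟨h1, h2, h3⟩ h ζ H _ hHp.le (by positivity) h4
    refine h5.mono ?_ ?_
    · calc Λ (e i) * H ≤ H * H := mul_le_mul_of_nonneg_right hΛi hHp.le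
        _ = T := by rw [hT]; ring
    · rw [hT, ← pow_mul, pow_succ, mul_inv, mul_assoc]
      have h6 : H⁻¹ * Λ (e i) ≤ 1 := by
        rw [inv_mul_le_iff₀ hHp, mul_one]
        exact hΛi
      calc (H ^ (2 * B'))⁻¹ * (H⁻¹ * Λ (e i)) ≤ (H ^ (2 * B'))⁻¹ * 1 := mul_le_mul_of_nonneg_left h6 (by positivity)
        _ = _ := mul_one _
  choose c hc l₀ hl₀ hs using hrel
  set κ : Fin (n' + 1) → ℝ := fun i =>
    ‖∑ s : (h × Fin (D + 1)) × υ, ((ζ s.1.1 * (ξ : ℂ) ^ (s.1.2 : ℕ)) * u s.2) * (c i (l₀ i) s : ℂ)‖ with hκ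
  set σ := Tuple.sort κ with hσ
  have hmono := Tuple.monotone_sort κ
  -- families over the natural numbers
  set f : ℕ → Fin (n' + 1) := fun i => σ (Fin.ofNat (n' + 1) i) with hf
  have hfinj : ∀ i ≤ n', ∀ j ≤ n', f i = f j → i = j := by
    intro i hi j hj hij
    have h1 := σ.injective hij
    have h2 := congrArg Fin.val h1
    rw [Fin.val_ofNat, Fin.val_ofNat, Nat.mod_eq_of_lt (by omega), Nat.mod_eq_of_lt (by omega)] at h2
    exact h2
  have hcardh : Fintype.card ((h × Fin (D + 1)) × υ) = n' := by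
    rw [Fintype.card_prod, Fintype.card_prod, Fintype.card_fin, hh]
  have hgJ : ∀ i, e i ≤ J := fun i => (hS (e i) (heS i)).2.1
  have key := elimL (E := E) n' hcardh T Ym (T ^ B')⁻¹ ((T ^ ((n' + 1) * Bm))⁻¹) hT1 hYm1 (by positivity)
    (fun i => val ξ (e (f i))) (fun i _ l => hval' _ (hgJ _) l) (fun i => c (f i)) (fun i _ l s => hc _ l s) ?_
    (fun s => (ζ s.1.1 * (ξ : ℂ) ^ (s.1.2 : ℕ)) * u s.2) (fun i => κ (f i)) (fun i _ => norm_pos_iff.2 (hl₀ _)) ?_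
    (fun i _ => ⟨l₀ (f i), le_rfl⟩) (fun i _ => hs (f i))
  · -- the contradiction
    have h1 : (n' : ℝ) * (n'.factorial * (Fintype.card E * T * Ym) ^ n') * (T ^ B')⁻¹ = Kc * T ^ n' * (T ^ B')⁻¹ := by
      rw [hKc, mul_right_comm (Fintype.card E : ℝ) T Ym, mul_pow (Fintype.card E * Ym : ℝ) T n']
      ring
    rw [h1] at key
    have hKT : Kc ≤ T := hHK.trans (by rw [hT]; nlinarith)
    have h2 : (T ^ ((n' + 1) * Bm))⁻¹ ≤ T * T ^ n' * (T ^ B')⁻¹ :=
      key.trans (mul_le_mul_of_nonneg_right (mul_le_mul_of_nonneg_right hKT (by positivity)) (by positivity))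
    have h3 : T ^ B' = T ^ ((n' + 1) * Bm) * (T * T ^ n') * T := by
      rw [hB', ← pow_succ', ← pow_add, ← pow_succ]
      congr 1
    rw [h3, mul_inv, mul_inv] at h2
    have h4 : 0 < (T ^ ((n' + 1) * Bm))⁻¹ := by positivity
    have h5 : T * T ^ n' * ((T ^ ((n' + 1) * Bm))⁻¹ * (T * T ^ n')⁻¹ * T⁻¹) = (T ^ ((n' + 1) * Bm))⁻¹ * T⁻¹ := by
      field_simp
    rw [h5] at h2
    have h6 : T⁻¹ < 1 := inv_lt_one_of_one_lt₀ (by rw [hT]; nlinarith)
    nlinarith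
  · intro N hN b hb hbH
    have hHb : (N.factorial : ℝ) * T ^ N ≤ T ^ (n' + 1) := by
      have h1 : (N.factorial : ℝ) ≤ T := by
        have h2 : (N.factorial : ℝ) ≤ n'.factorial := by exact_mod_cast Nat.factorial_le hN
        exact (h2.trans hHf).trans (by rw [hT]; nlinarith)
      calc (N.factorial : ℝ) * T ^ N ≤ T * T ^ n' :=
            mul_le_mul h1 (pow_le_pow_right₀ hT1 hN) (by positivity) (by positivity)
        _ = T ^ (n' + 1) := (pow_succ' _ _).symm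
    have h1 := hHg N (fun i => ⟨e (f i), by have := hgJ (f i); omega⟩) ⟨hN, ?_, ?_⟩ (T ^ (n' + 1)) ?_ b hb
      (fun l => (hbH l).trans hHb)
    · have h2 : Bf N ≤ Bm :=
        Finset.single_le_sum (f := fun N => Bf N) (fun _ _ => Nat.zero_le _) (Finset.mem_range.2 (Nat.lt_succ_of_le hN))
      rw [inv_le_iff_one_le_mul₀ (by positivity), mul_comm]
      refine h1.trans ?_
      refine mul_le_mul_of_nonneg_right ?_ (norm_nonneg _)
      rw [← pow_mul]
      exact pow_le_pow_right₀ hT1 (Nat.mul_le_mul_left _ h2)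
    · intro i j hij
      have h2 : e (f i) = e (f j) := congrArg Fin.val hij
      have h3 := e.injective h2
      exact Fin.ext (hfinj i (by have := i.2; omega) j (by have := j.2; omega) h3)
    · intro i
      exact (hS _ (heS _)).1
    · refine (hHgs N hN _).trans (hHs'.trans ?_)
      calc H ≤ T := by rw [hT]; nlinarith
        _ ≤ T ^ (n' + 1) := le_self_pow₀ hT1 (by omega)
  · intro i j hij hj
    have h1 : (Fin.ofNat (n' + 1) i) ≤ (Fin.ofNat (n' + 1) j) := by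
      rw [Fin.le_def, Fin.val_ofNat, Fin.val_ofNat, Nat.mod_eq_of_lt (by omega), Nat.mod_eq_of_lt (by omega)]
      exact hij
    exact hmono h1

end Pool.Agent.Q246.LN
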