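import Pool.Agent.Q246.LN.Core
import Pool.Agent.Q246.LN.Tower
import Pool.Agent.Q246.LN.Win

/-!
# Connected families of G-functions at algebraic points: measures of linear independence of products of values
-/

set_option autoImplicit false

open PowerSeries Module Filter AlgebraicIndependent

namespace Pool.Agent.Q246.LN

open Pool.Agent.Y916 Pool.Agent.Y916.Af Pool.Agent.Y916.Al Pool.Agent.Y120.GH Pool.Agent.Y118.UL Pool.Agent.Y475.AF
  Pool.Agent.Q246.NR Pool.Agent.Q246.NR2 Pool.Agent.Q246.AF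

variable {r : ℕ}

/-- the values of the monomials, and powers of the logarithm, at the shift `G g` -/
noncomputable def vm {ι : Type} (G : ℕ) (h : Fin r → ℚ⟦X⟧) (mm : ι → Fin r →₀ ℕ) (δ : ℕ) (ξ : ℂ) (g : ℕ)
    (p : Fin (δ + 1) × ι) : ℂ :=
  vc G h ξ g none ^ (p.1 : ℕ) * (mm p.2).prod fun j e => vc G h ξ g (some j) ^ e

theorem nrsL {h : Fin r → ℚ⟦X⟧} (hfam : FAMN h)
    (hsize : ∃ C : ℝ, ∀ i m, |((coeff m (h i) : ℚ) : ℝ)| ≤ C ^ (m + 1)) (hc : Conn h) :
    ∃ G0 : ℕ, 1 ≤ G0 ∧ ∀ G : ℕ, G0 ≤ G → ∀ I : Finset (Fin r), Free h I → ∀ (ι : Type) [Fintype ι]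
      (mm : ι → Fin r →₀ ℕ), (∀ (s : Finset ι) (c : ι → Polynomial ℚ), ∑ l ∈ s, algebraMap _ ℚ⟦X⟧ (c l) *
        MvPolynomial.aeval h (MvPolynomial.monomial (mm l) (1 : Polynomial ℚ)) = 0 → ∀ l ∈ s, c l = 0) →
      ∀ δ : ℕ, InpL (vm G h mm δ) := by
  classical
  obtain ⟨G0, hG0, hG⟩ := indep hfam hsize
  refine ⟨G0, hG0, fun G hGG I hFree ι _ mm hQ δ N d A' => ?_⟩
  by_contra hcon
  push Not at hcon
  choose H K ξ X hfd hrank hPt hbig hX g hginj hgb hlow using fun n : ℕ => hcon n n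
  obtain ⟨M, hM⟩ := hG G hGG I hFree N d A' H K ξ X g hfd hrank hPt hbig hX hginj hgb
  have hlow' : ∀ n, ∃ (w : ℝ) (a : (Fin N → Fin (δ + 1) × ι) → ℤ), M n ≤ w ∧ (n : ℝ) + 2 ≤ w ∧ a ≠ 0 ∧
      (∀ e, |((a e : ℤ) : ℝ)| ≤ w) ∧ w ^ n * ‖∑ e, (a e : ℂ) * ∏ l, vm G h mm δ (ξ n) (g n l) (e l)‖ < 1 := by
    intro n
    have h1 := hlow n
    unfold LowL at h1
    push Not at h1
    obtain ⟨w, hw1, a, ha, hab, hav⟩ := h1 (max (M n) ((n : ℝ) + 2))
    exact ⟨w, a, (le_max_left _ _).trans hw1, (le_max_right _ _).trans hw1, ha, hab, hav⟩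
  choose w a hwM hw ha0 hab hav using hlow'
  have hw : Sc w := hw
  obtain ⟨x, z, hx, hz, halg, hroot, hrel, hind⟩ := hM w hw hwM
  have key := li_points hFree hc N (fun l => cl w hw (x l)) (fun l o => cl w hw (z l o)) halg hroot hrel hind
    (fun i => MvPolynomial.monomial (mm i) (1 : Polynomial ℚ)) hQ δ
  -- the relation
  let A : (Fin N → Fin (δ + 1) × ι) → ZB w hw := fun e => ⟨fun n => a n e, bd_of_le fun n => by
    rw [Complex.norm_intCast]
    exact hab n e⟩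
  have hprod : ∀ e : Fin N → Fin (δ + 1) × ι, ∏ l, (cl w hw (z l none) ^ ((e l).1 : ℕ) *
      MvPolynomial.eval₂ (Polynomial.aeval (cl w hw (x l)) : Polynomial ℚ →ₐ[ℚ] Om w hw).toRingHom
        (fun j => cl w hw (z l (some j))) (MvPolynomial.monomial (mm (e l).2) (1 : Polynomial ℚ))) =
      cl w hw (∏ l, (z l none ^ ((e l).1 : ℕ) * (mm (e l).2).prod fun j k => z l (some j) ^ k)) := by
    intro e
    rw [map_prod]
    refine Finset.prod_congr rfl fun l _ => ?_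
    rw [map_mul, map_pow, MvPolynomial.eval₂_monomial, map_one, one_mul, map_finsuppProd]
    simp only [map_pow]
  have hzero : ∑ e, zc w hw (A e) * (∏ l, (cl w hw (z l none) ^ ((e l).1 : ℕ) *
      MvPolynomial.eval₂ (Polynomial.aeval (cl w hw (x l)) : Polynomial ℚ →ₐ[ℚ] Om w hw).toRingHom
        (fun j => cl w hw (z l (some j))) (MvPolynomial.monomial (mm (e l).2) (1 : Polynomial ℚ)))) = 0 := by
    simp only [hprod]
    have h1 : ∑ e, zc w hw (A e) * cl w hw (∏ l, (z l none ^ ((e l).1 : ℕ) * (mm (e l).2).prod fun j k => z l (some j) ^ k)) =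
        cl w hw (∑ e, zs w hw (A e) * ∏ l, (z l none ^ ((e l).1 : ℕ) * (mm (e l).2).prod fun j k => z l (some j) ^ k)) := by
      rw [map_sum]
      refine Finset.sum_congr rfl fun e _ => ?_
      rw [map_mul]
      rfl
    rw [h1, cl_eq_zero']
    intro k
    filter_upwards [ev_ge k] with n hn
    have h2 : ev w hw n (∑ e, zs w hw (A e) * ∏ l, (z l none ^ ((e l).1 : ℕ) * (mm (e l).2).prod fun j k => z l (some j) ^ k)) =
        ∑ e, (a n e : ℂ) * ∏ l, vm G h mm δ (ξ n) (g n l) (e l) := by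
      rw [map_sum]
      refine Finset.sum_congr rfl fun e _ => ?_
      rw [map_mul, ev_zs, map_prod]
      congr 1
      refine Finset.prod_congr rfl fun l _ => ?_
      rw [map_mul, map_pow, map_finsuppProd, vm]
      simp only [map_pow, ev_apply, hz]
    rw [h2]
    have h3 : 0 < w n ^ n := pow_pos (hw.pos n) _
    have h4 := hav n
    have h5 : ‖∑ e, (a n e : ℂ) * ∏ l, vm G h mm δ (ξ n) (g n l) (e l)‖ ≤ (w n ^ n)⁻¹ := by
      rw [← one_div, le_div_iff₀ h3, mul_comm]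
      exact h4.le
    refine h5.trans (inv_anti₀ (pow_pos (hw.pos n) _) (pow_le_pow_right₀ (hw.one n) hn))
  have hall := key (fun e => zc w hw (A e)) (fun e => base_LF (F := FZ w hw) (⟨zc w hw (A e), zc_mem (A e)⟩ : FZ w hw)) hzero
  have hev : ∀ᶠ n in (hyperfilter ℕ : Filter ℕ), ∀ e, a n e = 0 := by
    rw [eventually_all]
    intro e
    exact zc_eq_zero.1 (hall e)
  obtain ⟨n, hn⟩ := hev.exists
  exact ha0 n (funext hn)

end Pool.Agent.Q246.LN
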