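import Pool.Agent.Q246.LN.Count

/-!
# Several points: an abstract induction, linear version
-/

set_option autoImplicit false
set_option linter.unusedSectionVars false

open Finset

namespace Pool.Agent.Q246.LN

open Pool.Agent.Q246.NR Pool.Agent.Q246.NR2

/-- near relations between the products of the values at the points `x j`, whose coefficients are polynomials in the
points, with constants `ζ` -/
def RelT {J E : Type} [Fintype J] [Fintype E] {k : ℕ} (D : ℕ) (ζ : J → ℂ) (v : Fin k → ℂ → E → ℂ) (x : Fin k → ℂ)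
    (H δ : ℝ) : Prop :=
  RelA (fun p : J × (Fin k → Fin (D + 1)) => ζ p.1 * ∏ j, x j ^ (p.2 j : ℕ)) (fun e : Fin k → E => ∏ j, v j (x j) (e j))
    H δ

theorem multiL {E : Type} [Fintype E] (μ C₀ : ℝ) (hC₀ : 0 ≤ C₀) (k : ℕ) :
    ∀ (X : Fin k → ℕ → Finset ℂ) (v : Fin k → ℂ → E → ℂ) (_ : ∀ j, OneL (X j) (v j) μ)
      (_ : ∀ j T, 1 ≤ T → ((X j T).card : ℝ) ≤ C₀ * (T : ℝ) ^ μ) (D n : ℕ),
    ∃ (B : ℕ) (C c : ℝ), 0 ≤ C ∧ 0 < c ∧ ∀ T : ℕ, 1 ≤ T → ∃ H₀ : ℝ, ∀ H : ℝ, H₀ ≤ H →
      ∀ (J : Type) [Fintype J], Fintype.card J = n → ∀ ξ : J → ℂ, ∀ Y ⊆ Fintype.piFinset (fun j => X j T),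
        (∀ x ∈ Y, RelT D ξ v x H (H ^ B)⁻¹) → (Y.card : ℝ) ≤ C * (T : ℝ) ^ ((k : ℝ) * μ - c) := by
  classical
  induction k with
  | zero =>
    intro X v _ _ D n
    refine ⟨1, 0, 1, le_rfl, one_pos, fun T hT => ⟨2, fun H hH J _ _ ξ Y hY hrel => ?_⟩⟩
    have hemp : Y = ∅ := by
      rw [Finset.eq_empty_iff_forall_notMem]
      intro x hx
      obtain ⟨c, hc, l₀, hl₀, hs⟩ := hrel x hx
      rw [Fintype.sum_subsingleton _ l₀] at hs
      have h1 : (fun e : Fin 0 → E => ∏ j, v j (x j) (e j)) l₀ = 1 := Fin.prod_univ_zero _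
      rw [h1, mul_one] at hs
      have h3 : (H ^ 1)⁻¹ ≤ 1 / 2 := by
        rw [pow_one, one_div]
        exact inv_anti₀ (by norm_num) hH
      have key : ∀ t : ℝ, 0 < t → t ≤ (H ^ 1)⁻¹ * t → False := by
        intro t ht h4
        have h5 := mul_le_mul_of_nonneg_right h3 ht.le
        linarith
      exact key _ (norm_pos_iff.2 hl₀) hs
    rw [hemp]
    simp
  | succ k ih =>
    intro X v hv hX D n
    obtain ⟨Bk, Ck, ck, hCk, hck, hk⟩ := ih (fun j => X j.succ) (fun j => v j.succ) (fun j => hv j.succ)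
      (fun j => hX j.succ) D (n * (D + 1))
    obtain ⟨B1, C1, c1, hC1, hc1, h1⟩ := hv 0 D (Fintype.card (Fin k → E) * (n * Fintype.card (Fin k → Fin (D + 1))))
    refine ⟨B1 + Bk, C₀ * Ck + C₀ ^ k * C1, min ck c1, by positivity, lt_min hck hc1, fun T hT => ?_⟩
    obtain ⟨Hk, hHk⟩ := hk T hT
    obtain ⟨H1, hH1⟩ := h1 T hT
    refine ⟨max (max Hk H1) 1, fun H hH J _ hJ ξ Y hY hrel => ?_⟩
    have hHHk : Hk ≤ H := (le_max_left _ _).trans ((le_max_left _ _).trans hH)
    have hHH1 : H1 ≤ H := (le_max_right _ _).trans ((le_max_left _ _).trans hH)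
    have hHone : 1 ≤ H := (le_max_right _ _).trans hH
    have hHp : 0 < H := by linarith
    have hTR : (1 : ℝ) ≤ T := by exact_mod_cast hT
    have hTp : (0 : ℝ) < T := by linarith
    -- the exceptional tails
    set ξ₁ : ℂ → J × Fin (D + 1) → ℂ := fun x₀ p => ξ p.1 * x₀ ^ (p.2 : ℕ) with hξ₁
    set Z : ℂ → Finset (Fin k → ℂ) := fun x₀ => (Fintype.piFinset fun j : Fin k => X j.succ T).filter fun x' =>
      RelT D (ξ₁ x₀) (fun j => v j.succ) x' H (H ^ Bk)⁻¹ with hZ
    have hZc : ∀ x₀, ((Z x₀).card : ℝ) ≤ Ck * (T : ℝ) ^ ((k : ℝ) * μ - ck) := fun x₀ =>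
      hHk H hHHk (J × Fin (D + 1)) (by rw [Fintype.card_prod, hJ, Fintype.card_fin]) (ξ₁ x₀) (Z x₀)
        (Finset.filter_subset _ _) (fun x hx => (Finset.mem_filter.1 hx).2)
    have hYt : ∀ x ∈ Y, (fun j : Fin k => x j.succ) ∈ Fintype.piFinset fun j : Fin k => X j.succ T := by
      intro x hx
      have := Fintype.mem_piFinset.1 (hY hx)
      exact Fintype.mem_piFinset.2 fun j => this j.succ
    -- the fibres over the tails
    have hfib : ∀ x' : Fin k → ℂ,
        ((((Y.filter fun x => ¬ (fun j : Fin k => x j.succ) ∈ Z (x 0)).filter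
          fun x => (fun j : Fin k => x j.succ) = x').card : ℕ) : ℝ) ≤ C1 * (T : ℝ) ^ (μ - c1) := by
      intro x'
      set Yx := ((Y.filter fun x => ¬ (fun j : Fin k => x j.succ) ∈ Z (x 0)).filter
        fun x => (fun j : Fin k => x j.succ) = x') with hYx
      have hinj : (Yx.image fun x => x 0).card = Yx.card := by
        refine Finset.card_image_of_injOn ?_
        intro x hx y hy hxy
        rw [Finset.mem_coe, Finset.mem_filter] at hx hy
        funext j
        refine Fin.cases hxy (fun i => ?_) j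
        exact congrFun (hx.2.trans hy.2.symm) i
      rw [← hinj]
      set mt : (Fin k → E) → ℂ := fun e => ∏ j : Fin k, v j.succ (x' j) (e j) with hmt
      refine hH1 H hHH1 ((Fin k → E) × (J × (Fin k → Fin (D + 1))))
        (by rw [Fintype.card_prod, Fintype.card_prod, hJ])
        (fun p => ξ p.2.1 * (∏ j, x' j ^ (p.2.2 j : ℕ)) * mt p.1) _ ?_ ?_
      · intro y hy
        obtain ⟨x, hx, rfl⟩ := Finset.mem_image.1 hy
        exact Fintype.mem_piFinset.1 (hY (Finset.mem_filter.1 (Finset.mem_filter.1 hx).1).1) 0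
      · intro y hy
        obtain ⟨x, hx, rfl⟩ := Finset.mem_image.1 hy
        obtain ⟨hxY0, hxx'⟩ := Finset.mem_filter.1 hx
        obtain ⟨hxY, hxZ⟩ := Finset.mem_filter.1 hxY0
        obtain ⟨c, hc, l₀, hl₀, hs⟩ := hrel x hxY
        rw [hxx'] at hxZ
        have hx'pi : x' ∈ Fintype.piFinset fun j : Fin k => X j.succ T := by
          rw [← hxx']
          exact hYt x hxY
        have hxj : ∀ j : Fin k, x j.succ = x' j := fun j => congrFun hxx' j
        have hnot : ¬ RelT D (ξ₁ (x 0)) (fun j => v j.succ) x' H (H ^ Bk)⁻¹ :=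
          fun hcon => hxZ (Finset.mem_filter.2 ⟨hx'pi, hcon⟩)
        -- the coefficients
        set A : (Fin (k + 1) → E) → ℂ := fun e => ∑ p : J × (Fin (k + 1) → Fin (D + 1)),
          (ξ p.1 * ∏ j, x j ^ (p.2 j : ℕ)) * (c e p : ℂ) with hA
        set W : E → ℂ := fun l => ∑ e : Fin k → E, A (Fin.cons l e) * mt e with hW
        -- the coefficients, in another order
        have hAe : ∀ e, A e = ∑ s, ∑ a₀ : Fin (D + 1), ∑ a' : Fin k → Fin (D + 1),
            (ξ s * x 0 ^ (a₀ : ℕ) * ∏ j, x' j ^ (a' j : ℕ)) * (c e (s, Fin.cons a₀ a') : ℂ) := by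
          intro e
          simp only [hA]
          rw [Fintype.sum_prod_type]
          refine Finset.sum_congr rfl fun s _ => ?_
          rw [← (Fin.consEquiv (fun _ : Fin (k + 1) => Fin (D + 1))).sum_comp, Fintype.sum_prod_type]
          refine Finset.sum_congr rfl fun a₀ _ => Finset.sum_congr rfl fun a' _ => ?_
          have h3 : ((Fin.consEquiv (fun _ : Fin (k + 1) => Fin (D + 1))) (a₀, a')) =
            (Fin.cons a₀ a' : Fin (k + 1) → Fin (D + 1)) := rfl
          rw [h3, Fin.prod_univ_succ]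
          simp only [Fin.cons_zero, Fin.cons_succ, hxj]
          ring
        have htot : ∑ e : Fin (k + 1) → E, A e * ∏ j, v j (x j) (e j) = ∑ l : E, W l * v 0 (x 0) l := by
          rw [← (Fin.consEquiv (fun _ : Fin (k + 1) => E)).sum_comp, Fintype.sum_prod_type]
          refine Finset.sum_congr rfl fun l _ => ?_
          simp only [hW]
          rw [Finset.sum_mul]
          refine Finset.sum_congr rfl fun e _ => ?_
          have h3 : ((Fin.consEquiv (fun _ : Fin (k + 1) => E)) (l, e)) =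
            (Fin.cons l e : Fin (k + 1) → E) := rfl
          rw [h3, Fin.prod_univ_succ]
          simp only [Fin.cons_zero, Fin.cons_succ, hxj, hmt]
          ring
        have hl₀c : (Fin.cons (l₀ 0) (fun j : Fin k => l₀ j.succ) : Fin (k + 1) → E) = l₀ :=
          Fin.cons_self_tail l₀
        have hw0 : 0 < ‖A l₀‖ := norm_pos_iff.2 hl₀
        have htail : ∀ e : Fin k → E, ∑ p : (J × Fin (D + 1)) × (Fin k → Fin (D + 1)),
            (ξ₁ (x 0) p.1 * ∏ j, x' j ^ (p.2 j : ℕ)) * ((c (Fin.cons (l₀ 0) e) (p.1.1, Fin.cons p.1.2 p.2) : ℤ) : ℂ) =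
            A (Fin.cons (l₀ 0) e) := by
          intro e
          rw [hAe, Fintype.sum_prod_type, Fintype.sum_prod_type]
        have hbig : (H ^ Bk)⁻¹ * ‖A l₀‖ < ‖W (l₀ 0)‖ := by
          by_contra hcon
          rw [not_lt] at hcon
          apply hnot
          refine ⟨fun e p => c (Fin.cons (l₀ 0) e) (p.1.1, Fin.cons p.1.2 p.2), fun e p => hc _ _,
            fun j => l₀ j.succ, ?_, ?_⟩
          · rw [htail, hl₀c]
            exact hl₀
          · simp only [htail]
            rw [hl₀c]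
            exact hcon
        have hone : ∀ l : E, ∑ p : ((Fin k → E) × (J × (Fin k → Fin (D + 1)))) × Fin (D + 1),
            ((ξ p.1.2.1 * (∏ j, x' j ^ (p.1.2.2 j : ℕ)) * mt p.1.1) * x 0 ^ (p.2 : ℕ)) *
              ((c (Fin.cons l p.1.1) (p.1.2.1, Fin.cons p.2 p.1.2.2) : ℤ) : ℂ) = W l := by
          intro l
          rw [Fintype.sum_prod_type, Fintype.sum_prod_type]
          simp only [hW]
          refine Finset.sum_congr rfl fun e _ => ?_
          rw [hAe, Fintype.sum_prod_type, Finset.sum_mul]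
          refine Finset.sum_congr rfl fun s _ => ?_
          rw [Finset.sum_comm, Finset.sum_mul]
          refine Finset.sum_congr rfl fun a₀ _ => ?_
          rw [Finset.sum_mul]
          refine Finset.sum_congr rfl fun a' _ => ?_
          ring
        refine ⟨fun l p => c (Fin.cons l p.1.1) (p.1.2.1, Fin.cons p.2 p.1.2.2), fun l p => hc _ _, l₀ 0, ?_, ?_⟩
        · rw [hone]
          intro h0
          rw [h0, norm_zero] at hbig
          have : 0 < (H ^ Bk)⁻¹ := by positivity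
          have := mul_pos this hw0
          linarith
        · simp only [hone]
          rw [← htot]
          refine hs.trans ?_
          rw [pow_add, mul_inv, mul_assoc]
          exact mul_le_mul_of_nonneg_left hbig.le (by positivity)
    -- counting
    have hsplit := Finset.card_filter_add_card_filter_not (s := Y)
      (p := fun x : Fin (k + 1) → ℂ => (fun j : Fin k => x j.succ) ∈ Z (x 0))
    have hp1 : ((Y.filter fun x : Fin (k + 1) → ℂ => (fun j : Fin k => x j.succ) ∈ Z (x 0)).card : ℝ) ≤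
        (C₀ * (T : ℝ) ^ μ) * (Ck * (T : ℝ) ^ ((k : ℝ) * μ - ck)) := by
      have h2 := Finset.card_eq_sum_card_fiberwise (s := Y.filter fun x : Fin (k + 1) → ℂ =>
          (fun j : Fin k => x j.succ) ∈ Z (x 0)) (t := X 0 T) (f := fun x => x 0) (by
          intro x hx
          rw [Finset.mem_coe, Finset.mem_filter] at hx
          exact Fintype.mem_piFinset.1 (hY hx.1) 0)
      rw [h2]
      push_cast
      have hCT : 0 ≤ Ck * (T : ℝ) ^ ((k : ℝ) * μ - ck) := by positivity
      calc ∑ x₀ ∈ X 0 T, ((((Y.filter fun x : Fin (k + 1) → ℂ => (fun j : Fin k => x j.succ) ∈ Z (x 0)).filter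
            fun x => x 0 = x₀).card : ℕ) : ℝ)
          ≤ ∑ x₀ ∈ X 0 T, Ck * (T : ℝ) ^ ((k : ℝ) * μ - ck) := by
            refine Finset.sum_le_sum fun x₀ _ => ?_
            refine le_trans ?_ (hZc x₀)
            have h3 : ((Y.filter fun x : Fin (k + 1) → ℂ => (fun j : Fin k => x j.succ) ∈ Z (x 0)).filter
                fun x => x 0 = x₀).card ≤ (Z x₀).card := by
              refine Finset.card_le_card_of_injOn (fun t => fun j : Fin k => t j.succ) ?_ ?_
              · intro t ht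
                rw [Finset.mem_coe, Finset.mem_filter, Finset.mem_filter] at ht
                rw [Finset.mem_coe, ← ht.2]
                exact ht.1.2
              · intro t ht t' ht' heq
                rw [Finset.mem_coe, Finset.mem_filter] at ht ht'
                funext j
                refine Fin.cases (ht.2.trans ht'.2.symm) (fun i => congrFun heq i) j
            exact_mod_cast h3
        _ = ((X 0 T).card : ℝ) * (Ck * (T : ℝ) ^ ((k : ℝ) * μ - ck)) := by rw [Finset.sum_const, nsmul_eq_mul]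
        _ ≤ (C₀ * (T : ℝ) ^ μ) * (Ck * (T : ℝ) ^ ((k : ℝ) * μ - ck)) :=
            mul_le_mul_of_nonneg_right (hX 0 T hT) hCT
    have hp2 : ((Y.filter fun x : Fin (k + 1) → ℂ => ¬ (fun j : Fin k => x j.succ) ∈ Z (x 0)).card : ℝ) ≤
        (C₀ * (T : ℝ) ^ μ) ^ k * (C1 * (T : ℝ) ^ (μ - c1)) := by
      have h2 := Finset.card_eq_sum_card_fiberwise (s := Y.filter fun x : Fin (k + 1) → ℂ =>
          ¬ (fun j : Fin k => x j.succ) ∈ Z (x 0)) (t := Fintype.piFinset fun j : Fin k => X j.succ T)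
        (f := fun x => fun j : Fin k => x j.succ) (by
          intro x hx
          rw [Finset.mem_coe, Finset.mem_filter] at hx
          exact hYt x hx.1)
      rw [h2]
      push_cast
      have hC1T : 0 ≤ C1 * (T : ℝ) ^ (μ - c1) := by positivity
      calc ∑ x' ∈ Fintype.piFinset fun j : Fin k => X j.succ T,
            ((((Y.filter fun x : Fin (k + 1) → ℂ => ¬ (fun j : Fin k => x j.succ) ∈ Z (x 0)).filter
              fun x => (fun j : Fin k => x j.succ) = x').card : ℕ) : ℝ)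
          ≤ ∑ x' ∈ Fintype.piFinset fun j : Fin k => X j.succ T, C1 * (T : ℝ) ^ (μ - c1) :=
            Finset.sum_le_sum fun x' _ => hfib x'
        _ = ((Fintype.piFinset fun j : Fin k => X j.succ T).card : ℝ) * (C1 * (T : ℝ) ^ (μ - c1)) := by
            rw [Finset.sum_const, nsmul_eq_mul]
        _ ≤ (C₀ * (T : ℝ) ^ μ) ^ k * (C1 * (T : ℝ) ^ (μ - c1)) := by
            refine mul_le_mul_of_nonneg_right ?_ hC1T
            rw [Fintype.card_piFinset]
            push_cast
            calc ∏ j : Fin k, ((X j.succ T).card : ℝ) ≤ ∏ _j : Fin k, (C₀ * (T : ℝ) ^ μ) :=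
                  Finset.prod_le_prod (fun _ _ => Nat.cast_nonneg _) fun j _ => hX j.succ T hT
              _ = (C₀ * (T : ℝ) ^ μ) ^ k := by simp
    have hYc : (Y.card : ℝ) = ((Y.filter fun x : Fin (k + 1) → ℂ => (fun j : Fin k => x j.succ) ∈ Z (x 0)).card : ℝ) +
        ((Y.filter fun x : Fin (k + 1) → ℂ => ¬ (fun j : Fin k => x j.succ) ∈ Z (x 0)).card : ℝ) := by
      exact_mod_cast hsplit.symm
    rw [hYc]
    have hmin1 : min ck c1 ≤ ck := min_le_left _ _
    have hmin2 : min ck c1 ≤ c1 := min_le_right _ _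
    have he1 : (C₀ * (T : ℝ) ^ μ) * (Ck * (T : ℝ) ^ ((k : ℝ) * μ - ck)) ≤
        C₀ * Ck * (T : ℝ) ^ (((k + 1 : ℕ) : ℝ) * μ - min ck c1) := by
      have h3 : (C₀ * (T : ℝ) ^ μ) * (Ck * (T : ℝ) ^ ((k : ℝ) * μ - ck)) =
          C₀ * Ck * (T : ℝ) ^ (((k + 1 : ℕ) : ℝ) * μ - ck) := by
        have h4 : (((k + 1 : ℕ) : ℝ) * μ - ck) = μ + ((k : ℝ) * μ - ck) := by push_cast; ring
        rw [h4, Real.rpow_add hTp]
        ring
      rw [h3]
      exact mul_le_mul_of_nonneg_left (Real.rpow_le_rpow_of_exponent_le hTR (by linarith)) (by positivity)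
    have he2 : (C₀ * (T : ℝ) ^ μ) ^ k * (C1 * (T : ℝ) ^ (μ - c1)) ≤
        C₀ ^ k * C1 * (T : ℝ) ^ (((k + 1 : ℕ) : ℝ) * μ - min ck c1) := by
      have h3 : (C₀ * (T : ℝ) ^ μ) ^ k * (C1 * (T : ℝ) ^ (μ - c1)) =
          C₀ ^ k * C1 * (T : ℝ) ^ (((k + 1 : ℕ) : ℝ) * μ - c1) := by
        have h4 : (((k + 1 : ℕ) : ℝ) * μ - c1) = (k : ℝ) * μ + (μ - c1) := by push_cast; ring
        have h5 : ((T : ℝ) ^ μ) ^ k = (T : ℝ) ^ ((k : ℝ) * μ) := by
          rw [← Real.rpow_natCast, ← Real.rpow_mul hTp.le, mul_comm]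
        rw [h4, Real.rpow_add hTp, mul_pow, h5]
        ring
      rw [h3]
      exact mul_le_mul_of_nonneg_left (Real.rpow_le_rpow_of_exponent_le hTR (by linarith)) (by positivity)
    calc _ ≤ (C₀ * (T : ℝ) ^ μ) * (Ck * (T : ℝ) ^ ((k : ℝ) * μ - ck)) +
          (C₀ * (T : ℝ) ^ μ) ^ k * (C1 * (T : ℝ) ^ (μ - c1)) := add_le_add hp1 hp2
      _ ≤ C₀ * Ck * (T : ℝ) ^ (((k + 1 : ℕ) : ℝ) * μ - min ck c1) +
          C₀ ^ k * C1 * (T : ℝ) ^ (((k + 1 : ℕ) : ℝ) * μ - min ck c1) := add_le_add he1 he2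
      _ = _ := by ring

end Pool.Agent.Q246.LN
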